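import Mathlib
import Pool.Graph.R_seed8.TH176.Nag.Flat

set_option autoImplicit false

/-! # Zeros at `1` and `-1` of `A(X^2) + X C(X^2)` for short windows `A`, `C` -/

namespace Pool.Agent.H35.SQ

open Finset Polynomial

variable {F : Type} [Field F]

theorem taylor_coeff_sum (p : F[X]) (l : ℕ) :
    (taylor 1 p).coeff l = ∑ e ∈ p.support, ((e.choose l : ℕ) : F) * p.coeff e := by
  rw [taylor_coeff, hasseDeriv_apply, eval_sum, Polynomial.sum]
  apply Finset.sum_congr rfl
  intro e _
  rw [eval_monomial, one_pow, mul_one]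

/-- a polynomial with few terms has a zero of small order at `1` -/
theorem terms_zero [CharZero F] {P : F[X]} {T : ℕ} (hT : P.support.card ≤ T)
    (h : (X - 1) ^ T ∣ P) : P = 0 := by
  obtain ⟨Q, hQ⟩ := h
  have h1 : taylor 1 P = X ^ T * taylor 1 Q := by
    rw [hQ, taylor_mul]
    congr 1
    rw [taylor_pow]
    congr 1
    rw [map_sub, taylor_X, taylor_one]
    simp
  have h2 : ∀ l < P.support.card, ∑ e ∈ P.support, ((e.choose l : ℕ) : F) * P.coeff e = 0 := by
    intro l hl
    rw [← taylor_coeff_sum, h1, coeff_X_pow_mul', if_neg (by omega)]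
  have h3 := Pool.Agent.TH176.Nag.vand h2
  by_contra hne
  obtain ⟨e, he⟩ := support_nonempty.2 hne
  exact (mem_support_iff.1 he) (h3 e he)

/-- the polynomial `A(X^2) + X C(X^2)` -/
noncomputable def eo (A C : F[X]) : F[X] := expand F 2 A + X * expand F 2 C

theorem eo_coeff_even (A C : F[X]) (n : ℕ) : (eo A C).coeff (2 * n) = A.coeff n := by
  unfold eo
  rw [coeff_add, mul_comm 2 n, coeff_expand_mul (by norm_num)]
  rcases n with _ | n
  · rw [zero_mul, mul_coeff_zero, coeff_X_zero, zero_mul, add_zero]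
  · have e : (n + 1) * 2 = (2 * n + 1) + 1 := by ring
    rw [e, coeff_X_mul, coeff_expand (by norm_num), if_neg (by omega), add_zero]

theorem eo_coeff_odd (A C : F[X]) (n : ℕ) : (eo A C).coeff (2 * n + 1) = C.coeff n := by
  unfold eo
  rw [coeff_add, coeff_X_mul, mul_comm 2 n, coeff_expand_mul (by norm_num),
    coeff_expand (by norm_num), if_neg (by omega), zero_add]

theorem eo_zero {A C : F[X]} (h : eo A C = 0) : A = 0 ∧ C = 0 := by
  constructor
  · ext n
    rw [← eo_coeff_even A C, h, coeff_zero, coeff_zero]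
  · ext n
    rw [← eo_coeff_odd A C, h, coeff_zero, coeff_zero]

theorem eo_card {A C : F[X]} {nA nC a g : ℕ} (hA : A.support ⊆ Ico a (a + nA))
    (hC : C.support ⊆ Ico g (g + nC)) : (eo A C).support.card ≤ nA + nC := by
  have h1 : (eo A C).support ⊆ (Ico a (a + nA)).image (fun n => 2 * n) ∪
      (Ico g (g + nC)).image (fun n => 2 * n + 1) := by
    intro m hm
    rw [mem_support_iff] at hm
    rw [mem_union]
    rcases Nat.even_or_odd' m with ⟨n, rfl | rfl⟩
    · left
      rw [eo_coeff_even] at hm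
      exact mem_image_of_mem _ (hA (mem_support_iff.2 hm))
    · right
      rw [eo_coeff_odd] at hm
      exact mem_image_of_mem _ (hC (mem_support_iff.2 hm))
  refine (card_le_card h1).trans ((card_union_le _ _).trans (add_le_add ?_ ?_))
  · refine card_image_le.trans ?_
    rw [Nat.card_Ico]
    omega
  · refine card_image_le.trans ?_
    rw [Nat.card_Ico]
    omega

theorem eo_neg (A C : F[X]) : (eo A C).comp (-X) = eo A (-C) := by
  have h : ∀ B : F[X], (expand F 2 B).comp (-X) = expand F 2 B := by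
    intro B
    rw [expand_eq_comp_X_pow, comp_assoc, pow_comp, X_comp, even_two.neg_pow]
  unfold eo
  rw [add_comp, mul_comp, X_comp, h, h, map_neg]
  ring

theorem eo_eval_one (A C : F[X]) : (eo A C).eval 1 = A.eval 1 + C.eval 1 := by
  unfold eo
  rw [eval_add, eval_mul, eval_X, expand_eval, expand_eval]
  simp

theorem eo_eval_neg (A C : F[X]) : (eo A C).eval (-1) = A.eval 1 - C.eval 1 := by
  unfold eo
  rw [eval_add, eval_mul, eval_X, expand_eval, expand_eval]
  simp [sub_eq_add_neg]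

theorem support_div {A : F[X]} {a n : ℕ} (h : ((X - 1) * A).support ⊆ Ico a (a + (n + 1))) :
    A.support ⊆ Ico a (a + n) := by
  rcases eq_or_ne A 0 with rfl | hA
  · simp
  have hX : (X - 1 : F[X]) ≠ 0 := X_sub_C_ne_zero 1
  have hXd : (X - 1 : F[X]).natDegree = 1 := by
    have := natDegree_X_sub_C (1 : F)
    rwa [C_1] at this
  have hXt : (X - 1 : F[X]).natTrailingDegree = 0 := by
    rw [natTrailingDegree_eq_zero]
    right
    simp
  have hne : (X - 1) * A ≠ 0 := mul_ne_zero hX hA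
  have h1 := h (natDegree_mem_support_of_nonzero hne)
  have h2 := h (natTrailingDegree_mem_support_of_nonzero hne)
  rw [natDegree_mul hX hA, hXd] at h1
  rw [natTrailingDegree_mul hX hA, hXt] at h2
  rw [mem_Ico] at h1 h2
  intro m hm
  rw [mem_Ico]
  have h3 := le_natDegree_of_mem_supp m hm
  have h4 := natTrailingDegree_le_of_mem_supp m hm
  omega

theorem dvd_neg_comp {P : F[X]} {e : ℕ} (h : (X + 1) ^ e ∣ P) : (X - 1) ^ e ∣ P.comp (-X) := by
  obtain ⟨Q, rfl⟩ := h
  rw [mul_comp, pow_comp, add_comp, X_comp, one_comp]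
  have e1 : (-X + 1 : F[X]) ^ e = (-1) ^ e * (X - 1) ^ e := by
    rw [← mul_pow]
    congr 1
    ring
  rw [e1]
  exact ⟨(-1) ^ e * Q.comp (-X), by ring⟩

/-- **The bound for the zeros at `1` and `-1`.** -/
theorem ob [CharZero F] (f : ℕ) : ∀ (nA nC a g e1 e2 : ℕ) (A C : F[X]),
    A.support ⊆ Ico a (a + nA) → C.support ⊆ Ico g (g + nC) →
    (X - 1) ^ e1 ∣ eo A C → (X + 1) ^ e2 ∣ eo A C → nA + nC ≤ e1 + e2 → min e1 e2 = f →
    f ≤ nA → f ≤ nC → A = 0 ∧ C = 0 := by
  induction f with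
  | zero =>
    intro nA nC a g e1 e2 A C hA hC h1 h2 hsum hf _ _
    rcases Nat.eq_zero_or_pos e2 with he | he
    · subst he
      exact eo_zero (terms_zero ((eo_card hA hC).trans (by omega)) h1)
    · have he1 : e1 = 0 := by omega
      subst he1
      have h3 := dvd_neg_comp h2
      rw [eo_neg] at h3
      have hC' : (-C).support ⊆ Ico g (g + nC) := by rwa [support_neg]
      obtain ⟨g1, g2⟩ := eo_zero (terms_zero ((eo_card hA hC').trans (by omega)) h3)
      exact ⟨g1, neg_eq_zero.1 g2⟩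
  | succ f ih =>
    intro nA nC a g e1 e2 A C hA hC h1 h2 hsum hf hfA hfC
    have hp1 : (eo A C).eval 1 = 0 := by
      have h3 : (X - 1 : F[X]) ∣ eo A C := (dvd_pow_self _ (by omega : e1 ≠ 0)).trans h1
      have h4 : (X - Polynomial.C (1 : F)) ∣ eo A C := by rwa [C_1]
      exact dvd_iff_isRoot.1 h4
    have hp2 : (eo A C).eval (-1) = 0 := by
      have h3 : (X + 1 : F[X]) ∣ eo A C := (dvd_pow_self _ (by omega : e2 ≠ 0)).trans h2
      have h4 : (X - Polynomial.C (-1 : F)) ∣ eo A C := by rwa [C_neg, C_1, sub_neg_eq_add]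
      exact dvd_iff_isRoot.1 h4
    rw [eo_eval_one] at hp1
    rw [eo_eval_neg] at hp2
    have hA1 : A.eval 1 = 0 := by
      have : 2 * A.eval 1 = 0 := by linear_combination hp1 + hp2
      exact (mul_eq_zero.1 this).resolve_left two_ne_zero
    have hC1 : C.eval 1 = 0 := by
      have : 2 * C.eval 1 = 0 := by linear_combination hp1 - hp2
      exact (mul_eq_zero.1 this).resolve_left two_ne_zero
    obtain ⟨A', hA'⟩ : (X - 1 : F[X]) ∣ A := by
      have := dvd_iff_isRoot.2 hA1
      rwa [C_1] at this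
    obtain ⟨C', hC'⟩ : (X - 1 : F[X]) ∣ C := by
      have := dvd_iff_isRoot.2 hC1
      rwa [C_1] at this
    obtain ⟨nA, rfl⟩ : ∃ n, nA = n + 1 := ⟨nA - 1, by omega⟩
    obtain ⟨nC, rfl⟩ : ∃ n, nC = n + 1 := ⟨nC - 1, by omega⟩
    obtain ⟨e1, rfl⟩ : ∃ n, e1 = n + 1 := ⟨e1 - 1, by omega⟩
    obtain ⟨e2, rfl⟩ : ∃ n, e2 = n + 1 := ⟨e2 - 1, by omega⟩
    rw [hA'] at hA
    rw [hC'] at hC
    have hsA := support_div hA
    have hsC := support_div hC
    have hfac : eo A C = (X - 1) * (X + 1) * eo A' C' := by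
      rw [hA', hC']
      unfold eo
      rw [map_mul, map_mul, map_sub, map_one, expand_X]
      ring
    have hco : IsCoprime (X - 1 : F[X]) (X + 1) := by
      have h3 := isCoprime_X_sub_C_of_isUnit_sub (R := F) (a := 1) (b := -1)
        (by rw [isUnit_iff_ne_zero]; norm_num)
      rwa [C_1, C_neg, C_1, sub_neg_eq_add] at h3
    have hX1 : (X - 1 : F[X]) ≠ 0 := X_sub_C_ne_zero 1
    have hX2 : (X + 1 : F[X]) ≠ 0 := by
      have := X_sub_C_ne_zero (-1 : F)
      rwa [C_neg, C_1, sub_neg_eq_add] at this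
    have g1 : (X - 1) ^ e1 ∣ eo A' C' := by
      rw [hfac, pow_succ', mul_assoc] at h1
      have h3 := (mul_dvd_mul_iff_left hX1).1 h1
      exact (hco.pow_left (m := e1)).dvd_of_dvd_mul_left h3
    have g2 : (X + 1) ^ e2 ∣ eo A' C' := by
      have e : (X - 1) * (X + 1) * eo A' C' = (X + 1) * ((X - 1) * eo A' C') := by ring
      rw [hfac, e, pow_succ'] at h2
      have h3 := (mul_dvd_mul_iff_left hX2).1 h2
      exact (hco.symm.pow_left (m := e2)).dvd_of_dvd_mul_left h3
    obtain ⟨k1, k2⟩ := ih nA nC a g e1 e2 A' C' hsA hsC g1 g2 (by omega) (by omega) (by omega)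
      (by omega)
    rw [hA', hC', k1, k2, mul_zero]
    exact ⟨rfl, rfl⟩

/-- the polynomial on the nodal curve -/
theorem eo_eq (A B : F[X]) : A.comp (X ^ 2) + B.comp (X ^ 2) * (1 + X ^ 3 - X) =
    eo (A + B) ((X - 1) * B) := by
  unfold eo
  rw [map_add, map_mul, map_sub, map_one, expand_X, expand_eq_comp_X_pow, expand_eq_comp_X_pow]
  ring

theorem support_mul_X_sub {B : F[X]} {g n : ℕ} (h : B.support ⊆ Ico g (g + n)) :
    ((X - 1) * B).support ⊆ Ico g (g + (n + 1)) := by
  intro m hm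
  rw [mem_support_iff, sub_mul, one_mul, coeff_sub] at hm
  rw [mem_Ico]
  by_cases h1 : B.coeff m = 0
  · rcases m with _ | m
    · simp [h1] at hm
    · rw [coeff_X_mul, h1, sub_zero] at hm
      have := mem_Ico.1 (h (mem_support_iff.2 hm))
      omega
  · have := mem_Ico.1 (h (mem_support_iff.2 h1))
    omega

end Pool.Agent.H35.SQ

namespace Pool.Agent.H35.SQ

open Finset Polynomial

variable {F : Type} [Field F]

/-- zeros at `1` and `-1` of order at least `f` -/
theorem ob_dvd [CharZero F] (f : ℕ) : ∀ A C : F[X],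
    (X - 1) ^ f ∣ eo A C → (X + 1) ^ f ∣ eo A C → (X - 1) ^ f ∣ A ∧ (X - 1) ^ f ∣ C := by
  induction f with
  | zero =>
    intro A C _ _
    simp
  | succ f ih =>
    intro A C h1 h2
    have hp1 : (eo A C).eval 1 = 0 := by
      have h3 : (X - 1 : F[X]) ∣ eo A C := (dvd_pow_self _ (Nat.succ_ne_zero f)).trans h1
      have h4 : (X - Polynomial.C (1 : F)) ∣ eo A C := by rwa [C_1]
      exact dvd_iff_isRoot.1 h4
    have hp2 : (eo A C).eval (-1) = 0 := by
      have h3 : (X + 1 : F[X]) ∣ eo A C := (dvd_pow_self _ (Nat.succ_ne_zero f)).trans h2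
      have h4 : (X - Polynomial.C (-1 : F)) ∣ eo A C := by rwa [C_neg, C_1, sub_neg_eq_add]
      exact dvd_iff_isRoot.1 h4
    rw [eo_eval_one] at hp1
    rw [eo_eval_neg] at hp2
    have hA1 : A.eval 1 = 0 := by
      have : 2 * A.eval 1 = 0 := by linear_combination hp1 + hp2
      exact (mul_eq_zero.1 this).resolve_left two_ne_zero
    have hC1 : C.eval 1 = 0 := by
      have : 2 * C.eval 1 = 0 := by linear_combination hp1 - hp2
      exact (mul_eq_zero.1 this).resolve_left two_ne_zero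
    obtain ⟨A', hA'⟩ : (X - 1 : F[X]) ∣ A := by
      have := dvd_iff_isRoot.2 hA1
      rwa [C_1] at this
    obtain ⟨C', hC'⟩ : (X - 1 : F[X]) ∣ C := by
      have := dvd_iff_isRoot.2 hC1
      rwa [C_1] at this
    have hfac : eo A C = (X - 1) * (X + 1) * eo A' C' := by
      rw [hA', hC']
      unfold eo
      rw [map_mul, map_mul, map_sub, map_one, expand_X]
      ring
    have hco : IsCoprime (X - 1 : F[X]) (X + 1) := by
      have h3 := isCoprime_X_sub_C_of_isUnit_sub (R := F) (a := 1) (b := -1)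
        (by rw [isUnit_iff_ne_zero]; norm_num)
      rwa [C_1, C_neg, C_1, sub_neg_eq_add] at h3
    have hX1 : (X - 1 : F[X]) ≠ 0 := X_sub_C_ne_zero 1
    have hX2 : (X + 1 : F[X]) ≠ 0 := by
      have := X_sub_C_ne_zero (-1 : F)
      rwa [C_neg, C_1, sub_neg_eq_add] at this
    have g1 : (X - 1) ^ f ∣ eo A' C' := by
      rw [hfac, pow_succ', mul_assoc] at h1
      have h3 := (mul_dvd_mul_iff_left hX1).1 h1
      exact (hco.pow_left (m := f)).dvd_of_dvd_mul_left h3
    have g2 : (X + 1) ^ f ∣ eo A' C' := by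
      have e : (X - 1) * (X + 1) * eo A' C' = (X + 1) * ((X - 1) * eo A' C') := by ring
      rw [hfac, e, pow_succ'] at h2
      have h3 := (mul_dvd_mul_iff_left hX2).1 h2
      exact (hco.symm.pow_left (m := f)).dvd_of_dvd_mul_left h3
    obtain ⟨k1, k2⟩ := ih A' C' g1 g2
    rw [hA', hC', pow_succ']
    exact ⟨mul_dvd_mul_left _ k1, mul_dvd_mul_left _ k2⟩

theorem card_of_Ico {A : F[X]} {a n : ℕ} (h : A.support ⊆ Ico a (a + n)) : A.support.card ≤ n := by
  have := card_le_card h
  rw [Nat.card_Ico] at this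
  omega

/-- the possible orders of the zeros at `1` and `-1` -/
theorem orders [CharZero F] {nA nB a g e1 e2 : ℕ} {A B : F[X]} (hne : A ≠ 0 ∨ B ≠ 0)
    (hg : a ≤ g) (hgn : g + nB ≤ a + nA)
    (hA : A.support ⊆ Ico a (a + nA)) (hB : B.support ⊆ Ico g (g + nB))
    (h1 : (X - 1) ^ e1 ∣ eo (A + B) ((X - 1) * B)) (h2 : (X + 1) ^ e2 ∣ eo (A + B) ((X - 1) * B)) :
    (B ≠ 0 ∧ e1 + e2 ≤ nA + nB) ∨ (e1 + 1 ≤ nA ∧ e2 + 1 ≤ nA) := by
  have sAB : (A + B).support ⊆ Ico a (a + nA) := by
    refine support_add.trans (union_subset hA (hB.trans ?_))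
    intro m hm
    rw [mem_Ico] at hm ⊢
    omega
  have sC := support_mul_X_sub hB
  have hX1 : (X - 1 : F[X]) ≠ 0 := X_sub_C_ne_zero 1
  by_cases hB0 : B = 0
  · right
    have hA0 : A ≠ 0 := by
      rcases hne with h | h
      · exact h
      · exact absurd hB0 h
    rw [hB0, add_zero, mul_zero] at h1 h2
    have hz : (0 : F[X]).support ⊆ Ico a (a + 0) := by simp
    constructor
    · by_contra hcon
      have h3 := terms_zero ((eo_card hA hz).trans (by omega : nA + 0 ≤ e1)) h1
      exact hA0 (eo_zero h3).1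
    · by_contra hcon
      have h4 := dvd_neg_comp h2
      rw [eo_neg, neg_zero] at h4
      have h3 := terms_zero ((eo_card hA hz).trans (by omega : nA + 0 ≤ e2)) h4
      exact hA0 (eo_zero h3).1
  · left
    refine ⟨hB0, ?_⟩
    by_contra hcon
    have hf1 : (X - 1) ^ (min e1 e2) ∣ eo (A + B) ((X - 1) * B) :=
      (pow_dvd_pow _ (min_le_left _ _)).trans h1
    have hf2 : (X + 1) ^ (min e1 e2) ∣ eo (A + B) ((X - 1) * B) :=
      (pow_dvd_pow _ (min_le_right _ _)).trans h2
    obtain ⟨k1, k2⟩ := ob_dvd _ _ _ hf1 hf2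
    have hlC : min e1 e2 ≤ nB + 1 := by
      by_contra hc
      have h3 := terms_zero ((card_of_Ico sC).trans (by omega)) k2
      exact hB0 ((mul_eq_zero.1 h3).resolve_left hX1)
    have hlA : min e1 e2 ≤ nA := by
      by_contra hc
      have h3 := terms_zero ((card_of_Ico sC).trans (by omega)) k2
      exact hB0 ((mul_eq_zero.1 h3).resolve_left hX1)
    obtain ⟨k3, k4⟩ := ob (min e1 e2) nA (nB + 1) a g e1 e2 _ _ sAB sC h1 h2 (by omega) rfl
      hlA hlC
    exact hB0 ((mul_eq_zero.1 k4).resolve_left hX1)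

end Pool.Agent.H35.SQ
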