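import Mathlib
import Pool.Agent.H35.SQ.OB
import Pool.Graph.R_seed8.TH3.IR.Hermite

set_option autoImplicit false

/-! # Prescribed jets at `1` and `-1` with two short windows -/

namespace Pool.Agent.H35.SQ

open Finset Polynomial Pool.Agent.TH3.IR

variable {F : Type} [Field F]

/-- the polynomial on the nodal curve -/
noncomputable def PP (A B : F[X]) : F[X] :=
  A.comp (X ^ 2) + B.comp (X ^ 2) * (1 + X ^ 3 - X)

theorem PP_eval_one (A B : F[X]) : (PP A B).eval 1 = (PP A B).eval (-1) := by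
  unfold PP
  simp only [eval_add, eval_mul, eval_comp, eval_pow, eval_X, eval_sub, eval_one]
  norm_num

theorem PP_eval₂ (A B : F[X]) (y : PowerSeries F) : (PP A B).eval₂ PowerSeries.C y =
    A.eval₂ PowerSeries.C (y ^ 2) + B.eval₂ PowerSeries.C (y ^ 2) * (1 + y ^ 3 - y) := by
  unfold PP
  rw [eval₂_add, eval₂_mul, eval₂_comp, eval₂_comp]
  simp only [eval₂_pow, eval₂_X, eval₂_add, eval₂_sub, eval₂_one]

theorem PP_add (A B A' B' : F[X]) : PP (A + A') (B + B') = PP A B + PP A' B' := by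
  unfold PP
  rw [add_comp, add_comp]
  ring

theorem PP_smul (c : F) (A B : F[X]) : PP (c • A) (c • B) = Polynomial.C c * PP A B := by
  unfold PP
  rw [smul_eq_C_mul, smul_eq_C_mul, mul_comp, mul_comp, C_comp]
  ring

theorem support_X_pow_mul {A : F[X]} {a n : ℕ} (h : A.degree < (n : WithBot ℕ)) :
    (X ^ a * A).support ⊆ Ico a (a + n) := by
  intro m hm
  rw [mem_support_iff, coeff_X_pow_mul'] at hm
  split_ifs at hm with h1
  · rw [mem_Ico]
    refine ⟨h1, ?_⟩
    by_contra h2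
    apply hm
    apply coeff_eq_zero_of_degree_lt
    exact lt_of_lt_of_le h (by exact_mod_cast (by omega : n ≤ m - a))
  · exact absurd rfl hm

theorem jets_eq [CharZero F] {γ₁ γ₂ : PowerSeries F}
    (h1 : 2 * (γ₁ ^ 3 - γ₁) = PowerSeries.X) (h1c : PowerSeries.constantCoeff γ₁ = 1)
    (h2 : 2 * (γ₂ ^ 3 - γ₂) = -PowerSeries.X) (h2c : PowerSeries.constantCoeff γ₂ = 1)
    {a nA g nB e1 e2 : ℕ} (hg : a ≤ g) (hgn : g + nB ≤ a + nA) (hN : e1 + e2 + 1 = nA + nB)
    (hf2 : min e1 e2 ≤ nB) (u v : ℕ → F) (huv : u 0 = v 0) :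
    ∃ A B : F[X], A.support ⊆ Ico a (a + nA) ∧ B.support ⊆ Ico g (g + nB) ∧
      (∀ n ≤ e1, ((PP A B).eval₂ PowerSeries.C γ₁).coeff n = u n) ∧
      (∀ n ≤ e2, ((PP A B).eval₂ PowerSeries.C (-γ₂)).coeff n = v n) := by
  obtain ⟨w1, hw1, hu1⟩ := hw_param (s := 1) one_ne_zero (by rw [map_one, one_mul]; exact h1) h1c
  obtain ⟨w2, hw2, hu2⟩ := hw_param (s := -1) (neg_ne_zero.2 one_ne_zero)
    (by rw [map_neg, map_one, neg_one_mul]; exact h2) h2c
  have g1 : γ₁ - PowerSeries.C 1 = PowerSeries.X * w1 := by rw [map_one]; exact hw1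
  have g2 : -γ₂ - PowerSeries.C (-1) = PowerSeries.X * (-w2) := by
    rw [map_neg, map_one, mul_neg, ← hw2]
    ring
  let Φ : (F[X] × F[X]) →ₗ[F] ((Fin (e1 + 1) → F) × (Fin e2 → F)) :=
    { toFun := fun Q => (fun n => PowerSeries.coeff (n : ℕ)
          ((PP (X ^ a * Q.1) (X ^ g * Q.2)).eval₂ PowerSeries.C γ₁),
        fun n => PowerSeries.coeff ((n : ℕ) + 1)
          ((PP (X ^ a * Q.1) (X ^ g * Q.2)).eval₂ PowerSeries.C (-γ₂)))
      map_add' := by
        intro Q Q'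
        have e : PP (X ^ a * (Q + Q').1) (X ^ g * (Q + Q').2) =
            PP (X ^ a * Q.1) (X ^ g * Q.2) + PP (X ^ a * Q'.1) (X ^ g * Q'.2) := by
          rw [← PP_add, Prod.fst_add, Prod.snd_add, mul_add, mul_add]
        ext n
        · change PowerSeries.coeff _ ((PP (X ^ a * (Q + Q').1) (X ^ g * (Q + Q').2)).eval₂ _ _) = _
          rw [e, eval₂_add, map_add]
          rfl
        · change PowerSeries.coeff _ ((PP (X ^ a * (Q + Q').1) (X ^ g * (Q + Q').2)).eval₂ _ _) = _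
          rw [e, eval₂_add, map_add]
          rfl
      map_smul' := by
        intro c Q
        have e : PP (X ^ a * (c • Q).1) (X ^ g * (c • Q).2) =
            Polynomial.C c * PP (X ^ a * Q.1) (X ^ g * Q.2) := by
          rw [← PP_smul, Prod.smul_fst, Prod.smul_snd, mul_smul_comm, mul_smul_comm]
        ext n
        · change PowerSeries.coeff _ ((PP (X ^ a * (c • Q).1) (X ^ g * (c • Q).2)).eval₂ _ _) = _
          rw [e, eval₂_mul, eval₂_C, PowerSeries.coeff_C_mul]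
          rfl
        · change PowerSeries.coeff _ ((PP (X ^ a * (c • Q).1) (X ^ g * (c • Q).2)).eval₂ _ _) = _
          rw [e, eval₂_mul, eval₂_C, PowerSeries.coeff_C_mul]
          rfl }
  have hc0 : ∀ A B : F[X], PowerSeries.constantCoeff ((PP A B).eval₂ PowerSeries.C γ₁) =
      PowerSeries.constantCoeff ((PP A B).eval₂ PowerSeries.C (-γ₂)) := by
    intro A B
    rw [hw_const, hw_const, h1c, map_neg, h2c]
    exact PP_eval_one A B
  let Ψ : (degreeLT F nA × degreeLT F nB) →ₗ[F] ((Fin (e1 + 1) → F) × (Fin e2 → F)) :=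
    Φ ∘ₗ ((degreeLT F nA).subtype.prodMap (degreeLT F nB).subtype)
  have hinj : Function.Injective Ψ := by
    rw [injective_iff_map_eq_zero]
    rintro ⟨⟨A, hdA⟩, ⟨B, hdB⟩⟩ hB
    have hΦ : Φ (A, B) = 0 := hB
    rw [mem_degreeLT] at hdA hdB
    have d1 : PowerSeries.X ^ (e1 + 1) ∣ (PP (X ^ a * A) (X ^ g * B)).eval₂ PowerSeries.C γ₁ := by
      refine PowerSeries.X_pow_dvd_iff.2 fun m hm => ?_
      exact congrFun (congrArg Prod.fst hΦ) ⟨m, hm⟩
    have d2 : PowerSeries.X ^ (e2 + 1) ∣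
        (PP (X ^ a * A) (X ^ g * B)).eval₂ PowerSeries.C (-γ₂) := by
      refine PowerSeries.X_pow_dvd_iff.2 fun m hm => ?_
      rcases m with _ | m
      · rw [PowerSeries.coeff_zero_eq_constantCoeff_apply, ← hc0,
          ← PowerSeries.coeff_zero_eq_constantCoeff_apply]
        exact congrFun (congrArg Prod.fst hΦ) ⟨0, Nat.succ_pos _⟩
      · exact congrFun (congrArg Prod.snd hΦ) ⟨m, by omega⟩
    have k1 := hw_dvd g1 hu1 _ _ d1
    have k2 := hw_dvd g2 hu2.neg _ _ d2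
    rw [C_1] at k1
    rw [C_neg, C_1, sub_neg_eq_add] at k2
    unfold PP at k1 k2
    rw [eo_eq] at k1 k2
    have sA := support_X_pow_mul (a := a) hdA
    have sB := support_X_pow_mul (a := g) hdB
    have sAB : (X ^ a * A + X ^ g * B).support ⊆ Ico a (a + nA) := by
      refine support_add.trans (union_subset sA (sB.trans ?_))
      intro m hm
      rw [mem_Ico] at hm ⊢
      omega
    obtain ⟨k3, k4⟩ := ob (min (e1 + 1) (e2 + 1)) nA (nB + 1) a g (e1 + 1) (e2 + 1) _ _ sAB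
      (support_mul_X_sub sB) k1 k2 (by omega) rfl (by omega) (by omega)
    have hX1 : (X - 1 : F[X]) ≠ 0 := X_sub_C_ne_zero 1
    have k5 := (mul_eq_zero.1 k4).resolve_left hX1
    have k6 := (mul_eq_zero.1 k5).resolve_left (pow_ne_zero _ X_ne_zero)
    rw [k5, add_zero] at k3
    have k7 := (mul_eq_zero.1 k3).resolve_left (pow_ne_zero _ X_ne_zero)
    exact Prod.ext (Subtype.ext k7) (Subtype.ext k6)
  have hfinA : Module.Finite F (degreeLT F nA) := Module.Finite.equiv (degreeLTEquiv F nA).symm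
  have hfinB : Module.Finite F (degreeLT F nB) := Module.Finite.equiv (degreeLTEquiv F nB).symm
  have hfin : Module.finrank F (degreeLT F nA × degreeLT F nB) =
      Module.finrank F ((Fin (e1 + 1) → F) × (Fin e2 → F)) := by
    rw [Module.finrank_prod, Module.finrank_prod, Module.finrank_fin_fun, Module.finrank_fin_fun,
      (degreeLTEquiv F nA).finrank_eq, (degreeLTEquiv F nB).finrank_eq, Module.finrank_fin_fun,
      Module.finrank_fin_fun]
    omega
  have hsurj : Function.Surjective Ψ :=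
    (LinearMap.injective_iff_surjective_of_finrank_eq_finrank hfin).1 hinj
  obtain ⟨⟨⟨A, hdA⟩, ⟨B, hdB⟩⟩, hB⟩ := hsurj (fun n => u n, fun n => v (n + 1))
  have hΦ : Φ (A, B) = ((fun n : Fin (e1 + 1) => u n), fun n : Fin e2 => v (n + 1)) := hB
  rw [mem_degreeLT] at hdA hdB
  refine ⟨X ^ a * A, X ^ g * B, support_X_pow_mul hdA, support_X_pow_mul hdB, fun n hn => ?_,
    fun n hn => ?_⟩
  · exact congrFun (congrArg Prod.fst hΦ) ⟨n, Nat.lt_succ_of_le hn⟩
  · rcases n with _ | n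
    · rw [PowerSeries.coeff_zero_eq_constantCoeff_apply, ← hc0,
        ← PowerSeries.coeff_zero_eq_constantCoeff_apply, ← huv]
      exact congrFun (congrArg Prod.fst hΦ) ⟨0, Nat.succ_pos _⟩
    · exact congrFun (congrArg Prod.snd hΦ) ⟨n, by omega⟩

/-- **Prescribed jets.** -/
theorem jets [CharZero F] {γ₁ γ₂ : PowerSeries F}
    (h1 : 2 * (γ₁ ^ 3 - γ₁) = PowerSeries.X) (h1c : PowerSeries.constantCoeff γ₁ = 1)
    (h2 : 2 * (γ₂ ^ 3 - γ₂) = -PowerSeries.X) (h2c : PowerSeries.constantCoeff γ₂ = 1)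
    {a nA g nB e1 e2 : ℕ} (hg : a ≤ g) (hgn : g + nB ≤ a + nA) (hN : e1 + e2 + 1 ≤ nA + nB)
    (hf2 : min e1 e2 ≤ nB) (u v : ℕ → F) (huv : u 0 = v 0) :
    ∃ A B : F[X], A.support ⊆ Ico a (a + nA) ∧ B.support ⊆ Ico g (g + nB) ∧
      (∀ n ≤ e1, ((PP A B).eval₂ PowerSeries.C γ₁).coeff n = u n) ∧
      (∀ n ≤ e2, ((PP A B).eval₂ PowerSeries.C (-γ₂)).coeff n = v n) := by
  rcases le_total e1 e2 with h | h
  · obtain ⟨A, B, k1, k2, k3, k4⟩ := jets_eq h1 h1c h2 h2c (e1 := e1) (e2 := nA + nB - 1 - e1)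
      hg hgn (by omega) (by omega) u v huv
    exact ⟨A, B, k1, k2, k3, fun n hn => k4 n (by omega)⟩
  · obtain ⟨A, B, k1, k2, k3, k4⟩ := jets_eq h1 h1c h2 h2c (e1 := nA + nB - 1 - e2) (e2 := e2)
      hg hgn (by omega) (by omega) u v huv
    exact ⟨A, B, k1, k2, fun n hn => k3 n (by omega), k4⟩

end Pool.Agent.H35.SQ
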