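import Mathlib
import Pool.Agent.H35.SQ.Jets
import Pool.Graph.R_seed8.TH3.IR.Lift1

set_option autoImplicit false

/-! # Realisation of monomials near the nodal curve, exact windows -/

namespace Pool.Agent.H35.SQ

open Finset MvPolynomial Pool.Agent.TH603.EL Pool.Agent.TH176.Nag Pool.Agent.TH3.IR
open Pool.Agent.TH3.IR.L1

/-- the general form -/
theorem lift_genP {F : Type} [Field F] {τ s : ℝ} [CharZero F] (h0 : 0 < τ) (h1 : τ < 1)
    {c b : HR F} (ht : IsTube τ s c b)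
    (hs0 : 0 < s) {E : Type} [Fintype E] (G : E → HR F) (hG : ∀ e, G e ∈ Cone F τ s) {i : ℤ}
    (hs : |(i : ℝ)| < s) {N Q : ℕ} (hi1 : -(N * τ) < i) (hi2 : (i : ℝ) < N * (1 - τ))
    (hQ : N * τ ≤ Q + 1)
    (hE : ∀ e1 e2 : ℕ, e1 + e2 + 1 ≤ N → min e1 e2 ≤ Q → ∀ u v : ℕ → F, u 0 = v 0 →
      ∃ k : E → F, (∀ n ≤ e1, (∑ e, k e • edge1 τ (G e)).coeff n = u n) ∧
        (∀ n ≤ e2, (∑ e, k e • edge2 τ (G e)).coeff n = v n)) :
    ∃ κ : E → HK F, ∃ a : ℝ, Low (∑ e, incl (κ e) * G e) a ∧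
      (∑ e, incl (κ e) * G e).coeff a = AddMonoidAlgebra.single (i, 0) (1 : F) := by
  have _ := ht
  have _ := hs0
  have h1' : 0 < 1 - τ := by linarith
  have key : ∀ e1 e2 : ℕ, (e1 + e2 + 1 ≤ N) → min e1 e2 ≤ Q →
      ((0 ≤ i ∧ (e1 : ℤ) = i ∧ i * τ < (e2 + 1) * (1 - τ)) ∨
      (i < 0 ∧ (e2 : ℤ) = -i ∧ -i * (1 - τ) < (e1 + 1) * τ)) →
      ∃ κ : E → HK F, ∃ a : ℝ, Low (∑ e, incl (κ e) * G e) a ∧
      (∑ e, incl (κ e) * G e).coeff a = AddMonoidAlgebra.single (i, 0) (1 : F) := by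
    intro e1 e2 h12 hm hi
    exact lift_of_edges h0 h1 G hG i e1 e2 hi hs fun u v huv => hE e1 e2 h12 hm u v huv
  rcases lt_or_ge i 0 with hi | hi
  · have hir : (i : ℝ) < 0 := by exact_mod_cast hi
    have hn : (((-i).toNat : ℕ) : ℤ) = -i := Int.toNat_of_nonneg (by omega)
    have hnr : (((-i).toNat : ℕ) : ℝ) = -(i : ℝ) := by exact_mod_cast hn
    have hq : 0 ≤ -(i : ℝ) * (1 - τ) / τ := by
      apply div_nonneg _ h0.le
      exact mul_nonneg (by linarith) h1'.le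
    refine key ⌊-(i : ℝ) * (1 - τ) / τ⌋₊ (-i).toNat ?_ ?_ (Or.inr ⟨hi, hn, ?_⟩)
    · have hf := Nat.floor_le hq
      have e3 : -(i : ℝ) * (1 - τ) / τ + -(i : ℝ) = -(i : ℝ) / τ := by
        field_simp
        ring
      have e4 : -(i : ℝ) / τ < N := by
        rw [div_lt_iff₀ h0]; linarith
      have e5 : ((⌊-(i : ℝ) * (1 - τ) / τ⌋₊ : ℝ) + ((-i).toNat : ℕ)) < N := by
        rw [hnr]
        linarith
      have e6 : ⌊-(i : ℝ) * (1 - τ) / τ⌋₊ + (-i).toNat < N := by exact_mod_cast e5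
      omega
    · have e5 : (((-i).toNat : ℕ) : ℝ) < Q + 1 := by
        rw [hnr]
        linarith
      have e6 : (-i).toNat < Q + 1 := by exact_mod_cast e5
      omega
    · have hf := Nat.lt_floor_add_one (-(i : ℝ) * (1 - τ) / τ)
      rw [div_lt_iff₀ h0] at hf
      exact hf
  · have hir : (0 : ℝ) ≤ i := by exact_mod_cast hi
    have hn : ((i.toNat : ℕ) : ℤ) = i := Int.toNat_of_nonneg hi
    have hnr : ((i.toNat : ℕ) : ℝ) = (i : ℝ) := by exact_mod_cast hn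
    have hq : 0 ≤ (i : ℝ) * τ / (1 - τ) := div_nonneg (mul_nonneg hir h0.le) h1'.le
    have hf := Nat.floor_le hq
    refine key i.toNat ⌊(i : ℝ) * τ / (1 - τ)⌋₊ ?_ ?_ (Or.inl ⟨hi, hn, ?_⟩)
    · have e3 : (i : ℝ) + (i : ℝ) * τ / (1 - τ) = (i : ℝ) / (1 - τ) := by
        field_simp
        ring
      have e4 : (i : ℝ) / (1 - τ) < N := by
        rw [div_lt_iff₀ h1']; linarith
      have e5 : (((i.toNat : ℕ) : ℝ) + ⌊(i : ℝ) * τ / (1 - τ)⌋₊) < N := by
        rw [hnr]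
        linarith
      have e6 : i.toNat + ⌊(i : ℝ) * τ / (1 - τ)⌋₊ < N := by exact_mod_cast e5
      omega
    · have e4 : (i : ℝ) * τ / (1 - τ) < N * τ := by
        rw [div_lt_iff₀ h1']
        nlinarith
      have e5 : (⌊(i : ℝ) * τ / (1 - τ)⌋₊ : ℝ) < Q + 1 := by linarith
      have e6 : ⌊(i : ℝ) * τ / (1 - τ)⌋₊ < Q + 1 := by exact_mod_cast e5
      omega
    · have hf := Nat.lt_floor_add_one ((i : ℝ) * τ / (1 - τ))
      rw [div_lt_iff₀ h1'] at hf
      exact hf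

/-- realisation of a monomial near the nodal cubic, standard triangle -/
theorem form_liftP {F : Type} [Field F] [CharZero F] {τ s : ℝ} (h0 : 0 < τ) (h1 : τ < 1)
    {c b : HR F} (ht : IsTube τ s c b) {m : ℕ} (hs0 : 0 < s) {i : ℤ} (hs : |(i : ℝ)| < s)
    (hi1 : -((3 * m : ℕ) * τ) < i) (hi2 : (i : ℝ) < (3 * m : ℕ) * (1 - τ)) :
    ∃ g : (ℕ × ℕ) →₀ HK F, (∀ a ∈ g.support, a.1 + a.2 ≤ m) ∧
      ∃ a : ℝ, Low (g.sum fun e κ => incl κ * ((c ^ 2) ^ e.1 * (1 + b) ^ e.2)) a ∧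
        (g.sum fun e κ => incl κ * ((c ^ 2) ^ e.1 * (1 + b) ^ e.2)).coeff a =
          AddMonoidAlgebra.single (i, 0) (1 : F) := by
  classical
  set S : Finset (ℕ × ℕ) := ((Finset.range (m + 1)) ×ˢ (Finset.range (m + 1))).filter
    fun a => a.1 + a.2 ≤ m with hS
  have hmem : ∀ a : ℕ × ℕ, a.1 + a.2 ≤ m → a ∈ S := by
    intro a ha
    rw [hS, Finset.mem_filter, Finset.mem_product, Finset.mem_range, Finset.mem_range]
    exact ⟨⟨by omega, by omega⟩, ha⟩
  have hc2 := cone_pow h0 h1 hs0 ht.cone 2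
  have h1b : 1 + b ∈ Cone F τ s := cone_add cone_one (b_cone h0 h1 hs0 ht)
  have hebb := eb h0 h1 hs0 ht
  have hc2e := e_pow h0 h1 hs0 ht.cone 2
  set G' : ℕ × ℕ → HR F := fun a => (c ^ 2) ^ a.1 * (1 + b) ^ a.2 with hG'
  set G : {a // a ∈ S} → HR F := fun a => G' a with hG
  have hcone : ∀ e, G e ∈ Cone F τ s := by
    intro a
    exact cone_mul h0 h1 hs0 (cone_pow h0 h1 hs0 hc2 _) (cone_pow h0 h1 hs0 h1b _)
  have hr := root1 h0 h1 hs0 ht
  have hcc := cc1 h0 h1 ht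
  obtain ⟨κ, a, ha1, ha2⟩ := lift_genP h0 h1 ht hs0 G hcone hs (N := 3 * m) (Q := 3 * m) hi1 hi2
    (by
      have : ((3 * m : ℕ) : ℝ) * τ ≤ (3 * m : ℕ) * 1 :=
        mul_le_mul_of_nonneg_left h1.le (Nat.cast_nonneg _)
      linarith) (by
      intro e1 e2 he _ u v huv
      obtain ⟨P, hP1, hnode, hP3, hP4⟩ := hermite_window hr.1 hcc.1 hr.2 hcc.2 (p0 := 0)
        (p1 := 3 * m) (e1 := e1) (e2 := e2) (by omega) u v huv
      have hdeg : P.natDegree ≤ 3 * m := by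
        by_cases hP0 : P = 0
        · rw [hP0, Polynomial.natDegree_zero]; omega
        · exact (hP1 _ (Polynomial.natDegree_mem_support_of_nonzero hP0)).2
      obtain ⟨g, hg, hgP⟩ := form_of_poly hdeg hnode
      have hgS : g.support ⊆ S := fun a ha => hmem a (hg a ha)
      have key1 : ∑ a : {a // a ∈ S}, g a • edge1 τ (G a) =
          P.eval₂ PowerSeries.C (edge1 τ c) := by
        have e1 : ∀ a : ℕ × ℕ, edge1 τ (G' a) =
            edge1 τ c ^ (2 * a.1) * (1 + edge1 τ c ^ 3 - edge1 τ c) ^ a.2 := fun a => by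
          rw [hG', edge1_mul h0 h1 hs0 (cone_pow h0 h1 hs0 hc2 _) (cone_pow h0 h1 hs0 h1b _),
            (e_pow h0 h1 hs0 hc2 _).1, (e_pow h0 h1 hs0 h1b _).1, hc2e.1, hebb.1, ← pow_mul]
        simp only [hG, e1]
        rw [Finset.sum_coe_sort S
          (fun a => g a • (edge1 τ c ^ (2 * a.1) * (1 + edge1 τ c ^ 3 - edge1 τ c) ^ a.2)),
          hgP, Finsupp.sum, Polynomial.eval₂_finsetSum]
        symm
        rw [Finset.sum_subset hgS]
        · refine Finset.sum_congr rfl fun a _ => ?_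
          rw [Polynomial.eval₂_mul, Polynomial.eval₂_mul, Polynomial.eval₂_C,
            PowerSeries.smul_eq_C_mul]
          simp only [Polynomial.eval₂_pow, Polynomial.eval₂_X, Polynomial.eval₂_add,
            Polynomial.eval₂_sub, Polynomial.eval₂_one]
        · intro a _ ha
          rw [Finsupp.notMem_support_iff.1 ha, Polynomial.C_0, zero_mul, Polynomial.eval₂_zero]
      have key2 : ∑ a : {a // a ∈ S}, g a • edge2 τ (G a) =
          P.eval₂ PowerSeries.C (-edge2 τ c) := by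
        have e1 : ∀ a : ℕ × ℕ, edge2 τ (G' a) =
            (-edge2 τ c) ^ (2 * a.1) * (1 + (-edge2 τ c) ^ 3 - (-edge2 τ c)) ^ a.2 := fun a => by
          rw [hG', edge2_mul h0 h1 hs0 (cone_pow h0 h1 hs0 hc2 _) (cone_pow h0 h1 hs0 h1b _),
            (e_pow h0 h1 hs0 hc2 _).2, (e_pow h0 h1 hs0 h1b _).2, hc2e.2, hebb.2, pow_mul, neg_sq]
        simp only [hG, e1]
        rw [Finset.sum_coe_sort S
          (fun a => g a • ((-edge2 τ c) ^ (2 * a.1) *
            (1 + (-edge2 τ c) ^ 3 - (-edge2 τ c)) ^ a.2)),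
          hgP, Finsupp.sum, Polynomial.eval₂_finsetSum]
        symm
        rw [Finset.sum_subset hgS]
        · refine Finset.sum_congr rfl fun a _ => ?_
          rw [Polynomial.eval₂_mul, Polynomial.eval₂_mul, Polynomial.eval₂_C,
            PowerSeries.smul_eq_C_mul]
          simp only [Polynomial.eval₂_pow, Polynomial.eval₂_X, Polynomial.eval₂_add,
            Polynomial.eval₂_sub, Polynomial.eval₂_one]
        · intro a _ ha
          rw [Finsupp.notMem_support_iff.1 ha, Polynomial.C_0, zero_mul, Polynomial.eval₂_zero]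
      refine ⟨fun a => g a, fun n hn => ?_, fun n hn => ?_⟩
      · rw [key1]; exact hP3 n hn
      · rw [key2]; exact hP4 n hn)
  set κ' : ℕ × ℕ → HK F := fun a => if h : a ∈ S then κ ⟨a, h⟩ else 0 with hκ'
  refine ⟨Finsupp.onFinset S κ' (fun a ha => ?_), ?_, a, ?_⟩
  · by_contra h
    exact ha (dif_neg h)
  · intro a ha
    have h2 : a ∈ S := Finsupp.support_onFinset_subset ha
    rw [hS, Finset.mem_filter] at h2
    exact h2.2
  · rw [Finsupp.onFinset_sum _ (fun a => by rw [map_zero, zero_mul])]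
    have e1 : ∑ a ∈ S, incl (κ' a) * ((c ^ 2) ^ a.1 * (1 + b) ^ a.2) = ∑ e, incl (κ e) * G e := by
      rw [← Finset.sum_coe_sort S (fun a => incl (κ' a) * ((c ^ 2) ^ a.1 * (1 + b) ^ a.2))]
      refine Finset.sum_congr rfl fun a _ => ?_
      have : κ' a = κ a := by
        rw [hκ']
        simp only [a.2, dite_true]
      rw [this]
    rw [e1]
    exact ⟨ha1, ha2⟩

/-- realisation of a monomial near the nodal curve, real triangle -/
theorem pair_liftP {F : Type} [Field F] [CharZero F] {τ s : ℝ} (h0 : 0 < τ) (h1 : τ < 1)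
    {c b : HR F} (ht : IsTube τ s c b) {L R l r : ℝ} (hL : 0 ≤ L)
    (hs0 : 0 < s) {i : ℤ} (hs : |(i : ℝ)| < s) {a nA g nB : ℕ} (hg : a ≤ g)
    (hgn : g + nB ≤ a + nA) (hA : ∀ n ∈ Ico a (a + nA), L ≤ (n : ℝ) ∧ (n : ℝ) ≤ R)
    (hB : ∀ n ∈ Ico g (g + nB), L + l ≤ (n : ℝ) ∧ (n : ℝ) ≤ R - r)
    (hi1 : -((nA + nB : ℕ) * τ) < i) (hi2 : (i : ℝ) < (nA + nB : ℕ) * (1 - τ))
    (hQ : (nA + nB : ℕ) * τ ≤ nB + 1) :
    ∃ A B : Polynomial (HK F), (∀ n ∈ A.support, L ≤ n ∧ (n : ℝ) ≤ R) ∧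
      (∀ n ∈ B.support, L + l ≤ n ∧ (n : ℝ) ≤ R - r) ∧
      ∃ a : ℝ, Low (A.eval₂ incl (c ^ 2) + B.eval₂ incl (c ^ 2) * (1 + b)) a ∧
        (A.eval₂ incl (c ^ 2) + B.eval₂ incl (c ^ 2) * (1 + b)).coeff a =
          AddMonoidAlgebra.single (i, 0) (1 : F) := by
  classical
  have _ := hL
  set SA : Finset ℕ := Ico a (a + nA) with hSA
  set SB : Finset ℕ := Ico g (g + nB) with hSB
  have hc2 := cone_pow h0 h1 hs0 ht.cone 2
  have h1b : 1 + b ∈ Cone F τ s := cone_add cone_one (b_cone h0 h1 hs0 ht)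
  have hebb := eb h0 h1 hs0 ht
  have hc2e := e_pow h0 h1 hs0 ht.cone 2
  set G : ({n // n ∈ SA} ⊕ {n // n ∈ SB}) → HR F :=
    Sum.elim (fun n => (c ^ 2) ^ (n : ℕ)) (fun n => (c ^ 2) ^ (n : ℕ) * (1 + b)) with hG
  have hcone : ∀ e, G e ∈ Cone F τ s := by
    rintro (n | n)
    · exact cone_pow h0 h1 hs0 hc2 n
    · exact cone_mul h0 h1 hs0 (cone_pow h0 h1 hs0 hc2 n) h1b
  have hr := root1 h0 h1 hs0 ht
  have hcc := cc1 h0 h1 ht
  obtain ⟨κ, a, ha1, ha2⟩ := lift_genP h0 h1 ht hs0 G hcone hs (N := nA + nB) (Q := nB) hi1 hi2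
    hQ (by
      intro e1 e2 he hm u v huv
      obtain ⟨A, B, hAS, hBS, hP3, hP4⟩ := jets hr.1 hcc.1 hr.2 hcc.2 (e1 := e1) (e2 := e2)
        hg hgn he hm u v huv
      have key1 : ∑ e, (Sum.elim (fun n : {n // n ∈ SA} => A.coeff n)
          (fun n : {n // n ∈ SB} => B.coeff n)) e • edge1 τ (G e) =
          (PP A B).eval₂ PowerSeries.C (edge1 τ c) := by
        rw [Fintype.sum_sum_type]
        simp only [Sum.elim_inl, Sum.elim_inr, hG]
        have e1 : ∀ n : ℕ, edge1 τ ((c ^ 2) ^ n) = (edge1 τ c ^ 2) ^ n := fun n => by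
          rw [(e_pow h0 h1 hs0 hc2 n).1, hc2e.1]
        have e2 : ∀ n : ℕ, edge1 τ ((c ^ 2) ^ n * (1 + b)) =
            (edge1 τ c ^ 2) ^ n * (1 + edge1 τ c ^ 3 - edge1 τ c) := fun n => by
          rw [edge1_mul h0 h1 hs0 (cone_pow h0 h1 hs0 hc2 n) h1b, e1, hebb.1]
        simp only [e1, e2]
        rw [Finset.sum_coe_sort SA (fun n => A.coeff n • (edge1 τ c ^ 2) ^ n),
          Finset.sum_coe_sort SB
            (fun n => B.coeff n • ((edge1 τ c ^ 2) ^ n * (1 + edge1 τ c ^ 3 - edge1 τ c))),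
          ← eval_sum hAS, PP_eval₂, eval_sum hBS, Finset.sum_mul]
        congr 1
        refine Finset.sum_congr rfl fun n _ => ?_
        rw [smul_mul_assoc]
      have key2 : ∑ e, (Sum.elim (fun n : {n // n ∈ SA} => A.coeff n)
          (fun n : {n // n ∈ SB} => B.coeff n)) e • edge2 τ (G e) =
          (PP A B).eval₂ PowerSeries.C (-edge2 τ c) := by
        rw [Fintype.sum_sum_type]
        simp only [Sum.elim_inl, Sum.elim_inr, hG]
        have e1 : ∀ n : ℕ, edge2 τ ((c ^ 2) ^ n) = ((-edge2 τ c) ^ 2) ^ n := fun n => by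
          rw [(e_pow h0 h1 hs0 hc2 n).2, hc2e.2, neg_sq]
        have e2 : ∀ n : ℕ, edge2 τ ((c ^ 2) ^ n * (1 + b)) =
            ((-edge2 τ c) ^ 2) ^ n * (1 + (-edge2 τ c) ^ 3 - (-edge2 τ c)) := fun n => by
          rw [edge2_mul h0 h1 hs0 (cone_pow h0 h1 hs0 hc2 n) h1b, e1, hebb.2]
        simp only [e1, e2]
        rw [Finset.sum_coe_sort SA (fun n => A.coeff n • ((-edge2 τ c) ^ 2) ^ n),
          Finset.sum_coe_sort SB
            (fun n => B.coeff n • (((-edge2 τ c) ^ 2) ^ n * (1 + (-edge2 τ c) ^ 3 - (-edge2 τ c)))),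
          ← eval_sum hAS, PP_eval₂, eval_sum hBS, Finset.sum_mul]
        congr 1
        refine Finset.sum_congr rfl fun n _ => ?_
        rw [smul_mul_assoc]
      refine ⟨Sum.elim (fun n : {n // n ∈ SA} => A.coeff n)
          (fun n : {n // n ∈ SB} => B.coeff n), fun n hn => ?_, fun n hn => ?_⟩
      · rw [key1]; exact hP3 n hn
      · rw [key2]; exact hP4 n hn)
  refine ⟨∑ n : {n // n ∈ SA}, Polynomial.monomial (n : ℕ) (κ (Sum.inl n)),
    ∑ n : {n // n ∈ SB}, Polynomial.monomial (n : ℕ) (κ (Sum.inr n)), ?_, ?_, a, ?_⟩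
  · intro n hn
    rw [Polynomial.mem_support_iff, Polynomial.finsetSum_coeff] at hn
    obtain ⟨m, _, hm⟩ := Finset.exists_ne_zero_of_sum_ne_zero hn
    rw [Polynomial.coeff_monomial] at hm
    have hmn : (m : ℕ) = n := by
      by_contra h
      rw [if_neg h] at hm
      exact hm rfl
    rw [← hmn]
    exact hA m m.2
  · intro n hn
    rw [Polynomial.mem_support_iff, Polynomial.finsetSum_coeff] at hn
    obtain ⟨m, _, hm⟩ := Finset.exists_ne_zero_of_sum_ne_zero hn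
    rw [Polynomial.coeff_monomial] at hm
    have hmn : (m : ℕ) = n := by
      by_contra h
      rw [if_neg h] at hm
      exact hm rfl
    rw [← hmn]
    exact hB m m.2
  · have e1 : (∑ n : {n // n ∈ SA}, Polynomial.monomial (n : ℕ) (κ (Sum.inl n))).eval₂ incl (c ^ 2) +
        (∑ n : {n // n ∈ SB}, Polynomial.monomial (n : ℕ) (κ (Sum.inr n))).eval₂ incl (c ^ 2) *
          (1 + b) = ∑ e, incl (κ e) * G e := by
      rw [Fintype.sum_sum_type, Polynomial.eval₂_finsetSum, Polynomial.eval₂_finsetSum,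
        Finset.sum_mul]
      congr 1
      · refine Finset.sum_congr rfl fun n _ => ?_
        rw [Polynomial.eval₂_monomial]
        rfl
      · refine Finset.sum_congr rfl fun n _ => ?_
        rw [Polynomial.eval₂_monomial, mul_assoc]
        rfl
    rw [e1]
    exact ⟨ha1, ha2⟩

end Pool.Agent.H35.SQ
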