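import Mathlib
import Pool.Agent.H35.SQ.LiftP
import Pool.Graph.R_seed8.TH3.IR.SNodal

set_option autoImplicit false

/-! # The nodal step, exact version -/

namespace Pool.Agent.H35.SQ

open Finset MvPolynomial Pool.Agent.TH603.EL Pool.Agent.TH176.Nag Pool.Agent.TH3.IR
open Pool.Agent.TH3.IR.SN

/-- the fractional part is between `1/3` and `2/3` -/
def Mid (x : ℝ) : Prop := ∃ p : ℤ, (p : ℝ) + 1 / 3 ≤ x ∧ x ≤ p + 2 / 3

theorem Mid.add_int {x : ℝ} (h : Mid x) (p : ℤ) : Mid (x + p) := by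
  obtain ⟨q, h1, h2⟩ := h
  refine ⟨q + p, ?_, ?_⟩ <;> (push_cast; linarith)

theorem Mid.sub_int {x : ℝ} (h : Mid x) (p : ℤ) : Mid (x - p) := by
  obtain ⟨q, h1, h2⟩ := h
  refine ⟨q - p, ?_, ?_⟩ <;> (push_cast; linarith)

/-- two floors -/
theorem floor_two {x r : ℝ} (hr : Mid r) :
    2 * x - r - 5 / 3 < (⌊x⌋ : ℝ) + ⌊x - r⌋ ∧ (⌊x⌋ : ℝ) + ⌊x - r⌋ ≤ 2 * x - r - 1 / 3 := by
  obtain ⟨p, h1, h2⟩ := hr
  have a1 := Int.floor_le x
  have a2 := Int.lt_floor_add_one x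
  have b1 := Int.floor_le (x - r)
  have b2 := Int.lt_floor_add_one (x - r)
  have c1 : ⌊x⌋ - p - 1 ≤ ⌊x - r⌋ := by
    rw [Int.le_floor]
    push_cast
    linarith
  have c2 : ⌊x - r⌋ ≤ ⌊x⌋ - p := by
    have : ⌊x - r⌋ < ⌊x⌋ - p + 1 := by
      rw [Int.floor_lt]
      push_cast
      linarith
    omega
  rcases (by omega : ⌊x - r⌋ = ⌊x⌋ - p - 1 ∨ ⌊x - r⌋ = ⌊x⌋ - p) with h | h
  · have hr' : (⌊x - r⌋ : ℝ) = ⌊x⌋ - p - 1 := by rw [h]; push_cast; ring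
    rw [hr'] at b1 b2 ⊢
    constructor <;> linarith
  · have hr' : (⌊x - r⌋ : ℝ) = ⌊x⌋ - p := by rw [h]; push_cast; ring
    rw [hr'] at b1 b2 ⊢
    constructor <;> linarith

/-- two ceilings -/
theorem ceil_two {x l : ℝ} (hl : Mid l) :
    (⌈x⌉ : ℝ) + ⌈x + l⌉ < 2 * x + l + 5 / 3 ∧ 2 * x + l + 1 / 3 ≤ (⌈x⌉ : ℝ) + ⌈x + l⌉ := by
  have h := floor_two (x := -x) hl
  have e1 : (⌈x⌉ : ℝ) = -⌊-x⌋ := by
    rw [Int.floor_neg]
    push_cast
    ring
  have e2 : (⌈x + l⌉ : ℝ) = -⌊-x - l⌋ := by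
    have : -x - l = -(x + l) := by ring
    rw [this, Int.floor_neg]
    push_cast
    ring
  rw [e1, e2]
  constructor <;> linarith [h.1, h.2]

theorem exists_windows {L R l r : ℝ} (hL : 0 ≤ L) (hl : 0 ≤ l) (hr : 3 / 2 ≤ r)
    (hlr : l + r ≤ 7 / 2) (hfl : Mid l) (hfr : Mid r) :
    ∃ a nA g nB : ℕ, a ≤ g ∧ g + nB ≤ a + nA ∧
      (∀ n ∈ Ico a (a + nA), L ≤ (n : ℝ) ∧ (n : ℝ) ≤ R) ∧
      (∀ n ∈ Ico g (g + nB), L + l ≤ (n : ℝ) ∧ (n : ℝ) ≤ R - r) ∧
      2 * (R - L) - (l + r) - 4 / 3 < (nA : ℝ) + nB ∧ (nA : ℝ) ≤ nB + 5 := by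
  have hcL : 0 ≤ ⌈L⌉ := Int.ceil_nonneg hL
  have hcL2 : 0 ≤ ⌈L + l⌉ := Int.ceil_nonneg (by linarith)
  have hcc : ⌈L⌉ ≤ ⌈L + l⌉ := Int.ceil_le_ceil (by linarith)
  have hff : ⌊R - r⌋ ≤ ⌊R⌋ := Int.floor_le_floor (by linarith)
  obtain ⟨nA, hnA⟩ : ∃ nA : ℕ, nA = (⌊R⌋ + 1 - ⌈L⌉).toNat := ⟨_, rfl⟩
  obtain ⟨nB, hnB⟩ : ∃ nB : ℕ, nB = (⌊R - r⌋ + 1 - ⌈L + l⌉).toNat := ⟨_, rfl⟩
  obtain ⟨a, ha⟩ : ∃ a : ℕ, (a : ℤ) = ⌈L⌉ := ⟨⌈L⌉.toNat, Int.toNat_of_nonneg hcL⟩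
  obtain ⟨g0, hg0⟩ : ∃ g : ℕ, (g : ℤ) = ⌈L + l⌉ := ⟨⌈L + l⌉.toNat, Int.toNat_of_nonneg hcL2⟩
  have hA : ∀ n ∈ Ico a (a + nA), L ≤ (n : ℝ) ∧ (n : ℝ) ≤ R := by
    intro n hn
    rw [mem_Ico] at hn
    have h1 : ⌈L⌉ ≤ (n : ℤ) := by omega
    have h2 : (n : ℤ) ≤ ⌊R⌋ := by omega
    exact ⟨by simpa using Int.ceil_le.1 h1, by simpa using Int.le_floor.1 h2⟩
  have hB : ∀ n ∈ Ico g0 (g0 + nB), L + l ≤ (n : ℝ) ∧ (n : ℝ) ≤ R - r := by
    intro n hn
    rw [mem_Ico] at hn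
    have h1 : ⌈L + l⌉ ≤ (n : ℤ) := by omega
    have h2 : (n : ℤ) ≤ ⌊R - r⌋ := by omega
    exact ⟨by simpa using Int.ceil_le.1 h1, by simpa using Int.le_floor.1 h2⟩
  have hN : 2 * (R - L) - (l + r) - 4 / 3 < (nA : ℝ) + nB := by
    have h1 := (floor_two (x := R) hfr).1
    have h2 := (ceil_two (x := L) hfl).1
    have h3 : (⌊R⌋ + 1 - ⌈L⌉ : ℤ) ≤ (nA : ℤ) := by rw [hnA]; exact Int.self_le_toNat _
    have h4 : (⌊R - r⌋ + 1 - ⌈L + l⌉ : ℤ) ≤ (nB : ℤ) := by rw [hnB]; exact Int.self_le_toNat _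
    have h3' : ((⌊R⌋ : ℝ) + 1 - ⌈L⌉) ≤ nA := by exact_mod_cast h3
    have h4' : ((⌊R - r⌋ : ℝ) + 1 - ⌈L + l⌉) ≤ nB := by exact_mod_cast h4
    linarith
  have hD : nA ≤ nB + 5 := by
    have h1 := Int.floor_le R
    have h2 := Int.lt_floor_add_one (R - r)
    have h3 := Int.le_ceil L
    have h4 := Int.ceil_lt_add_one (L + l)
    have h5 : (⌊R⌋ - ⌊R - r⌋ + (⌈L + l⌉ - ⌈L⌉) : ℤ) < 6 := by
      have : ((⌊R⌋ : ℝ) - ⌊R - r⌋ + (⌈L + l⌉ - ⌈L⌉)) < 6 := by linarith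
      exact_mod_cast this
    omega
  have hD' : (nA : ℝ) ≤ nB + 5 := by exact_mod_cast hD
  rcases Nat.eq_zero_or_pos nB with h0 | h0
  · refine ⟨a, nA, a, 0, le_rfl, by omega, hA, ?_, ?_, ?_⟩
    · intro n hn
      rw [mem_Ico] at hn
      omega
    · rw [h0] at hN
      exact hN
    · rw [h0] at hD'
      exact hD'
  · refine ⟨a, nA, g0, nB, by omega, by omega, hA, hB, hN, hD'⟩

open SN in
/-- slices of the real triangle -/
theorem nodal_slice_liftP {F : Type} [Field F] [CharZero F] {τ : ℝ} (h0 : 0 < τ) (h1 : τ < 1)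
    (hτ : τ ≤ 1 / 5) {l r : ℝ} (hl : 0 ≤ l) (hr : 3 / 2 ≤ r) (hlr : l + r ≤ 7 / 2)
    (hfl : Mid l) (hfr : Mid r) (d : ℕ) :
    ∃ U : ZMod 3 → HR F,
      (∀ (x y : F) (hx : x ≠ 0) (hy : y ≠ 0) (l : ZMod 3), evp hx hy (U l) ≠ 0) ∧
      ∀ (L R : ℝ) (i k : ℤ), 0 ≤ L → R + R ≤ d → 0 ≤ k →
        -((2 * (R - L - 2 * (l + r) * k) - (l + r) - 4 / 3) * τ) ≤ i →
        (i : ℝ) ≤ (2 * (R - L - 2 * (l + r) * k) - (l + r) - 4 / 3) * (1 - τ) →
        ∃ f : (ℤ × ℤ) →₀ HK F, (∀ m ∈ f.support, 0 ≤ m.2 ∧ L + l * m.2 ≤ (m.1 : ℝ) ∧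
          (m.1 : ℝ) ≤ R - r * m.2) ∧ LeadMon U d i k f := by
  have hd0 : (0 : ℝ) ≤ d := Nat.cast_nonneg d
  set s : ℝ := 2 * d + 2 with hs
  have hs0 : 0 < s := by positivity
  have hmin : 0 < min τ (1 - τ) := lt_min h0 (by linarith)
  obtain ⟨c, hc, hc2, hc1⟩ := exists_c (F := F) h0 h1 hs0
  set b : HR F := incl (HahnSeries.C (2⁻¹ : F)) * (xi F τ + eta F τ s) with hb
  have h2 : (2 : F) ≠ 0 := two_ne_zero
  have hb2 : 2 * b = xi F τ + eta F τ s := by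
    have e1 : (2 : HR F) * incl (HahnSeries.C (2⁻¹ : F)) = 1 := by
      have e2 : (2 : HR F) = incl (HahnSeries.C (2 : F)) := by
        rw [map_ofNat, map_ofNat]
      rw [e2, ← map_mul, ← map_mul, mul_inv_cancel₀ h2, map_one, map_one]
    rw [hb, ← mul_assoc, e1, one_mul]
  have ht : IsTube τ s c b := ⟨hc, hc2, hc1, hb2⟩
  -- low coefficients
  have hxi : Low (xi F τ) (min τ (1 - τ)) := (low_tz τ 1 0).mono (min_le_left _ _)
  have heta : Low (eta F τ s) (min τ (1 - τ)) := by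
    have e1 : Low (1 + tz F s 0 1) 0 := low_one.add ((low_tz s 0 1).mono hs0.le)
    have e2 := (low_tz (F := F) (1 - τ) (-1) 0).mul e1
    exact e2.mono (by rw [add_zero]; exact min_le_right _ _)
  have hblow : Low b (min τ (1 - τ)) := by
    have e1 : Low (HahnSeries.C (2⁻¹ : F) : HK F) 0 := by
      intro a ha
      rw [HahnSeries.C_apply]
      exact HahnSeries.coeff_single_of_ne ha.ne
    have e2 := e1.incl.mul (hxi.add heta)
    exact e2.mono (by rw [zero_add])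
  have hone : ((1 : HR F)).coeff 0 = 1 := by rw [HahnSeries.coeff_one, if_pos rfl]
  have hc0 : c.coeff 0 = 1 := by
    have e1 : (c - 1).coeff 0 = 0 := hc1 0 hmin
    rw [HahnSeries.coeff_sub, hone, sub_eq_zero] at e1
    exact e1
  have hb0 : (1 + b).coeff 0 = 1 := by
    rw [HahnSeries.coeff_add, hone, hblow 0 hmin, add_zero]
  refine ⟨aff (c ^ 2) (1 + b), ?_, ?_⟩
  · intro x y hx hy k
    have hne : ∀ u : HR F, u.coeff 0 = 1 → evp hx hy u ≠ 0 := by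
      intro u hu h
      have e1 := evp_coeff hx hy u 0
      rw [h, hu, map_one, HahnSeries.coeff_zero] at e1
      exact zero_ne_one e1
    unfold aff
    split_ifs
    · exact hne 1 hone
    · rw [map_pow]
      exact pow_ne_zero 2 (hne c hc0)
    · exact hne (1 + b) hb0
  · intro L R i k hL hR hk hi1 hi2
    obtain ⟨n, rfl⟩ := Int.eq_ofNat_of_zero_le hk
    simp only [Int.cast_natCast] at hi1 hi2
    have hn0 : (0 : ℝ) ≤ n := Nat.cast_nonneg n
    have hln : 0 ≤ l * n := mul_nonneg hl hn0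
    have hrn : 0 ≤ r * n := mul_nonneg (by linarith) hn0
    have e0 : (R - 2 * r * n) - (L + 2 * l * n) = R - L - 2 * (l + r) * n := by ring
    set M : ℝ := 2 * (R - L - 2 * (l + r) * n) - (l + r) - 4 / 3 with hM
    have hMd : M ≤ d := by
      have : 0 ≤ (l + r) * n := by linarith
      rw [hM]; linarith
    have hM0 : 0 ≤ M := by nlinarith
    have his : |(i : ℝ)| < s := by
      rw [abs_lt]
      constructor
      · nlinarith
      · nlinarith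
    obtain ⟨a, nA, g, nB, hg, hgn, hwA, hwB, hN, hQ⟩ := exists_windows
      (L := L + 2 * l * n) (R := R - 2 * r * n) (by linarith) hl hr hlr hfl hfr
    rw [e0] at hN
    have hN' : M < ((nA + nB : ℕ) : ℝ) := by
      push_cast
      linarith
    obtain ⟨A, B, hA, hB, a, ha1, ha2⟩ := pair_liftP (L := L + 2 * l * n) (R := R - 2 * r * n)
      (l := l) (r := r) h0 h1 ht (by linarith) hs0 (i := i) his hg hgn hwA hwB
      (by nlinarith) (by nlinarith) (by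
        push_cast
        nlinarith)
    set P : Polynomial (Polynomial (HK F)) := Polynomial.C A + Polynomial.C B * Polynomial.X
      with hP
    have hT : Tri (L + 2 * l * n) (R - 2 * r * n) l r P := by
      intro β ν hne
      rw [hP, Polynomial.coeff_add, Polynomial.coeff_C_mul, Polynomial.coeff_C,
        Polynomial.coeff_X] at hne
      rcases β with _ | _ | β
      · have hne' : A.coeff ν ≠ 0 := by simpa using hne
        have := hA ν (Polynomial.mem_support_iff.2 hne')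
        simpa using this
      · have hne' : B.coeff ν ≠ 0 := by simpa using hne
        have := hB ν (Polynomial.mem_support_iff.2 hne')
        simpa using this
      · exfalso
        apply hne
        simp
    have hT2 := hT.nd_pow hl hr n
    refine ⟨toF (P * SN.nd F ^ n), toF_support hT2, ?_⟩
    have hval : ev (aff (c ^ 2) (1 + b)) (hom d (toF (P * SN.nd F ^ n))) =
        (A.eval₂ incl (c ^ 2) + B.eval₂ incl (c ^ 2) * (1 + b)) * tz F (n * (1 + s)) 0 n := by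
      rw [ev_hom, evA_toF, map_mul, map_pow, evt_nd hc2 hb2, tz_pow, hP, map_add, map_mul, evt_C,
        evt_C, evt_X]
    refine ⟨a + n * (1 + s), ?_, ?_⟩
    · rw [hval]
      exact ha1.mul (low_tz _ _ _)
    · rw [hval, ha1.coeff_mul (low_tz _ _ _), ha2, coeff_tz, AddMonoidAlgebra.single_mul_single,
        one_mul]
      simp

/-- the case in which the triangle is in the right position -/
lemma nodal_posP {ι σ : Type} [Fintype ι] [Fintype σ] [DecidableEq σ] {w : ι → ℕ} {L R : ℝ}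
    {μ ν : σ → ℝ}
    (hL : 0 ≤ L) (hμ : ∀ i, 0 ≤ μ i) (hν : ∀ i, 0 ≤ ν i) (j : σ)
    (hj : 3 / 2 ≤ ν j) (hlr : μ j + ν j ≤ 7 / 2) (hfl : Mid (μ j)) (hfr : Mid (ν j))
    {τ : ℝ} (h0 : 0 < τ) (h1 : τ < 1) (hτ : τ ≤ 1 / 5)
    (h : SurS w (RegS (-(2 * τ * (R - L)) + ((μ j + ν j) + 4 / 3) * τ)
      (2 * (1 - τ) * (R - L) - ((μ j + ν j) + 4 / 3) * (1 - τ))
      (Function.update (fun i => 2 * τ * (μ i + ν i)) j (4 * τ * (μ j + ν j)))
      (Function.update (fun i => 2 * (1 - τ) * (μ i + ν i)) j (4 * (1 - τ) * (μ j + ν j))))) :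
    SurS w (RegS L R μ ν) := by
  refine SurS_step j (d := ⌈2 * R⌉₊) ?_ ?_ h
  · rintro ⟨x, y⟩ ⟨hm0, hm1, hm2⟩
    simp only at hm0 hm1 hm2 ⊢
    have e1 : (0 : ℝ) ≤ ∑ i, μ i * (y i : ℝ) :=
      Finset.sum_nonneg fun i _ => mul_nonneg (hμ i) (by exact_mod_cast hm0 i)
    have e2 : (ν j) * (y j : ℝ) ≤ ∑ i, ν i * (y i : ℝ) :=
      Finset.single_le_sum (f := fun i => ν i * (y i : ℝ))
        (fun i _ => mul_nonneg (hν i) (by exact_mod_cast hm0 i)) (mem_univ j)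
    have e3 : (0 : ℝ) ≤ (y j : ℝ) := by exact_mod_cast hm0 j
    have e4 : (y j : ℝ) ≤ ν j * (y j : ℝ) := by nlinarith
    refine ⟨?_, hm0 j, ?_⟩
    · have : (0 : ℝ) ≤ (x : ℝ) := by linarith
      exact_mod_cast this
    · have e5 : 2 * R ≤ (⌈2 * R⌉₊ : ℝ) := Nat.le_ceil (2 * R)
      have : ((x + y j : ℤ) : ℝ) ≤ ((⌈2 * R⌉₊ : ℤ) : ℝ) := by
        push_cast
        linarith
      exact_mod_cast this
  · intro F _ _
    obtain ⟨U, hU1, hU2⟩ := nodal_slice_liftP (F := F) h0 h1 hτ (hμ j) hj hlr hfl hfr ⌈2 * R⌉₊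
    refine ⟨U, hU1, fun c i k hik => ?_⟩
    obtain ⟨g1, g2, g3⟩ := hik
    simp only at g1 g2 g3
    have hc : ∀ i ≠ j, 0 ≤ c i := by
      intro i hi
      have := g1 i
      simpa [Function.update_of_ne hi] using this
    have hk : 0 ≤ k := by
      have := g1 j
      rwa [Function.update_self] at this
    have hμs : 0 ≤ ∑ i ∈ univ.erase j, μ i * (c i : ℝ) :=
      Finset.sum_nonneg fun i hi => mul_nonneg (hμ i)
        (by exact_mod_cast hc i (Finset.ne_of_mem_erase hi))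
    have hνs : 0 ≤ ∑ i ∈ univ.erase j, ν i * (c i : ℝ) :=
      Finset.sum_nonneg fun i hi => mul_nonneg (hν i)
        (by exact_mod_cast hc i (Finset.ne_of_mem_erase hi))
    have esum : ∀ a : ℝ, ∑ i ∈ univ.erase j, a * (μ i + ν i) * (c i : ℝ) =
        a * (∑ i ∈ univ.erase j, μ i * (c i : ℝ) + ∑ i ∈ univ.erase j, ν i * (c i : ℝ)) := by
      intro a
      rw [← Finset.sum_add_distrib, Finset.mul_sum]
      exact Finset.sum_congr rfl fun i _ => by ring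
    rw [sum_upd, esum] at g2 g3
    obtain ⟨f, hf1, hf2⟩ := hU2 (L + ∑ i ∈ univ.erase j, μ i * (c i : ℝ))
      (R - ∑ i ∈ univ.erase j, ν i * (c i : ℝ)) i k (by linarith)
      (by
        have e5 : 2 * R ≤ (⌈2 * R⌉₊ : ℝ) := Nat.le_ceil (2 * R)
        linarith) hk
      (by refine le_trans (le_of_eq ?_) g2; ring)
      (by refine le_trans g3 (le_of_eq ?_); ring)
    refine ⟨f, fun m hm => ?_, hf2⟩
    obtain ⟨k1, k2, k3⟩ := hf1 m hm
    refine ⟨fun i => ?_, ?_, ?_⟩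
    · change 0 ≤ Function.update c j m.2 i
      by_cases hi : i = j
      · rw [hi, Function.update_self]; exact k1
      · rw [Function.update_of_ne hi]; exact hc i hi
    · change L + ∑ i, μ i * ((Function.update c j m.2 i : ℤ) : ℝ) ≤ (m.1 : ℝ)
      rw [sum_upd']
      linarith
    · change (m.1 : ℝ) ≤ R - ∑ i, ν i * ((Function.update c j m.2 i : ℤ) : ℝ)
      rw [sum_upd']
      linarith

theorem SurS_nodalP {ι σ : Type} [Fintype ι] [Fintype σ] [DecidableEq σ] {w : ι → ℕ} {L R : ℝ}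
    {μ ν : σ → ℝ} (hμ : ∀ i, 0 ≤ μ i) (hν : ∀ i, 0 ≤ ν i) (hpos : ∀ i, 0 < μ i + ν i) (j : σ)
    (hj : 5 / 2 ≤ μ j + ν j) (hlr : μ j + ν j ≤ 7 / 2) (hfl : Mid (μ j)) (hfr : Mid (ν j))
    {τ : ℝ} (h0 : 0 < τ) (h1 : τ < 1) (hτ : τ ≤ 1 / 5)
    (h : SurS w (RegS (-(2 * τ * (R - L)) + ((μ j + ν j) + 4 / 3) * τ)
      (2 * (1 - τ) * (R - L) - ((μ j + ν j) + 4 / 3) * (1 - τ))
      (Function.update (fun i => 2 * τ * (μ i + ν i)) j (4 * τ * (μ j + ν j)))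
      (Function.update (fun i => 2 * (1 - τ) * (μ i + ν i)) j (4 * (1 - τ) * (μ j + ν j))))) :
    SurS w (RegS L R μ ν) := by
  have _ := hpos
  obtain ⟨p, hp1, hp2⟩ : ∃ p : ℤ, 0 ≤ μ j + p ∧ 3 / 2 ≤ ν j - p := by
    refine ⟨⌈-μ j⌉, ?_, ?_⟩
    · have := Int.le_ceil (-μ j)
      linarith
    · have := Int.ceil_lt_add_one (-μ j)
      linarith
  set u : ℤ := ⌈-L⌉ with hu
  have hu1 : 0 ≤ L + u := by
    have := Int.le_ceil (-L)
    rw [← hu] at this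
    linarith
  have h' : SurS w (RegS (L + u) (R + u) (Function.update μ j (μ j + p))
      (Function.update ν j (ν j - p))) := by
    refine nodal_posP hu1 (fun i => ?_) (fun i => ?_) j ?_ ?_ ?_ ?_ h0 h1 hτ ?_
    · by_cases hi : i = j
      · rw [hi, Function.update_self]; exact hp1
      · rw [Function.update_of_ne hi]; exact hμ i
    · by_cases hi : i = j
      · rw [hi, Function.update_self]; linarith
      · rw [Function.update_of_ne hi]; exact hν i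
    · rw [Function.update_self]; exact hp2
    · rw [Function.update_self, Function.update_self]; linarith
    · rw [Function.update_self]; exact hfl.add_int p
    · rw [Function.update_self]; exact hfr.sub_int p
    · have e1 : ∀ i, Function.update μ j (μ j + p) i + Function.update ν j (ν j - p) i =
          μ i + ν i := by
        intro i
        by_cases hi : i = j
        · rw [hi, Function.update_self, Function.update_self]; ring
        · rw [Function.update_of_ne hi, Function.update_of_ne hi]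
      have e2 : R + (u : ℝ) - (L + u) = R - L := by ring
      simp only [e1, e2]
      exact h
  have e3 : ∀ y : σ → ℤ, ∑ i, (Pi.single j p : σ → ℤ) i * y i = p * y j := by
    intro y
    rw [Finset.sum_eq_single j]
    · rw [Pi.single_eq_same]
    · intro i _ hi
      rw [Pi.single_eq_of_ne hi, zero_mul]
    · intro hj'
      exact absurd (mem_univ j) hj'
  refine h'.comap 1 (Or.inl rfl) (Pi.single j p) u ?_
  rintro ⟨x, y⟩ ⟨k1, k2, k3⟩
  simp only at k1 k2 k3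
  have e4 : ∀ (ρ : σ → ℝ) (a : ℝ), ∑ i, Function.update ρ j a i * (y i : ℝ) =
      ∑ i, ρ i * (y i : ℝ) + (a - ρ j) * (y j : ℝ) := by
    intro ρ a
    have e5 := sum_upd j ρ a y (y j)
    have e6 := sum_upd' j ρ y (y j)
    rw [Function.update_eq_self] at e5 e6
    rw [e5, e6]
    ring
  rw [e4] at k2 k3
  refine ⟨k1, ?_, ?_⟩
  · change L + ∑ i, μ i * (y i : ℝ) ≤
      ((1 * (x - ∑ i, (Pi.single j p : σ → ℤ) i * y i - u) : ℤ) : ℝ)
    rw [e3]
    push_cast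
    linarith
  · change ((1 * (x - ∑ i, (Pi.single j p : σ → ℤ) i * y i - u) : ℤ) : ℝ) ≤
      R - ∑ i, ν i * (y i : ℝ)
    rw [e3]
    push_cast
    linarith

end Pool.Agent.H35.SQ
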