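import Mathlib
import Pool.Agent.H35.SQ.NodalP
import Pool.Graph.R_seed8.TH3.IR.Pair

set_option autoImplicit false

/-! # The leading coefficient of `A(x) + B(x) y` in the tube, exact windows -/

namespace Pool.Agent.H35.SQ

open Finset MvPolynomial Pool.Agent.TH603.EL Pool.Agent.TH176.Nag Pool.Agent.TH3.IR
open Pool.Agent.TH3.IR.Pair

/-- the window of a row, and two exceptional exponents for very short rows -/
def Wm (τ M : ℝ) (i : ℤ) : Prop :=
  (-(M * τ) ≤ i ∧ (i : ℝ) ≤ M * (1 - τ)) ∨ (0 ≤ i ∧ i ≤ 1 ∧ -3 ≤ M ∧ M ≤ 3)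

theorem orders_window {F : Type} [Field F] [CharZero F] {τ L R l r : ℝ} {A B : Polynomial F}
    {i : ℤ} (hL : 0 ≤ L) (hl : 0 ≤ l) (hr : 3 / 2 ≤ r)
    (hlr : l + r ≤ 63 / 20) (hfl : Mid l) (hfr : Mid r) (h0 : 0 < τ) (hτ : τ ≤ 1 / 12)
    (hne : A ≠ 0 ∨ B ≠ 0)
    (hA : ∀ n ∈ A.support, L ≤ n ∧ (n : ℝ) ≤ R)
    (hB : ∀ n ∈ B.support, L + l ≤ n ∧ (n : ℝ) ≤ R - r) {e1 e2 : ℕ} {Q1 Q2 : Polynomial F}
    (hP1 : PP A B = (Polynomial.X - 1) ^ e1 * Q1)
    (hP2 : PP A B = (Polynomial.X + 1) ^ e2 * Q2)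
    (k1 : -(i : ℝ) ≤ e2) (k2 : -(i : ℝ) * (1 - τ) ≤ e1 * τ) (k3 : (i : ℝ) ≤ e1)
    (k4 : (i : ℝ) * τ ≤ e2 * (1 - τ)) : Wm τ (2 * (R - L) - (l + r) + 4 / 3) i := by
  have hcL : 0 ≤ ⌈L⌉ := Int.ceil_nonneg hL
  have hcL2 : 0 ≤ ⌈L + l⌉ := Int.ceil_nonneg (by linarith)
  have hcc : ⌈L⌉ ≤ ⌈L + l⌉ := Int.ceil_le_ceil (by linarith)
  have hff : ⌊R - r⌋ ≤ ⌊R⌋ := Int.floor_le_floor (by linarith)
  obtain ⟨nA, hnA⟩ : ∃ nA : ℕ, nA = (⌊R⌋ + 1 - ⌈L⌉).toNat := ⟨_, rfl⟩
  obtain ⟨nB, hnB⟩ : ∃ nB : ℕ, nB = (⌊R - r⌋ + 1 - ⌈L + l⌉).toNat := ⟨_, rfl⟩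
  obtain ⟨a, ha⟩ : ∃ a : ℕ, (a : ℤ) = ⌈L⌉ := ⟨⌈L⌉.toNat, Int.toNat_of_nonneg hcL⟩
  obtain ⟨g, hg⟩ : ∃ g : ℕ, (g : ℤ) = ⌈L + l⌉ := ⟨⌈L + l⌉.toNat, Int.toNat_of_nonneg hcL2⟩
  have hA1 : ∀ n ∈ A.support, ⌈L⌉ ≤ (n : ℤ) ∧ (n : ℤ) ≤ ⌊R⌋ := by
    intro n hn
    obtain ⟨h1, h2⟩ := hA n hn
    exact ⟨Int.ceil_le.2 (by simpa using h1), Int.le_floor.2 (by simpa using h2)⟩
  have hB1 : ∀ n ∈ B.support, ⌈L + l⌉ ≤ (n : ℤ) ∧ (n : ℤ) ≤ ⌊R - r⌋ := by
    intro n hn
    obtain ⟨h1, h2⟩ := hB n hn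
    exact ⟨Int.ceil_le.2 (by simpa using h1), Int.le_floor.2 (by simpa using h2)⟩
  have sA : A.support ⊆ Ico a (a + nA) := by
    intro n hn
    obtain ⟨h1, h2⟩ := hA1 n hn
    rw [mem_Ico]
    omega
  have hdvd1 : (Polynomial.X - 1) ^ e1 ∣ eo (A + B) ((Polynomial.X - 1) * B) := by
    rw [← eo_eq]
    unfold PP at hP1
    exact ⟨Q1, hP1⟩
  have hdvd2 : (Polynomial.X + 1) ^ e2 ∣ eo (A + B) ((Polynomial.X - 1) * B) := by
    rw [← eo_eq]
    unfold PP at hP2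
    exact ⟨Q2, hP2⟩
  obtain ⟨g', nB', hnB', hg', hgn', sB⟩ : ∃ g' nB' : ℕ, nB' = nB ∧ a ≤ g' ∧ g' + nB' ≤ a + nA ∧
      B.support ⊆ Ico g' (g' + nB') := by
    rcases Nat.eq_zero_or_pos nB with h0 | h0
    · refine ⟨a, 0, h0.symm, le_rfl, by omega, ?_⟩
      intro n hn
      obtain ⟨h1, h2⟩ := hB1 n hn
      omega
    · refine ⟨g, nB, rfl, by omega, by omega, ?_⟩
      intro n hn
      obtain ⟨h1, h2⟩ := hB1 n hn
      rw [mem_Ico]
      omega
  have h1' : 0 < 1 - τ := by linarith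
  rcases orders hne hg' hgn' sA sB hdvd1 hdvd2 with ⟨hB0, hord⟩ | ⟨hord1, hord2⟩
  · left
    rw [hnB'] at hord
    obtain ⟨n, hn⟩ := Polynomial.support_nonempty.2 hB0
    obtain ⟨h1, h2⟩ := hB1 n hn
    have h3 : (nB : ℤ) = ⌊R - r⌋ + 1 - ⌈L + l⌉ := by
      rw [hnB]
      exact Int.toNat_of_nonneg (by omega)
    have h4 : (nA : ℤ) = ⌊R⌋ + 1 - ⌈L⌉ := by
      rw [hnA]
      exact Int.toNat_of_nonneg (by omega)
    have h3' : (nB : ℝ) = ⌊R - r⌋ + 1 - ⌈L + l⌉ := by exact_mod_cast h3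
    have h4' : (nA : ℝ) = ⌊R⌋ + 1 - ⌈L⌉ := by exact_mod_cast h4
    have h5 := (floor_two (x := R) hfr).2
    have h6 := (ceil_two (x := L) hfl).2
    have h7 : ((e1 : ℝ) + e2) ≤ nA + nB := by exact_mod_cast hord
    obtain ⟨M, hM⟩ : ∃ M, M = 2 * (R - L) - (l + r) + 4 / 3 := ⟨_, rfl⟩
    have h8 : ((e1 : ℝ) + e2) ≤ M := by linarith
    rw [← hM]
    constructor
    · have h9 : ((e1 : ℝ) + e2) * τ ≤ M * τ := mul_le_mul_of_nonneg_right h8 h0.le
      have h10 : -(i : ℝ) * τ ≤ e2 * τ := mul_le_mul_of_nonneg_right k1 h0.le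
      linarith
    · have h9 : ((e1 : ℝ) + e2) * (1 - τ) ≤ M * (1 - τ) := mul_le_mul_of_nonneg_right h8 h1'.le
      have h10 : (i : ℝ) * (1 - τ) ≤ e1 * (1 - τ) := mul_le_mul_of_nonneg_right k3 h1'.le
      linarith
  · have h4 : (nA : ℤ) = ⌊R⌋ + 1 - ⌈L⌉ := by
      rw [hnA]
      exact Int.toNat_of_nonneg (by omega)
    have h4' : (nA : ℝ) = ⌊R⌋ + 1 - ⌈L⌉ := by exact_mod_cast h4
    have h5 := Int.floor_le R
    have h6 := Int.le_ceil L
    have h7 : (e1 : ℝ) + 1 ≤ nA := by exact_mod_cast hord1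
    have hW : (e1 : ℝ) ≤ R - L := by linarith
    have he0 : (0 : ℝ) ≤ e1 := Nat.cast_nonneg _
    have hW0 : 0 ≤ R - L := he0.trans hW
    have h5' : (e1 : ℝ) * τ ≤ (R - L) * τ := mul_le_mul_of_nonneg_right hW h0.le
    obtain ⟨M, hM⟩ : ∃ M, M = 2 * (R - L) - (l + r) + 4 / 3 := ⟨_, rfl⟩
    rw [← hM]
    have hkey : 2 ≤ R - L → R - L ≤ M * (1 - τ) := by
      intro hW2
      have h8 : 0 ≤ M := by rw [hM]; linarith
      have h9 : M * (11 / 12) ≤ M * (1 - τ) := mul_le_mul_of_nonneg_left (by linarith) h8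
      rw [hM] at h9
      rw [hM]
      linarith
    rcases lt_or_ge i 0 with hi | hi
    · have hir : (1 : ℝ) ≤ -i := by exact_mod_cast (by omega : 1 ≤ -i)
      have h10 : -(i : ℝ) * (1 - τ) ≤ (R - L) * τ := k2.trans h5'
      have hW2 : 2 ≤ R - L := by
        by_contra hcon
        push Not at hcon
        have h11 : (R - L) * τ ≤ 2 * (1 / 12) := mul_le_mul hcon.le hτ h0.le (by norm_num)
        have h12 : 1 * (11 / 12) ≤ -(i : ℝ) * (1 - τ) :=
          mul_le_mul hir (by linarith) (by norm_num) (by linarith)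
        linarith
      left
      have h11 : (R - L) * τ ≤ M * (1 - τ) * τ := mul_le_mul_of_nonneg_right (hkey hW2) h0.le
      have h12 : -(i : ℝ) * (1 - τ) ≤ (M * τ) * (1 - τ) := by
        refine (h10.trans h11).trans (le_of_eq ?_)
        ring
      have h13 := le_of_mul_le_mul_right h12 h1'
      have h14 : 0 ≤ M * (1 - τ) := by linarith [hkey hW2]
      constructor
      · linarith
      · linarith
    · have hir : (0 : ℝ) ≤ i := by exact_mod_cast hi
      rcases le_or_gt i 1 with hi1 | hi1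
      · rcases le_or_gt M 3 with hM3 | hM3
        · right
          exact ⟨hi, hi1, by linarith, hM3⟩
        · left
          have hi1r : (i : ℝ) ≤ 1 := by exact_mod_cast hi1
          have h9 : 3 * (11 / 12) ≤ M * (1 - τ) :=
            mul_le_mul hM3.le (by linarith) (by norm_num) (by linarith)
          have h10 : 0 ≤ M * τ := mul_nonneg (by linarith) h0.le
          constructor
          · linarith
          · linarith
      · left
        have hi2 : (2 : ℝ) ≤ i := by exact_mod_cast (by omega : 2 ≤ i)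
        have hW2 : 2 ≤ R - L := by linarith
        have h8 : 0 ≤ M := by rw [hM]; linarith
        have h10 : 0 ≤ M * τ := mul_nonneg h8 h0.le
        have h11 := hkey hW2
        constructor
        · linarith
        · linarith

/-- the main case: all coefficients of order at least zero and not all residues zero -/
theorem mainP {F : Type} [Field F] {τ s : ℝ} [CharZero F] (h0 : 0 < τ) (h1 : τ < 1)
    {c b : HR F} (hc : c ∈ Cone F τ s) (hc2 : 2 * (c ^ 3 - c) = xi F τ - eta F τ s)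
    (hc1 : Low (c - 1) (min τ (1 - τ))) (hb : 2 * b = xi F τ + eta F τ s)
    {A B : Polynomial (HK F)}
    (hA0 : ∀ n, Low (A.coeff n) 0) (hB0 : ∀ n, Low (B.coeff n) 0)
    {e1 e2 : ℕ} {Q1 Q2 : Polynomial F} (hQ1 : Q1.eval 1 ≠ 0) (hQ2 : Q2.eval (-1) ≠ 0)
    (hP1 : PP (res A) (res B) = (Polynomial.X - 1) ^ e1 * Q1)
    (hP2 : PP (res A) (res B) = (Polynomial.X + 1) ^ e2 * Q2)
    (he : ((e1 + e2 : ℕ) : ℝ) < s) (hs0 : 0 < s) :
    ∃ a : ℝ, Low (A.eval₂ incl (c ^ 2) + B.eval₂ incl (c ^ 2) * (1 + b)) a ∧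
      (A.eval₂ incl (c ^ 2) + B.eval₂ incl (c ^ 2) * (1 + b)).coeff a ≠ 0 ∧
      ∀ i j : ℤ, cf (A.eval₂ incl (c ^ 2) + B.eval₂ incl (c ^ 2) * (1 + b)) a i j ≠ 0 →
        j = 0 ∧ -(i : ℝ) ≤ e2 ∧ -(i : ℝ) * (1 - τ) ≤ e1 * τ ∧ (i : ℝ) ≤ e1 ∧
          (i : ℝ) * τ ≤ e2 * (1 - τ) := by
  unfold PP at hP1 hP2
  set G : HR F := A.eval₂ incl (c ^ 2) + B.eval₂ incl (c ^ 2) * (1 + b) with hG
  -- `b` is in the cone
  have h2 : (2 : F) ≠ 0 := two_ne_zero
  have hi2 : incl (HahnSeries.C (2⁻¹ : F)) * (2 : HR F) = 1 := by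
    have : (2 : HR F) = incl (HahnSeries.C (2 : F)) := by
      rw [map_ofNat, map_ofNat]
    rw [this, ← map_mul, ← map_mul, inv_mul_cancel₀ h2, map_one, map_one]
  have hbe : b = incl (HahnSeries.C (2⁻¹ : F)) * (xi F τ + eta F τ s) := by
    rw [← hb, ← mul_assoc, hi2, one_mul]
  have hlc : ∀ x : F, Low (HahnSeries.C x : HK F) 0 := fun x => low_single 0 x
  have hcc : ∀ x : F, (HahnSeries.C x : HK F).coeff 0 = x := fun x => by simp
  have cxi : xi F τ ∈ Cone F τ s := cone_xi h0 h1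
  have ceta : eta F τ s ∈ Cone F τ s := cone_eta h0 h1 hs0
  have cb : b ∈ Cone F τ s := by
    rw [hbe]
    exact cone_mul h0 h1 hs0 (cone_incl (hlc _)) (cone_add cxi ceta)
  have exi := edge_xi (F := F) h0 h1
  have eeta := edge_eta (F := F) (s := s) h0 h1 hs0
  have eb1 : edge1 τ b = PowerSeries.C (2⁻¹ : F) * PowerSeries.X := by
    rw [hbe, edge1_mul h0 h1 hs0 (cone_incl (hlc _)) (cone_add cxi ceta), (edge_add _ _).1,
      exi.1, eeta.1, add_zero, (edge_incl h0 h1 _).1, hcc]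
  have eb2 : edge2 τ b = PowerSeries.C (2⁻¹ : F) * PowerSeries.X := by
    rw [hbe, edge2_mul h0 h1 hs0 (cone_incl (hlc _)) (cone_add cxi ceta), (edge_add _ _).2,
      exi.2, eeta.2, zero_add, (edge_incl h0 h1 _).2, hcc]
  -- the edges of `c`
  have e2' : edge1 τ (2 : HR F) = 2 ∧ edge2 τ (2 : HR F) = 2 := by
    have h := edge_incl h0 h1 (HahnSeries.C (2 : F))
    rw [hcc] at h
    simp only [map_ofNat] at h
    exact h
  have c2' : (2 : HR F) ∈ Cone F τ s := by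
    have h := cone_incl (τ := τ) (s := s) (hlc (2 : F))
    rwa [map_ofNat, map_ofNat] at h
  have eneg : ∀ x : HR F, edge1 τ (-x) = -edge1 τ x ∧ edge2 τ (-x) = -edge2 τ x := by
    intro x
    have h := edge_add (τ := τ) x (-x)
    rw [add_neg_cancel, edge_zero.1, edge_zero.2] at h
    exact ⟨by rw [eq_neg_iff_add_eq_zero, add_comm]; exact h.1.symm,
      by rw [eq_neg_iff_add_eq_zero, add_comm]; exact h.2.symm⟩
  have esub : ∀ x y : HR F, edge1 τ (x - y) = edge1 τ x - edge1 τ y ∧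
      edge2 τ (x - y) = edge2 τ x - edge2 τ y := by
    intro x y
    rw [sub_eq_add_neg, (edge_add _ _).1, (edge_add _ _).2, (eneg y).1, (eneg y).2]
    exact ⟨by ring, by ring⟩
  have csub : ∀ {x y : HR F}, x ∈ Cone F τ s → y ∈ Cone F τ s → x - y ∈ Cone F τ s := by
    intro x y hx hy
    rw [sub_eq_add_neg]
    exact cone_add hx (cone_neg hy)
  obtain ⟨cc3, e13, e23⟩ := edge_pow h0 h1 hs0 hc 3
  have hγ1 : 2 * (edge1 τ c ^ 3 - edge1 τ c) = PowerSeries.C (1 : F) * PowerSeries.X := by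
    have h := congrArg (edge1 τ) hc2
    rw [edge1_mul h0 h1 hs0 c2' (csub cc3 hc), e2'.1, (esub _ _).1, (esub _ _).1, e13, exi.1,
      eeta.1, sub_zero] at h
    rw [h, map_one, one_mul]
  have hγ2 : 2 * (edge2 τ c ^ 3 - edge2 τ c) = PowerSeries.C (-1 : F) * PowerSeries.X := by
    have h := congrArg (edge2 τ) hc2
    rw [edge2_mul h0 h1 hs0 c2' (csub cc3 hc), e2'.2, (esub _ _).2, (esub _ _).2, e23, exi.2,
      eeta.2, zero_sub] at h
    rw [h, map_neg, map_one, neg_mul, one_mul]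
  have hcf : cf c 0 0 0 = 1 := by
    have h3 : (c - 1).coeff 0 = 0 := hc1 0 (lt_min h0 (by linarith))
    rw [HahnSeries.coeff_sub, sub_eq_zero] at h3
    unfold cf
    rw [h3, HahnSeries.coeff_one, if_pos rfl, AddMonoidAlgebra.one_def]
    exact Finsupp.single_eq_same
  have hc01 : PowerSeries.constantCoeff (edge1 τ c) = 1 := by
    rw [← PowerSeries.coeff_zero_eq_constantCoeff_apply]
    unfold edge1
    rw [PowerSeries.coeff_mk]
    simpa using hcf
  have hc02 : PowerSeries.constantCoeff (edge2 τ c) = 1 := by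
    rw [← PowerSeries.coeff_zero_eq_constantCoeff_apply]
    unfold edge2
    rw [PowerSeries.coeff_mk]
    simpa using hcf
  obtain ⟨δ1, hδ1, hδ1'⟩ := ps_root one_ne_zero hc01 hγ1
  obtain ⟨δ2, hδ2, hδ2'⟩ := ps_root (neg_ne_zero.mpr one_ne_zero) hc02 hγ2
  -- the edges of `G`
  obtain ⟨cc2, e12, e22⟩ := edge_pow h0 h1 hs0 hc 2
  obtain ⟨cA, eA1, eA2⟩ := edge_eval h0 h1 hs0 cc2 hA0
  obtain ⟨cB, eB1, eB2⟩ := edge_eval h0 h1 hs0 cc2 hB0
  have c1b : 1 + b ∈ Cone F τ s := cone_add cone_one cb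
  have e1' : edge1 τ (1 : HR F) = 1 ∧ edge2 τ (1 : HR F) = 1 := by
    obtain ⟨_, h3, h4⟩ := edge_pow h0 h1 hs0 hc 0
    rw [pow_zero, pow_zero] at h3 h4
    exact ⟨h3, h4⟩
  have cG : G ∈ Cone F τ s := cone_add cA (cone_mul h0 h1 hs0 cB c1b)
  have hev : ∀ (y : PowerSeries F), (res A).eval₂ PowerSeries.C (y ^ 2) +
      (res B).eval₂ PowerSeries.C (y ^ 2) * (1 + y ^ 3 - y) =
      ((res A).comp (Polynomial.X ^ 2) + (res B).comp (Polynomial.X ^ 2) *
        (1 + Polynomial.X ^ 3 - Polynomial.X)).eval₂ PowerSeries.C y := by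
    intro y
    rw [Polynomial.eval₂_add, Polynomial.eval₂_mul, Polynomial.eval₂_comp, Polynomial.eval₂_comp,
      Polynomial.eval₂_pow, Polynomial.eval₂_X, Polynomial.eval₂_sub, Polynomial.eval₂_add,
      Polynomial.eval₂_one, Polynomial.eval₂_pow, Polynomial.eval₂_X]
  have hx1 : PowerSeries.C (2⁻¹ : F) * PowerSeries.X = edge1 τ c ^ 3 - edge1 τ c := by
    rw [map_one, one_mul] at hγ1
    rw [← hγ1, ← mul_assoc]
    have : PowerSeries.C (2⁻¹ : F) * 2 = 1 := by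
      have h3 : (2 : PowerSeries F) = PowerSeries.C (2 : F) := by rw [map_ofNat]
      rw [h3, ← map_mul, inv_mul_cancel₀ h2, map_one]
    rw [this, one_mul]
  have hx2 : PowerSeries.C (2⁻¹ : F) * PowerSeries.X = -(edge2 τ c ^ 3 - edge2 τ c) := by
    have h4 : (PowerSeries.X : PowerSeries F) = -(2 * (edge2 τ c ^ 3 - edge2 τ c)) := by
      rw [hγ2, map_neg, map_one]
      ring
    have : PowerSeries.C (2⁻¹ : F) * 2 = 1 := by
      have h3 : (2 : PowerSeries F) = PowerSeries.C (2 : F) := by rw [map_ofNat]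
      rw [h3, ← map_mul, inv_mul_cancel₀ h2, map_one]
    rw [h4, mul_neg, ← mul_assoc, this, one_mul]
  have eG1 : edge1 τ G = (edge1 τ c - PowerSeries.C (1 : F)) ^ e1 *
      Q1.eval₂ PowerSeries.C (edge1 τ c) := by
    rw [hG, (edge_add _ _).1, edge1_mul h0 h1 hs0 cB c1b, (edge_add _ _).1, eA1, eB1, e12, e1'.1,
      eb1, hx1]
    have h3 := hev (edge1 τ c)
    rw [hP1, Polynomial.eval₂_mul, Polynomial.eval₂_pow, Polynomial.eval₂_sub, Polynomial.eval₂_X,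
      Polynomial.eval₂_one] at h3
    rw [map_one, ← h3]
    ring
  have eG2 : edge2 τ G = (-edge2 τ c - PowerSeries.C (-1 : F)) ^ e2 *
      Q2.eval₂ PowerSeries.C (-edge2 τ c) := by
    rw [hG, (edge_add _ _).2, edge2_mul h0 h1 hs0 cB c1b, (edge_add _ _).2, eA2, eB2, e22, e1'.2,
      eb2, hx2]
    have h3 := hev (-edge2 τ c)
    rw [hP2, Polynomial.eval₂_mul, Polynomial.eval₂_pow, Polynomial.eval₂_add, Polynomial.eval₂_X,
      Polynomial.eval₂_one] at h3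
    rw [map_neg, map_one, sub_neg_eq_add, ← h3, neg_sq]
    ring
  have k1 : PowerSeries.coeff e1 (edge1 τ G) ≠ 0 := by
    refine ps_coeff (δ := δ1) ?_ hδ1' hQ1 eG1
    rw [map_one, hδ1]
  have k2 : PowerSeries.coeff e2 (edge2 τ G) ≠ 0 := by
    refine ps_coeff (δ := -δ2) ?_ ?_ hQ2 eG2
    · rw [map_neg, map_one, mul_neg, ← hδ2]
      ring
    · rw [map_neg]
      exact neg_ne_zero.mpr hδ2'
  unfold edge1 at k1
  unfold edge2 at k2
  rw [PowerSeries.coeff_mk] at k1 k2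
  have hcoe : ∀ (a : ℝ) (i j : ℤ), cf G a i j ≠ 0 → G.coeff a ≠ 0 := by
    intro a i j h h'
    apply h
    unfold cf
    rw [h']
    rfl
  have g1 := hcoe _ _ _ k1
  have g2 := hcoe _ _ _ k2
  have hG0 : G ≠ 0 := by
    intro h
    apply g1
    rw [h]
    rfl
  have o1 : G.order ≤ e1 * τ := HahnSeries.order_le_of_coeff_ne_zero g1
  have o2 : G.order ≤ e2 * (1 - τ) := HahnSeries.order_le_of_coeff_ne_zero g2
  refine ⟨G.order, fun x hx => HahnSeries.coeff_eq_zero_of_lt_order hx, ?_, ?_⟩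
  · rw [Ne, HahnSeries.coeff_order_eq_zero]
    exact hG0
  · intro i j hij
    obtain ⟨hj, hi1, hi2⟩ := cG _ i j hij
    push_cast at he
    have hw : (0 : ℝ) < 1 - τ := by linarith
    have he1 : (0 : ℝ) ≤ e1 := Nat.cast_nonneg e1
    have he2 : (0 : ℝ) ≤ e2 := Nat.cast_nonneg e2
    have hord : G.order < s := by nlinarith
    have hsj : s * j ≤ G.order := by nlinarith
    have hj0 : j = 0 := by
      by_contra hjn
      have hj1 : (1 : ℤ) ≤ j := by omega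
      have hj2 : (1 : ℝ) ≤ j := by exact_mod_cast hj1
      nlinarith
    subst hj0
    rw [Int.cast_zero, mul_zero, add_zero] at hi1 hi2
    have a1 : -(i : ℝ) ≤ e2 := by
      have : -(i : ℝ) * (1 - τ) ≤ e2 * (1 - τ) := hi2.trans o2
      exact le_of_mul_le_mul_right this hw
    have a2 : -(i : ℝ) * (1 - τ) ≤ e1 * τ := hi2.trans o1
    have a3 : (i : ℝ) ≤ e1 := by
      have : (i : ℝ) * τ ≤ e1 * τ := hi1.trans o1
      exact le_of_mul_le_mul_right this h0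
    have a4 : (i : ℝ) * τ ≤ e2 * (1 - τ) := hi1.trans o2
    exact ⟨rfl, a1, a2, a3, a4⟩

/-- the leading coefficient of `A(x) + B(x) y` in the tube, `x = c ^ 2`, `y = 1 + (ξ + η) / 2` -/
theorem pair_leadP {F : Type} [Field F] [CharZero F] {τ s : ℝ} (h0 : 0 < τ) (h1 : τ < 1)
    {c b : HR F} (hc : c ∈ Cone F τ s) (hc2 : 2 * (c ^ 3 - c) = xi F τ - eta F τ s)
    (hc1 : Low (c - 1) (min τ (1 - τ))) (hb : 2 * b = xi F τ + eta F τ s)
    {A B : Polynomial (HK F)} {L R l r : ℝ} (hL : 0 ≤ L) (hl : 0 ≤ l) (hr : 3 / 2 ≤ r)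
    (hlr : l + r ≤ 63 / 20) (hfl : Mid l) (hfr : Mid r) (hτ : τ ≤ 1 / 12) (hne : A ≠ 0 ∨ B ≠ 0)
    (hA : ∀ n ∈ A.support, L ≤ n ∧ (n : ℝ) ≤ R)
    (hB : ∀ n ∈ B.support, L + l ≤ n ∧ (n : ℝ) ≤ R - r) (hs : 2 * (R - L) < s) (hs0 : 0 < s) :
    ∃ a : ℝ, Low (A.eval₂ incl (c ^ 2) + B.eval₂ incl (c ^ 2) * (1 + b)) a ∧
      (A.eval₂ incl (c ^ 2) + B.eval₂ incl (c ^ 2) * (1 + b)).coeff a ≠ 0 ∧
      ∀ i j : ℤ, cf (A.eval₂ incl (c ^ 2) + B.eval₂ incl (c ^ 2) * (1 + b)) a i j ≠ 0 →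
        j = 0 ∧ Wm τ (2 * (R - L) - (l + r) + 4 / 3) i := by
  classical
  -- the least order
  set T : Finset ℝ := A.support.image (fun n => (A.coeff n).order) ∪
    B.support.image (fun n => (B.coeff n).order) with hT
  have hTne : T.Nonempty := by
    rcases hne with h | h
    · obtain ⟨n, hn⟩ := Polynomial.support_nonempty.mpr h
      exact ⟨_, Finset.mem_union_left _ (Finset.mem_image_of_mem _ hn)⟩
    · obtain ⟨n, hn⟩ := Polynomial.support_nonempty.mpr h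
      exact ⟨_, Finset.mem_union_right _ (Finset.mem_image_of_mem _ hn)⟩
  set β : ℝ := T.min' hTne with hβ
  have hlowA : ∀ n, Low (A.coeff n) β := by
    intro n
    by_cases hn : n ∈ A.support
    · have h3 : β ≤ (A.coeff n).order :=
        Finset.min'_le _ _ (Finset.mem_union_left _ (Finset.mem_image_of_mem _ hn))
      exact fun x hx => HahnSeries.coeff_eq_zero_of_lt_order (hx.trans_le h3)
    · rw [Polynomial.notMem_support_iff.mp hn]
      exact low_zero β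
  have hlowB : ∀ n, Low (B.coeff n) β := by
    intro n
    by_cases hn : n ∈ B.support
    · have h3 : β ≤ (B.coeff n).order :=
        Finset.min'_le _ _ (Finset.mem_union_right _ (Finset.mem_image_of_mem _ hn))
      exact fun x hx => HahnSeries.coeff_eq_zero_of_lt_order (hx.trans_le h3)
    · rw [Polynomial.notMem_support_iff.mp hn]
      exact low_zero β
  set u : HK F := HahnSeries.single (-β) 1 with hu
  set u' : HK F := HahnSeries.single β 1 with hu'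
  have huu : u' * u = 1 := by
    rw [hu, hu', HahnSeries.single_mul_single, add_neg_cancel, one_mul]
    rfl
  have hsh : ∀ (x : HK F) (a : ℝ), (u * x).coeff a = x.coeff (a + β) := by
    intro x a
    have h3 := HahnSeries.coeff_single_mul_add (r := (1 : F)) (x := x) (a := a + β) (b := -β)
    rw [one_mul, add_neg_cancel_right] at h3
    rw [hu, h3]
  have hco : ∀ (P : Polynomial (HK F)) (n : ℕ), (Polynomial.C u * P).coeff n = u * P.coeff n :=
    fun P n => Polynomial.coeff_C_mul P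
  have hmul : ∀ P : Polynomial (HK F), P = Polynomial.C u' * (Polynomial.C u * P) := by
    intro P
    rw [← mul_assoc, ← Polynomial.C_mul, huu, Polynomial.C_1, one_mul]
  have hevl : ∀ (P : Polynomial (HK F)) (x : HR F), P.eval₂ incl x =
      HahnSeries.single β (1 : Pool.Agent.TH603.EL.Lau F) * (Polynomial.C u * P).eval₂ incl x := by
    intro P x
    conv_lhs => rw [hmul P]
    rw [Polynomial.eval₂_mul incl (p := Polynomial.C u'), Polynomial.eval₂_C, hu',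
      incl_single]
  have hsup : ∀ (P : Polynomial (HK F)), ∀ n ∈ (Polynomial.C u * P).support, n ∈ P.support := by
    intro P n hn
    rw [Polynomial.mem_support_iff, hco] at hn
    rw [Polynomial.mem_support_iff]
    exact right_ne_zero_of_mul hn
  have hres : ∀ (P : Polynomial (HK F)) (n : ℕ), (res (Polynomial.C u * P)).coeff n =
      (P.coeff n).coeff β := by
    intro P n
    rw [res_coeff, hco, hsh, zero_add]
  have hne' : res (Polynomial.C u * A) ≠ 0 ∨ res (Polynomial.C u * B) ≠ 0 := by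
    have hmem : β ∈ T := Finset.min'_mem _ _
    rcases Finset.mem_union.mp hmem with h | h
    · left
      obtain ⟨n, hn, hn'⟩ := Finset.mem_image.mp h
      intro h3
      have h4 := hres A n
      rw [h3, Polynomial.coeff_zero, ← hn'] at h4
      exact (Polynomial.mem_support_iff.mp hn) (HahnSeries.coeff_order_eq_zero.mp h4.symm)
    · right
      obtain ⟨n, hn, hn'⟩ := Finset.mem_image.mp h
      intro h3
      have h4 := hres B n
      rw [h3, Polynomial.coeff_zero, ← hn'] at h4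
      exact (Polynomial.mem_support_iff.mp hn) (HahnSeries.coeff_order_eq_zero.mp h4.symm)
  have hl0 : ∀ P : Polynomial (HK F), (∀ n, Low (P.coeff n) β) →
      ∀ n, Low ((Polynomial.C u * P).coeff n) 0 := by
    intro P hP n a ha
    rw [hco, hsh]
    exact hP n _ (by linarith)
  have hA' : ∀ n ∈ (res (Polynomial.C u * A)).support, L ≤ n ∧ (n : ℝ) ≤ R := by
    intro n hn
    apply hA n
    rw [Polynomial.mem_support_iff] at hn ⊢
    intro h
    apply hn
    rw [hres, h]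
    rfl
  have hB' : ∀ n ∈ (res (Polynomial.C u * B)).support, L + l ≤ n ∧ (n : ℝ) ≤ R - r := by
    intro n hn
    apply hB n
    rw [Polynomial.mem_support_iff] at hn ⊢
    intro h
    apply hn
    rw [hres, h]
    rfl
  obtain ⟨e1, e2, Q1, Q2, hQ1, hQ2, hP1, hP2, he⟩ := zeros_bound hl hr hne' hA' hB'
  obtain ⟨a, ha1, ha2, ha3⟩ := mainP h0 h1 hc hc2 hc1 hb (hl0 A hlowA) (hl0 B hlowB)
    hQ1 hQ2 hP1 hP2 (lt_of_le_of_lt he hs) hs0
  have hwin := fun i : ℤ => orders_window (i := i) hL hl hr hlr hfl hfr h0 hτ hne' hA' hB' hP1 hP2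
  have hfin : A.eval₂ incl (c ^ 2) + B.eval₂ incl (c ^ 2) * (1 + b) =
      HahnSeries.single β (1 : Pool.Agent.TH603.EL.Lau F) * ((Polynomial.C u * A).eval₂ incl (c ^ 2) +
        (Polynomial.C u * B).eval₂ incl (c ^ 2) * (1 + b)) := by
    rw [hevl A, hevl B]
    ring
  rw [hfin]
  set G : HR F := (Polynomial.C u * A).eval₂ incl (c ^ 2) +
    (Polynomial.C u * B).eval₂ incl (c ^ 2) * (1 + b) with hG
  have hcoeff : (HahnSeries.single β (1 : Pool.Agent.TH603.EL.Lau F) * G).coeff (a + β) = G.coeff a := by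
    rw [HahnSeries.coeff_single_mul_add, one_mul]
  refine ⟨a + β, ?_, ?_, ?_⟩
  · have h3 := (low_single β (1 : Pool.Agent.TH603.EL.Lau F)).mul ha1
    rwa [add_comm] at h3
  · rw [hcoeff]
    exact ha2
  · intro i j hij
    have hij' : cf G a i j ≠ 0 := by
      unfold cf at hij ⊢
      rwa [hcoeff] at hij
    obtain ⟨k1, k2, k3, k4, k5⟩ := ha3 i j hij'
    exact ⟨k1, hwin i k2 k3 k4 k5⟩

end Pool.Agent.H35.SQ
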