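import Mathlib
import Pool.Agent.H35.SQ.PairP
import Pool.Graph.R_seed8.TH3.IR.Nodal

set_option autoImplicit false

/-! # The nodal step for emptiness, exact windows -/

namespace Pool.Agent.H35.SQ

open Finset MvPolynomial Pool.Agent.TH603.EL Pool.Agent.TH176.Nag Pool.Agent.TH3.IR
open Pool.Agent.TH3.IR.Nodal0

theorem Wm.mono {τ M M' : ℝ} {i : ℤ} (h : Wm τ M i) (h0 : 0 < τ) (hτ : τ ≤ 1 / 12)
    (hM : M ≤ M') : Wm τ M' i := by
  rcases h with ⟨h1, h2⟩ | ⟨h1, h2, h3, h4⟩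
  · left
    have e1 : M * τ ≤ M' * τ := mul_le_mul_of_nonneg_right hM h0.le
    have e2 : M * (1 - τ) ≤ M' * (1 - τ) := mul_le_mul_of_nonneg_right hM (by linarith)
    constructor <;> linarith
  · rcases le_or_gt M' 3 with h5 | h5
    · right
      exact ⟨h1, h2, by linarith, h5⟩
    · left
      have h1r : (0 : ℝ) ≤ i := by exact_mod_cast h1
      have h2r : (i : ℝ) ≤ 1 := by exact_mod_cast h2
      have e1 : 0 ≤ M' * τ := mul_nonneg (by linarith) h0.le
      have e2 : 3 * (11 / 12) ≤ M' * (1 - τ) :=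
        mul_le_mul h5.le (by linarith) (by norm_num) (by linarith)
      constructor <;> linarith

/-- the exponents after a nodal step -/
def DW {σ : Type} [Fintype σ] (τ M : ℝ) (s : σ → ℝ) : Set (ℤ × (σ → ℤ)) :=
  {m | (∀ i, 0 ≤ m.2 i) ∧ Wm τ (M - ∑ i, s i * (m.2 i : ℝ)) m.1}

theorem nodal_lead0P {F : Type} [Field F] [CharZero F] {τ s : ℝ} (h0 : 0 < τ) (h1 : τ < 1)
    {c b : HR F} (hc : c ∈ Cone F τ s) (hc2 : 2 * (c ^ 3 - c) = xi F τ - eta F τ s)
    (hc1 : Low (c - 1) (min τ (1 - τ))) (hb : 2 * b = xi F τ + eta F τ s)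
    {f : Polynomial (Polynomial (HK F))} {L R l r : ℝ} (hL : 0 ≤ L) (hl : 0 ≤ l) (hr : 3 / 2 ≤ r)
    (hlr : l + r ≤ 63 / 20) (hfl : Mid l) (hfr : Mid r) (hτ : τ ≤ 1 / 12) (hne : f ≠ 0)
    (hf : InTri L R l r f) (hs : 2 * (R - L) < s) (hs0 : 0 < s) :
    ∃ a : ℝ, Low (evt c b f) a ∧ (evt c b f).coeff a ≠ 0 ∧
      ∀ i j : ℤ, cf (evt c b f) a i j ≠ 0 →
        0 ≤ j ∧ Wm τ (2 * (R - L - 2 * (l + r) * j) - (l + r) + 4 / 3) i := by
  obtain ⟨n, hn⟩ : ∃ n, n = f.natDegree := ⟨_, rfl⟩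
  induction n using Nat.strong_induction_on generalizing f L R with
  | _ n ih =>
    obtain ⟨A, B, q, hfq, hA, hB, hq, hdeg⟩ := nod_div hl hr hf
    have hev : evt c b f = evt c b (Polynomial.C A + Polynomial.C B * Polynomial.X) +
        tz F (1 + s) 0 1 * evt c b q := by
      conv_lhs => rw [hfq]
      rw [map_add, map_mul, evt_nod hc2 hb]
    have hpair : A ≠ 0 ∨ B ≠ 0 → ∃ a : ℝ,
        Low (evt c b (Polynomial.C A + Polynomial.C B * Polynomial.X)) a ∧
        (evt c b (Polynomial.C A + Polynomial.C B * Polynomial.X)).coeff a ≠ 0 ∧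
        ∀ i j : ℤ, cf (evt c b (Polynomial.C A + Polynomial.C B * Polynomial.X)) a i j ≠ 0 →
          j = 0 ∧ Wm τ (2 * (R - L - 2 * (l + r) * j) - (l + r) + 4 / 3) i := by
      intro hAB
      obtain ⟨a, ha1, ha2, ha3⟩ := pair_leadP h0 h1 hc hc2 hc1 hb hL hl hr hlr hfl hfr hτ hAB
        hA hB hs hs0
      rw [← evt_CA] at ha1 ha2
      refine ⟨a, ha1, ha2, fun i j hij => ?_⟩
      obtain ⟨h3, h4⟩ := ha3 i j (by rw [← evt_CA]; exact hij)
      subst h3
      refine ⟨rfl, ?_⟩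
      simpa using h4
    rcases eq_or_ne q 0 with hq0 | hq0
    · subst hq0
      have hAB : A ≠ 0 ∨ B ≠ 0 := by
        by_contra hcon
        push Not at hcon
        apply hne
        rw [hfq, hcon.1, hcon.2]
        simp
      rw [map_zero, mul_zero, add_zero] at hev
      rw [hev]
      obtain ⟨a, ha1, ha2, ha3⟩ := hpair hAB
      exact ⟨a, ha1, ha2, fun i j hij => ⟨(ha3 i j hij).1.ge, (ha3 i j hij).2⟩⟩
    · have hlt : q.natDegree < n := by
        rcases hdeg hne with h | h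
        · omega
        · exact absurd h hq0
      obtain ⟨a, ha1, ha2, ha3⟩ := ih q.natDegree hlt (by linarith) hq0 hq
        (by nlinarith) rfl
      obtain ⟨hy1, hy2, hy3⟩ := tz_lead (F := F) (1 + s) ha1 ha2
      have hyQ : ∀ i j : ℤ, cf (tz F (1 + s) 0 1 * evt c b q) (1 + s + a) i j ≠ 0 →
          1 ≤ j ∧ Wm τ (2 * (R - L - 2 * (l + r) * j) - (l + r) + 4 / 3) i := by
        intro i j hij
        rw [hy3] at hij
        obtain ⟨h3, h4⟩ := ha3 i (j - 1) hij
        refine ⟨by omega, ?_⟩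
        convert h4 using 1
        push_cast
        ring
      by_cases hAB : A ≠ 0 ∨ B ≠ 0
      · obtain ⟨a', hb1, hb2, hb3⟩ := hpair hAB
        obtain ⟨a'', k1, k2, k3⟩ := comb hb1 hb2 hb3 hy1 hy2 hyQ
        rw [hev]
        refine ⟨a'', k1, k2, fun i j hij => ?_⟩
        rcases k3 i j hij with ⟨h, h'⟩ | ⟨h, h'⟩
        · exact ⟨h.ge, h'⟩
        · exact ⟨by omega, h'⟩
      · push Not at hAB
        rw [hAB.1, hAB.2] at hev
        simp only [map_zero, zero_mul, add_zero, zero_add] at hev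
        rw [hev]
        exact ⟨1 + s + a, hy1, hy2, fun i j hij =>
          ⟨by have := (hyQ i j hij).1; omega, (hyQ i j hij).2⟩⟩

open N1 in
/-- coordinates of the tube around the nodal curve -/
theorem nodal_sliceP {F : Type} [Field F] [CharZero F] {τ : ℝ} (h0 : 0 < τ) (h1 : τ < 1)
    (hτ : τ ≤ 1 / 12) {l r : ℝ} (hl : 0 ≤ l) (hr : 3 / 2 ≤ r) (hlr : l + r ≤ 63 / 20)
    (hfl : Mid l) (hfr : Mid r) (d : ℕ) :
    ∃ U : ZMod 3 → HR F,
      (∀ (x y : F) (hx : x ≠ 0) (hy : y ≠ 0) (l : ZMod 3), evp hx hy (U l) ≠ 0) ∧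
      ∀ (L R : ℝ) (f : (ℤ × ℤ) →₀ HK F), 0 ≤ L → f ≠ 0 →
        (∀ m ∈ f.support, 0 ≤ m.1 ∧ 0 ≤ m.2 ∧ m.1 + m.2 ≤ d) →
        (∀ m ∈ f.support, L + l * m.2 ≤ (m.1 : ℝ) ∧ (m.1 : ℝ) ≤ R - r * m.2) →
        SliceLead U d {m | 0 ≤ m.2 ∧
          Wm τ (2 * (R - L - 2 * (l + r) * m.2) - (l + r) + 4 / 3) m.1} f := by
  have hd0 : (0 : ℝ) ≤ d := Nat.cast_nonneg d
  have hr0 : 0 ≤ r := by linarith
  set s : ℝ := 2 * (d * (1 + l + r)) + 1 with hs
  have hs0 : 0 < s := by positivity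
  have hmin : 0 < min τ (1 - τ) := lt_min h0 (by linarith)
  obtain ⟨c, hc, hc2, hc1⟩ := exists_c (F := F) h0 h1 hs0
  set b : HR F := incl (HahnSeries.C (2⁻¹ : F)) * (xi F τ + eta F τ s) with hb
  have h2 : (2 : F) ≠ 0 := two_ne_zero
  have hb2 : 2 * b = xi F τ + eta F τ s := by
    have e1 : (2 : HR F) * incl (HahnSeries.C (2⁻¹ : F)) = 1 := by
      have e2 : (2 : HR F) = incl (HahnSeries.C (2 : F)) := by
        rw [map_ofNat, map_ofNat]
      rw [e2, ← map_mul, ← map_mul, mul_inv_cancel₀ h2, map_one, map_one]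
    rw [hb, ← mul_assoc, e1, one_mul]
  -- low coefficients
  have hxi : Low (xi F τ) (min τ (1 - τ)) := (low_tz τ 1 0).mono (min_le_left _ _)
  have heta : Low (eta F τ s) (min τ (1 - τ)) := by
    have e1 : Low (1 + tz F s 0 1) 0 := low_one.add ((low_tz s 0 1).mono hs0.le)
    have e2 := (low_tz (F := F) (1 - τ) (-1) 0).mul e1
    exact e2.mono (by rw [add_zero]; exact min_le_right _ _)
  have hblow : Low b (min τ (1 - τ)) := by
    have e1 : Low (HahnSeries.C (2⁻¹ : F) : HK F) 0 := by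
      intro a ha
      rw [HahnSeries.C_apply]
      exact HahnSeries.coeff_single_of_ne ha.ne
    have e2 := e1.incl.mul (hxi.add heta)
    exact e2.mono (by rw [zero_add])
  have hone : ((1 : HR F)).coeff 0 = 1 := by rw [HahnSeries.coeff_one, if_pos rfl]
  have hc0 : c.coeff 0 = 1 := by
    have e1 : (c - 1).coeff 0 = 0 := hc1 0 hmin
    rw [HahnSeries.coeff_sub, hone, sub_eq_zero] at e1
    exact e1
  have hb0 : (1 + b).coeff 0 = 1 := by
    rw [HahnSeries.coeff_add, hone, hblow 0 hmin, add_zero]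
  refine ⟨aff (c ^ 2) (1 + b), ?_, ?_⟩
  · intro x y hx hy k
    have hne : ∀ u : HR F, u.coeff 0 = 1 → evp hx hy u ≠ 0 := by
      intro u hu h
      have e1 := evp_coeff hx hy u 0
      rw [h, hu, map_one, HahnSeries.coeff_zero] at e1
      exact zero_ne_one e1
    unfold aff
    split_ifs
    · exact hne 1 hone
    · rw [map_pow]
      exact pow_ne_zero 2 (hne c hc0)
    · exact hne (1 + b) hb0
  · intro L R f hL hf hfd hft
    have hnn : ∀ m ∈ f.support, 0 ≤ m.1 ∧ 0 ≤ m.2 := fun m hm => ⟨(hfd m hm).1, (hfd m hm).2.1⟩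
    set L' : ℝ := L with hL'
    set R' : ℝ := min R (d + r * d) with hR'
    have hT : InTri L' R' l r (pol f) := by
      intro β n hn
      have hm : f ((n : ℤ), (β : ℤ)) ≠ 0 := by
        rw [← pol_coeff hnn]
        exact Polynomial.mem_support_iff.1 hn
      have hm' : ((n : ℤ), (β : ℤ)) ∈ f.support := Finsupp.mem_support_iff.2 hm
      obtain ⟨e1, e2, e3⟩ := hfd _ hm'
      obtain ⟨e4, e5⟩ := hft _ hm'
      simp only [Int.cast_natCast] at e4 e5
      have e6 : (n : ℝ) + β ≤ d := by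
        have : ((n : ℤ) + (β : ℤ)) ≤ (d : ℤ) := e3
        exact_mod_cast this
      have e7 : (0 : ℝ) ≤ n := Nat.cast_nonneg n
      have e8 : (0 : ℝ) ≤ β := Nat.cast_nonneg β
      have e9 : (0 : ℝ) ≤ l * (d - β) := mul_nonneg hl (by linarith)
      have e10 : (0 : ℝ) ≤ r * (d - β) := mul_nonneg hr0 (by linarith)
      constructor
      · have : L' ≤ n - l * β := by rw [hL']; linarith
        linarith
      · have : n + r * β ≤ R' := le_min (by linarith) (by linarith)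
        linarith
    have hRL : R' - L' ≤ d * (1 + l + r) := by
      have e1 : R' ≤ d + r * d := min_le_right _ _
      have e2 : 0 ≤ L' := hL
      have e3 : 0 ≤ l * d := mul_nonneg hl hd0
      linarith
    have hRL2 : R' - L' ≤ R - L := by
      have e1 : R' ≤ R := min_le_left _ _
      have e2 : L ≤ L' := le_rfl
      linarith
    obtain ⟨a, ha1, ha2, ha3⟩ := nodal_lead0P h0 h1 hc hc2 hc1 hb2 hL hl hr hlr hfl hfr hτ
      (pol_ne hnn hf) hT
      (by rw [hs]; linarith) hs0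
    refine ⟨a, ?_, ?_, ?_⟩
    · rw [ev_hom]; exact ha1
    · rw [ev_hom]; exact ha2
    · intro i k hik
      rw [ev_hom] at hik
      obtain ⟨e1, e2⟩ := ha3 i k hik
      exact ⟨e1, e2.mono h0 hτ (by linarith)⟩

open Pool.Agent.TH3.IR.NodalAux

/-- the case in which the triangle is in the right position -/
lemma nodal_posE {ι σ : Type} [Fintype σ] [DecidableEq σ] {w : ι → ℕ} {L R : ℝ} {μ ν : σ → ℝ}
    (hL : 0 ≤ L) (hμ : ∀ i, 0 ≤ μ i) (hν : ∀ i, 0 ≤ ν i) (j : σ)
    (hj : 3 / 2 ≤ ν j) (hlr : μ j + ν j ≤ 63 / 20) (hfl : Mid (μ j)) (hfr : Mid (ν j))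
    {τ : ℝ} (h0 : 0 < τ) (h1 : τ < 1) (hτ : τ ≤ 1 / 12)
    (h : EmpS w (DW τ (2 * (R - L) - (μ j + ν j) + 4 / 3)
      (Function.update (fun i => 2 * (μ i + ν i)) j (4 * (μ j + ν j))))) :
    EmpS w (RegS L R μ ν) := by
  refine EmpS_step j (d := ⌈R⌉₊) ?_ ?_ h
  · rintro ⟨x, y⟩ ⟨hm0, hm1, hm2⟩
    simp only at hm0 hm1 hm2 ⊢
    have e1 : (0 : ℝ) ≤ ∑ i, μ i * (y i : ℝ) :=
      Finset.sum_nonneg fun i _ => mul_nonneg (hμ i) (by exact_mod_cast hm0 i)
    have e2 : (ν j) * (y j : ℝ) ≤ ∑ i, ν i * (y i : ℝ) :=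
      Finset.single_le_sum (f := fun i => ν i * (y i : ℝ))
        (fun i _ => mul_nonneg (hν i) (by exact_mod_cast hm0 i)) (mem_univ j)
    have e3 : (0 : ℝ) ≤ (y j : ℝ) := by exact_mod_cast hm0 j
    have e4 : (y j : ℝ) ≤ ν j * (y j : ℝ) := by nlinarith
    refine ⟨?_, hm0 j, ?_⟩
    · have : (0 : ℝ) ≤ (x : ℝ) := by linarith
      exact_mod_cast this
    · have e5 : R ≤ (⌈R⌉₊ : ℝ) := Nat.le_ceil R
      have : ((x + y j : ℤ) : ℝ) ≤ ((⌈R⌉₊ : ℤ) : ℝ) := by
        push_cast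
        linarith
      exact_mod_cast this
  · intro F _ _
    obtain ⟨U, hU1, hU2⟩ := nodal_sliceP (F := F) h0 h1 hτ (hμ j) hj hlr hfl hfr ⌈R⌉₊
    refine ⟨U, hU1, fun c f hf hs => ?_⟩
    have hc : ∀ i ≠ j, 0 ≤ c i := by
      obtain ⟨m, hm⟩ := Finsupp.support_nonempty_iff.2 hf
      intro i hi
      have := (hs m hm).1 i
      simpa [Function.update_of_ne hi] using this
    have key : ∀ m ∈ f.support, 0 ≤ m.2 ∧
        (L + ∑ i ∈ univ.erase j, μ i * (c i : ℝ)) + μ j * m.2 ≤ (m.1 : ℝ) ∧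
        (m.1 : ℝ) ≤ (R - ∑ i ∈ univ.erase j, ν i * (c i : ℝ)) - ν j * m.2 := by
      intro m hm
      obtain ⟨k1, k2, k3⟩ := hs m hm
      simp only at k1 k2 k3
      rw [sum_upd'] at k2 k3
      refine ⟨?_, by linarith, by linarith⟩
      have := k1 j
      rwa [Function.update_self] at this
    have hμs : 0 ≤ ∑ i ∈ univ.erase j, μ i * (c i : ℝ) :=
      Finset.sum_nonneg fun i hi => mul_nonneg (hμ i)
        (by exact_mod_cast hc i (Finset.ne_of_mem_erase hi))
    have hνs : 0 ≤ ∑ i ∈ univ.erase j, ν i * (c i : ℝ) :=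
      Finset.sum_nonneg fun i hi => mul_nonneg (hν i)
        (by exact_mod_cast hc i (Finset.ne_of_mem_erase hi))
    refine SliceLead.mono (hU2 (L + ∑ i ∈ univ.erase j, μ i * (c i : ℝ))
      (R - ∑ i ∈ univ.erase j, ν i * (c i : ℝ)) f (by linarith) hf ?_ ?_) ?_
    · intro m hm
      obtain ⟨k1, k2, k3⟩ := key m hm
      have e3 : (0 : ℝ) ≤ (m.2 : ℝ) := by exact_mod_cast k1
      have e4 : (m.2 : ℝ) ≤ ν j * (m.2 : ℝ) := by nlinarith
      have e6 : 0 ≤ μ j * (m.2 : ℝ) := mul_nonneg (hμ j) e3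
      refine ⟨?_, k1, ?_⟩
      · have : (0 : ℝ) ≤ (m.1 : ℝ) := by linarith
        exact_mod_cast this
      · have e5 : R ≤ (⌈R⌉₊ : ℝ) := Nat.le_ceil R
        have : ((m.1 + m.2 : ℤ) : ℝ) ≤ ((⌈R⌉₊ : ℤ) : ℝ) := by
          push_cast
          linarith
        exact_mod_cast this
    · intro m hm
      exact (key m hm).2
    · rintro ⟨x, y⟩ ⟨k1, k2⟩
      simp only at k1 k2
      have esum : ∑ i ∈ univ.erase j, 2 * (μ i + ν i) * (c i : ℝ) =
          2 * (∑ i ∈ univ.erase j, μ i * (c i : ℝ) + ∑ i ∈ univ.erase j, ν i * (c i : ℝ)) := by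
        rw [← Finset.sum_add_distrib, Finset.mul_sum]
        exact Finset.sum_congr rfl fun i _ => by ring
      refine ⟨fun i => ?_, ?_⟩
      · change 0 ≤ Function.update c j y i
        by_cases hi : i = j
        · rw [hi, Function.update_self]; exact k1
        · rw [Function.update_of_ne hi]; exact hc i hi
      · change Wm τ (_ - ∑ i, _ * ((Function.update c j y i : ℤ) : ℝ)) x
        rw [sum_upd, esum]
        convert k2 using 1
        ring

theorem EmpS_nodalP {ι σ : Type} [Fintype σ] [DecidableEq σ] {w : ι → ℕ} {L R : ℝ} {μ ν : σ → ℝ}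
    (hμ : ∀ i, 0 ≤ μ i) (hν : ∀ i, 0 ≤ ν i) (hpos : ∀ i, 0 < μ i + ν i) (j : σ)
    (hj : 5 / 2 ≤ μ j + ν j) (hlr : μ j + ν j ≤ 63 / 20) (hfl : Mid (μ j)) (hfr : Mid (ν j))
    {τ : ℝ} (h0 : 0 < τ) (h1 : τ < 1) (hτ : τ ≤ 1 / 12)
    (h : EmpS w (DW τ (2 * (R - L) - (μ j + ν j) + 4 / 3)
      (Function.update (fun i => 2 * (μ i + ν i)) j (4 * (μ j + ν j))))) :
    EmpS w (RegS L R μ ν) := by
  have _ := hpos
  obtain ⟨p, hp1, hp2⟩ : ∃ p : ℤ, 0 ≤ μ j + p ∧ 3 / 2 ≤ ν j - p := by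
    refine ⟨⌈-μ j⌉, ?_, ?_⟩
    · have := Int.le_ceil (-μ j)
      linarith
    · have := Int.ceil_lt_add_one (-μ j)
      linarith
  set u : ℤ := ⌈-L⌉ with hu
  have hu1 : 0 ≤ L + u := by
    have := Int.le_ceil (-L)
    rw [← hu] at this
    linarith
  have h' : EmpS w (RegS (L + u) (R + u) (Function.update μ j (μ j + p))
      (Function.update ν j (ν j - p))) := by
    refine nodal_posE hu1 (fun i => ?_) (fun i => ?_) j ?_ ?_ ?_ ?_ h0 h1 hτ ?_
    · by_cases hi : i = j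
      · rw [hi, Function.update_self]; exact hp1
      · rw [Function.update_of_ne hi]; exact hμ i
    · by_cases hi : i = j
      · rw [hi, Function.update_self]; linarith
      · rw [Function.update_of_ne hi]; exact hν i
    · rw [Function.update_self]; exact hp2
    · rw [Function.update_self, Function.update_self]; linarith
    · rw [Function.update_self]; exact hfl.add_int p
    · rw [Function.update_self]; exact hfr.sub_int p
    · have e1 : ∀ i, Function.update μ j (μ j + p) i + Function.update ν j (ν j - p) i =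
          μ i + ν i := by
        intro i
        by_cases hi : i = j
        · rw [hi, Function.update_self, Function.update_self]; ring
        · rw [Function.update_of_ne hi, Function.update_of_ne hi]
      have e2 : R + (u : ℝ) - (L + u) = R - L := by ring
      simp only [e1, e2]
      exact h
  refine h'.comap 1 (Or.inl rfl) (Pi.single j p) u ?_
  rintro ⟨x, y⟩ ⟨k1, k2, k3⟩
  simp only at k1 k2 k3
  have e3 : ∑ i, (Pi.single j p : σ → ℤ) i * y i = p * y j := by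
    rw [Finset.sum_eq_single j]
    · rw [Pi.single_eq_same]
    · intro i _ hi
      rw [Pi.single_eq_of_ne hi, zero_mul]
    · intro hj'
      exact absurd (mem_univ j) hj'
  have e4 : ∀ (ρ : σ → ℝ) (a : ℝ), ∑ i, Function.update ρ j a i * (y i : ℝ) =
      ∑ i, ρ i * (y i : ℝ) + (a - ρ j) * (y j : ℝ) := by
    intro ρ a
    have e5 := sum_upd j ρ a y (y j)
    have e6 := sum_upd' j ρ y (y j)
    rw [Function.update_eq_self] at e5 e6
    rw [e5, e6]
    ring
  refine ⟨k1, ?_, ?_⟩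
  · change (L + u) + ∑ i, Function.update μ j (μ j + p) i * (y i : ℝ) ≤
      ((1 * x + ∑ i, (Pi.single j p : σ → ℤ) i * y i + u : ℤ) : ℝ)
    rw [e3, e4]
    push_cast
    linarith
  · change ((1 * x + ∑ i, (Pi.single j p : σ → ℤ) i * y i + u : ℤ) : ℝ) ≤
      (R + u) - ∑ i, Function.update ν j (ν j - p) i * (y i : ℝ)
    rw [e3, e4]
    push_cast
    linarith

end Pool.Agent.H35.SQ
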