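import Mathlib
import Pool.Agent.H35.SQ.NodalE
import Pool.Agent.H35.SP.DblE

set_option autoImplicit false

/-! # Double flattening with exceptional exponents, preparations -/

namespace Pool.Agent.H35.SQ

open Finset Pool.Agent.TH3.IR Pool.Agent.H35.SP

/-- the regular part of the rows -/
def Rg (τ A y : ℝ) : Prop := -(A * τ) ≤ y ∧ y ≤ A * (1 - τ)

/-- the exceptional part of the rows -/
def Xs (A y : ℝ) : Prop := 0 ≤ y ∧ y ≤ 1 ∧ -3 ≤ A ∧ A ≤ 3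

theorem Wm.cases {τ A : ℝ} {i : ℤ} (h : Wm τ A i) : Rg τ A i ∨ Xs A i := by
  rcases h with h | ⟨h1, h2, h3, h4⟩
  · exact Or.inl h
  · exact Or.inr ⟨by exact_mod_cast h1, by exact_mod_cast h2, h3, h4⟩

theorem Rg.nonneg {τ A y : ℝ} (h : Rg τ A y) : 0 ≤ A := by
  obtain ⟨h1, h2⟩ := h
  nlinarith

/-- at different places there is no exceptional exponent -/
theorem shell_first {τ S σ₀ K₁ v₁ y t t' : ℝ} (h0 : 0 < τ) (hτ : τ ≤ 1 / 12) (hσ : 6 < σ₀)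
    (hK : 2 * σ₀ + 8 ≤ K₁) (hK₁ : σ₀ * τ + v₁ = K₁) (htt : t + 1 ≤ t')
    (h : Rg τ (S - σ₀ * t) (y - v₁ * t) ∨ Xs (S - σ₀ * t) (y - v₁ * t))
    (h' : Rg τ (S - σ₀ * t') (y - v₁ * t') ∨ Xs (S - σ₀ * t') (y - v₁ * t')) :
    Rg τ (S - σ₀ * t) (y - v₁ * t) ∧ Rg τ (S - σ₀ * t') (y - v₁ * t') := by
  have hv : v₁ = K₁ - σ₀ * τ := by linarith
  have hστ : σ₀ * τ ≤ σ₀ * (1 / 12) := mul_le_mul_of_nonneg_left hτ (by linarith)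
  rcases h with h | h
  · rcases h' with h' | h'
    · exact ⟨h, h'⟩
    · exfalso
      obtain ⟨a1, a2⟩ := h
      obtain ⟨b1, b2, b3, b4⟩ := h'
      -- `v₁ (t' - t) ≤ (S - σ₀ t) (1 - τ)`
      have e1 : (S - σ₀ * t) * (1 - τ) = (S - σ₀ * t') * (1 - τ) + σ₀ * (1 - τ) * (t' - t) := by
        ring
      have e2 : (S - σ₀ * t') * (1 - τ) ≤ 3 := by nlinarith
      have e3 : v₁ * (t' - t) ≤ 3 + σ₀ * (1 - τ) * (t' - t) := by linarith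
      have e4 : (K₁ - σ₀) * (t' - t) ≤ 3 := by
        rw [hv] at e3
        linarith
      nlinarith
  · exfalso
    obtain ⟨a1, a2, a3, a4⟩ := h
    rcases h' with h' | h'
    · have b1 := h'.nonneg
      nlinarith
    · obtain ⟨b1, b2, b3, b4⟩ := h'
      have e1 : v₁ * (t' - t) ≤ 1 := by linarith
      have e2 : 2 ≤ v₁ := by linarith
      nlinarith

theorem shell_z {τ M σ₀ σ₁ K₁ K₂ v₁ v₂ x t b : ℝ} (h0 : 0 < τ) (hτ : τ ≤ 1 / 12)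
    (hK₁ : σ₀ * τ + v₁ = K₁) (hK₂ : σ₁ * τ + v₂ = K₂)
    (h : Xs (M - σ₀ * t - σ₁ * b) (x - v₂ * b - v₁ * t)) :
    K₁ * t - 1 ≤ x + M * τ - K₂ * b ∧ x + M * τ - K₂ * b ≤ K₁ * t + 2 := by
  obtain ⟨h1, h2, h3, h4⟩ := h
  have e : x + M * τ - K₂ * b = (x - v₂ * b - v₁ * t) + K₁ * t + τ * (M - σ₀ * t - σ₁ * b) := by
    rw [← hK₁, ← hK₂]
    ring
  rw [e]
  constructor <;> nlinarith

theorem reg_z {τ M σ₀ σ₁ K₁ K₂ v₁ v₂ x t b : ℝ}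
    (hK₁ : σ₀ * τ + v₁ = K₁) (hK₂ : σ₁ * τ + v₂ = K₂)
    (h : Rg τ (M - σ₀ * t - σ₁ * b) (x - v₂ * b - v₁ * t)) :
    K₁ * t ≤ x + M * τ - K₂ * b ∧ (x + M * τ - K₂ * b) - (K₁ - σ₀) * t ≤ M - σ₁ * b := by
  obtain ⟨h1, h2⟩ := h
  rw [← hK₁, ← hK₂]
  constructor <;> linarith

/-- a regular place is not to the left of an exceptional one -/
theorem shell_left {τ M σ₀ σ₁ K₁ K₂ v₁ v₂ x t b t' b' : ℝ} (h0 : 0 < τ) (hτ : τ ≤ 1 / 12)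
    (hσ₁ : 6 < σ₁) (hσσ : σ₁ ≤ σ₀)
    (hK : 2 * σ₀ + 8 ≤ K₁) (hK₁ : σ₀ * τ + v₁ = K₁) (hK₂ : σ₁ * τ + v₂ = K₂)
    (hKK : K₁ ^ 2 = σ₀ * K₂) (hbb : b + 1 ≤ b')
    (h : Rg τ (M - σ₀ * t - σ₁ * b) (x - v₂ * b - v₁ * t))
    (h' : Xs (M - σ₀ * t' - σ₁ * b') (x - v₂ * b' - v₁ * t')) : False := by
  obtain ⟨a1, a2⟩ := reg_z hK₁ hK₂ h
  obtain ⟨c1, c2⟩ := shell_z h0 hτ hK₁ hK₂ h'
  obtain ⟨_, _, d3, d4⟩ := h'
  obtain ⟨z, hz⟩ : ∃ z, z = x + M * τ - K₂ * b := ⟨_, rfl⟩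
  obtain ⟨z', hz'⟩ : ∃ z', z' = x + M * τ - K₂ * b' := ⟨_, rfl⟩
  rw [← hz] at a1 a2
  rw [← hz'] at c1 c2
  have hzz : z = z' + K₂ * (b' - b) := by rw [hz, hz']; ring
  have hK0 : 0 < K₁ := by linarith
  -- `σ₀ z ≤ K₁ (M - σ₁ b)`
  have e1 : σ₀ * z ≤ K₁ * (M - σ₁ * b) := by
    have g1 : K₁ * (z - (K₁ - σ₀) * t) ≤ K₁ * (M - σ₁ * b) := mul_le_mul_of_nonneg_left a2 hK0.le
    have g2 : (K₁ - σ₀) * (K₁ * t) ≤ (K₁ - σ₀) * z := mul_le_mul_of_nonneg_left a1 (by linarith)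
    linarith
  have e2 : σ₀ * z = σ₀ * z' + K₁ ^ 2 * (b' - b) := by rw [hzz, hKK]; ring
  have e3 : σ₀ * (K₁ * t' - 1) ≤ σ₀ * z' := mul_le_mul_of_nonneg_left c1 (by linarith)
  have e4 : K₁ * (M - σ₁ * b' - 3) ≤ K₁ * (σ₀ * t') := mul_le_mul_of_nonneg_left (by linarith) hK0.le
  have e5 : K₁ ^ 2 * (b' - b) ≤ K₁ * σ₁ * (b' - b) + 3 * K₁ + σ₀ := by nlinarith
  have e6 : K₁ * (K₁ - σ₁) * 1 ≤ K₁ * (K₁ - σ₁) * (b' - b) :=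
    mul_le_mul_of_nonneg_left (by linarith) (mul_nonneg hK0.le (by linarith))
  nlinarith

/-- an exceptional place which is far from the end can be replaced by a regular one -/
theorem shell_far {τ M σ₀ σ₁ K₁ K₂ v₁ v₂ x t b k : ℝ} (h0 : 0 < τ) (hτ : τ ≤ 1 / 12)
    (hσ₁ : 6 < σ₁) (hσσ : σ₁ ≤ σ₀)
    (hK : 2 * σ₀ + 8 ≤ K₁) (hK₁ : σ₀ * τ + v₁ = K₁) (hK₂ : σ₁ * τ + v₂ = K₂)
    (hKK : K₁ ^ 2 = σ₀ * K₂)
    (h : Xs (M - σ₀ * t - σ₁ * b) (x - v₂ * b - v₁ * t))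
    (hfar : K₂ * (k + 2) ≤ x + M * τ - K₂ * b) :
    K₂ * k ≤ x + M * τ - K₂ * (b + 2) ∧
      (x + M * τ - K₂ * (b + 2)) - (K₁ - σ₀) * ⌊(x + M * τ - K₂ * (b + 2)) / K₁⌋ ≤
        M - σ₁ * (b + 2) := by
  obtain ⟨c1, c2⟩ := shell_z h0 hτ hK₁ hK₂ h
  obtain ⟨_, _, d3, d4⟩ := h
  have hK0 : 0 < K₁ := by linarith
  refine ⟨by linarith, ?_⟩
  obtain ⟨z', hz'⟩ : ∃ z', z' = x + M * τ - K₂ * b := ⟨_, rfl⟩
  obtain ⟨z, hz⟩ : ∃ z, z = x + M * τ - K₂ * (b + 2) := ⟨_, rfl⟩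
  have hzz : z = z' - 2 * K₂ := by rw [hz, hz']; ring
  rw [← hz]
  rw [← hz'] at c1 c2
  have f1 := Int.lt_floor_add_one (z / K₁)
  rw [div_lt_iff₀ hK0] at f1
  -- multiply by `K₁`
  have g1 : K₁ * (z - (K₁ - σ₀) * ⌊z / K₁⌋) ≤ K₁ * (M - σ₁ * (b + 2)) := by
    have g2 : (K₁ - σ₀) * z ≤ (K₁ - σ₀) * ((⌊z / K₁⌋ + 1) * K₁) :=
      mul_le_mul_of_nonneg_left f1.le (by linarith)
    have g3 : σ₀ * z = σ₀ * z' - 2 * K₁ ^ 2 := by rw [hzz, hKK]; ring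
    have g4 : σ₀ * z' ≤ σ₀ * (K₁ * t + 2) := mul_le_mul_of_nonneg_left c2 (by linarith)
    have g5 : K₁ * (σ₀ * t) ≤ K₁ * (M - σ₁ * b + 3) := mul_le_mul_of_nonneg_left (by linarith) hK0.le
    nlinarith
  exact le_of_mul_le_mul_left g1 hK0

/-- the number of exceptional elements of a row -/
theorem shell_card {M σ₀ σ₁ K₁ K₂ : ℝ} {v₁ v₂ : ℤ} {k : ℝ} (hσ₁ : 6 < σ₁) (hK₁0 : 8 ≤ K₁)
    (hK₂0 : 0 ≤ K₂) (S : Finset ℤ)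
    (hS : ∀ x ∈ S, ∃ t b : ℤ, Xs (M - σ₀ * t - σ₁ * b) ((x : ℝ) - v₂ * b - v₁ * t) ∧
      K₂ * k - 3 ≤ K₁ * t ∧ K₁ * t ≤ K₂ * (k + 2) + 1) :
    (S.card : ℝ) ≤ 4 * (K₂ / K₁) + 4 := by
  classical
  have hS' : ∀ x : ℤ, ∃ t b : ℤ, x ∈ S → Xs (M - σ₀ * t - σ₁ * b) ((x : ℝ) - v₂ * b - v₁ * t) ∧
      K₂ * k - 3 ≤ K₁ * t ∧ K₁ * t ≤ K₂ * (k + 2) + 1 := by
    intro x
    by_cases hx : x ∈ S
    · obtain ⟨t, b, h⟩ := hS x hx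
      exact ⟨t, b, fun _ => h⟩
    · exact ⟨0, 0, fun h => absurd h hx⟩
  choose t b ht using hS'
  have hK0 : 0 < K₁ := by linarith
  obtain ⟨lo, hlo⟩ : ∃ lo : ℤ, lo = ⌈(K₂ * k - 3) / K₁⌉ := ⟨_, rfl⟩
  obtain ⟨hi, hhi⟩ : ∃ hi : ℤ, hi = ⌊(K₂ * (k + 2) + 1) / K₁⌋ := ⟨_, rfl⟩
  have h1 : S.card ≤ ((Icc lo hi) ×ˢ (Icc (0 : ℤ) 1)).card := by
    apply card_le_card_of_injOn (fun x => (t x, x - v₂ * b x - v₁ * t x))
    · intro x hx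
      obtain ⟨⟨a1, a2, _, _⟩, a5, a6⟩ := ht x hx
      rw [mem_coe, mem_product, mem_Icc, mem_Icc]
      refine ⟨⟨?_, ?_⟩, ?_, ?_⟩
      · rw [hlo, Int.ceil_le, div_le_iff₀ hK0]
        linarith
      · rw [hhi, Int.le_floor, le_div_iff₀ hK0]
        linarith
      · exact_mod_cast a1
      · exact_mod_cast a2
    · intro x hx y hy hxy
      simp only [Prod.mk.injEq] at hxy
      obtain ⟨e1, e2⟩ := hxy
      obtain ⟨⟨_, _, a3, a4⟩, _, _⟩ := ht x hx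
      obtain ⟨⟨_, _, c3, c4⟩, _, _⟩ := ht y hy
      rw [e1] at a3 a4
      have e3 : b x = b y := by
        by_contra hne
        rcases lt_or_gt_of_ne hne with h | h
        · have : (b x : ℝ) + 1 ≤ b y := by exact_mod_cast h
          nlinarith
        · have : (b y : ℝ) + 1 ≤ b x := by exact_mod_cast h
          nlinarith
      rw [e1, e3] at e2
      linarith
  rw [card_product, Int.card_Icc, Int.card_Icc] at h1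
  have h2 : S.card ≤ 2 * (hi + 1 - lo).toNat := by
    have e : (1 + 1 - 0 : ℤ).toNat = 2 := rfl
    rw [e] at h1
    omega
  have h3 : ((hi + 1 - lo).toNat : ℝ) ≤ 2 * (K₂ / K₁) + 2 := by
    rcases le_or_gt (hi + 1 - lo) 0 with h | h
    · rw [Int.toNat_of_nonpos h]
      have : 0 ≤ K₂ / K₁ := div_nonneg hK₂0 hK0.le
      push_cast
      linarith
    · have e : (((hi + 1 - lo).toNat : ℕ) : ℤ) = hi + 1 - lo := Int.toNat_of_nonneg h.le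
      have e' : (((hi + 1 - lo).toNat : ℕ) : ℝ) = hi + 1 - lo := by exact_mod_cast e
      rw [e', hlo, hhi]
      have f1 := Int.floor_le ((K₂ * (k + 2) + 1) / K₁)
      have f2 := Int.le_ceil ((K₂ * k - 3) / K₁)
      have f3 : (K₂ * (k + 2) + 1) / K₁ - (K₂ * k - 3) / K₁ = 2 * (K₂ / K₁) + 4 / K₁ := by
        field_simp
        ring
      have f4 : 4 / K₁ ≤ 1 := by
        rw [div_le_one hK0]
        linarith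
      linarith
  have h4 : (S.card : ℝ) ≤ 2 * ((hi + 1 - lo).toNat : ℝ) := by exact_mod_cast h2
  linarith

end Pool.Agent.H35.SQ
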