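import Mathlib
import Pool.Agent.H35.SQ.DblP0

set_option autoImplicit false

/-! # Double flattening with exceptional exponents -/

namespace Pool.Agent.H35.SQ

open Finset Pool.Agent.TH3.IR Pool.Agent.H35.SP

/-- the analysis of the rows of a double flattening -/
theorem row_anal {τ M σ₀ σ₁ K₁ K₂ : ℝ} {v₁ v₂ : ℤ} (h0 : 0 < τ) (hτ : τ ≤ 1 / 12)
    (hσ₁ : 6 < σ₁) (hσσ : σ₁ ≤ σ₀) (hK : 2 * σ₀ + 8 ≤ K₁) (hK₁ : σ₀ * τ + v₁ = K₁)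
    (hK₂ : σ₁ * τ + v₂ = K₂) (hKK : K₁ ^ 2 = σ₀ * K₂) {κ₀ κ₁ x b b' t t' u u' : ℤ}
    (hκ₀ : 0 ≤ κ₀) (hκ₁ : 0 ≤ κ₁) (hb : 0 ≤ b) (ht : 0 ≤ t) (hu : 0 ≤ u)
    (hbb : b + κ₁ ≤ b') (htt : t + κ₀ ≤ t') (huu : u + κ₀ ≤ u')
    (h1 : Wm τ (M - (σ₀ * t + σ₁ * b)) (x - v₂ * b - v₁ * t))
    (h2 : Wm τ (M - (σ₀ * t' + σ₁ * b)) (x - v₂ * b - v₁ * t'))
    (h3 : Wm τ (M - (σ₀ * u + σ₁ * b')) (x - v₂ * b' - v₁ * u))
    (h4 : Wm τ (M - (σ₀ * u' + σ₁ * b')) (x - v₂ * b' - v₁ * u')) :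
    (∃ b : ℕ, K₂ * κ₁ ≤ (x : ℝ) - (-(M * τ) + K₁ * κ₀) - K₂ * b ∧
        ((x : ℝ) - (-(M * τ) + K₁ * κ₀) - K₂ * b) -
          (K₁ - σ₀) * ⌊((x : ℝ) - (-(M * τ) + K₁ * κ₀) - K₂ * b) / K₁⌋ ≤
          M - K₁ * κ₀ - σ₁ * b) ∨
      (κ₀ = 0 ∧ ∃ t b : ℤ, 0 ≤ b ∧ Xs (M - σ₀ * t - σ₁ * b) ((x : ℝ) - v₂ * b - v₁ * t) ∧
        K₂ * κ₁ - 3 ≤ K₁ * t ∧ K₁ * t ≤ K₂ * (κ₁ + 2) + 1) := by
  have hσ₀ : 6 < σ₀ := lt_of_lt_of_le hσ₁ hσσ
  have hK₁0 : 0 < K₁ := by linarith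
  have hK₂0 : 0 < K₂ := by
    by_contra hcon
    have : σ₀ * K₂ ≤ 0 := mul_nonpos_of_nonneg_of_nonpos (by linarith) (not_lt.1 hcon)
    have : 0 < K₁ ^ 2 := by positivity
    linarith
  have hbr : (0 : ℝ) ≤ b := by exact_mod_cast hb
  have htr : (0 : ℝ) ≤ t := by exact_mod_cast ht
  have hur : (0 : ℝ) ≤ u := by exact_mod_cast hu
  have hκ₁r : (0 : ℝ) ≤ κ₁ := by exact_mod_cast hκ₁
  have hbbr : (b : ℝ) + κ₁ ≤ b' := by exact_mod_cast hbb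
  have httr : (t : ℝ) + κ₀ ≤ t' := by exact_mod_cast htt
  have huur : (u : ℝ) + κ₀ ≤ u' := by exact_mod_cast huu
  have c1 := h1.cases
  have c2 := h2.cases
  have c3 := h3.cases
  have c4 := h4.cases
  push_cast at c1 c2 c3 c4
  rw [← sub_sub] at c1 c2 c3 c4
  -- swap the order for `shell_first`
  have sh : ∀ {β s s' : ℝ}, s + 1 ≤ s' →
      (Rg τ (M - σ₀ * s - σ₁ * β) (x - v₂ * β - v₁ * s) ∨
        Xs (M - σ₀ * s - σ₁ * β) (x - v₂ * β - v₁ * s)) →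
      (Rg τ (M - σ₀ * s' - σ₁ * β) (x - v₂ * β - v₁ * s') ∨
        Xs (M - σ₀ * s' - σ₁ * β) (x - v₂ * β - v₁ * s')) →
      Rg τ (M - σ₀ * s - σ₁ * β) (x - v₂ * β - v₁ * s) ∧
        Rg τ (M - σ₀ * s' - σ₁ * β) (x - v₂ * β - v₁ * s') := by
    intro β s s' hs g1 g2
    have e1 : M - σ₀ * s - σ₁ * β = (M - σ₁ * β) - σ₀ * s := by ring
    have e2 : M - σ₀ * s' - σ₁ * β = (M - σ₁ * β) - σ₀ * s' := by ring
    rw [e1] at g1 ⊢
    rw [e2] at g2 ⊢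
    exact shell_first h0 hτ hσ₀ hK hK₁ hs g1 g2
  -- the regular case
  have reg : Rg τ (M - σ₀ * t - σ₁ * b) (x - v₂ * b - v₁ * t) →
      K₁ * t' ≤ x + M * τ - K₂ * b → K₂ * κ₁ + K₁ * κ₀ ≤ x + M * τ - K₂ * b →
      ∃ b : ℕ, K₂ * κ₁ ≤ (x : ℝ) - (-(M * τ) + K₁ * κ₀) - K₂ * b ∧
        ((x : ℝ) - (-(M * τ) + K₁ * κ₀) - K₂ * b) -
          (K₁ - σ₀) * ⌊((x : ℝ) - (-(M * τ) + K₁ * κ₀) - K₂ * b) / K₁⌋ ≤
          M - K₁ * κ₀ - σ₁ * b := by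
    intro g1 g2 g3
    obtain ⟨a1, a2⟩ := reg_z hK₁ hK₂ g1
    obtain ⟨b, rfl⟩ := Int.eq_ofNat_of_zero_le hb
    push_cast at a1 a2 g2 g3 ⊢
    refine ⟨b, by linarith, ?_⟩
    have g4 : t ≤ ⌊((x : ℝ) - (-(M * τ) + K₁ * κ₀) - K₂ * b) / K₁⌋ := by
      rw [Int.le_floor, le_div_iff₀ hK₁0]
      have : K₁ * (t + κ₀) ≤ K₁ * t' := mul_le_mul_of_nonneg_left httr hK₁0.le
      linarith
    have g5 : (t : ℝ) ≤ ⌊((x : ℝ) - (-(M * τ) + K₁ * κ₀) - K₂ * b) / K₁⌋ := by exact_mod_cast g4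
    have g6 := mul_le_mul_of_nonneg_left g5 (show 0 ≤ K₁ - σ₀ by linarith)
    linarith
  rcases hκ₀.lt_or_eq with hpos | hzero
  · -- `κ₀ ≥ 1`: everything is regular
    left
    have hκ₀r : (1 : ℝ) ≤ κ₀ := by exact_mod_cast hpos
    obtain ⟨r1, r2⟩ := sh (by linarith) c1 c2
    obtain ⟨r3, r4⟩ := sh (by linarith) c3 c4
    obtain ⟨a1, _⟩ := reg_z hK₁ hK₂ r2
    obtain ⟨a3, _⟩ := reg_z hK₁ hK₂ r4
    refine reg r1 a1 ?_
    have e1 : K₁ * κ₀ ≤ K₁ * u' := mul_le_mul_of_nonneg_left (by linarith) hK₁0.le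
    have e2 : K₂ * (b + κ₁) ≤ K₂ * b' := mul_le_mul_of_nonneg_left hbbr hK₂0.le
    linarith
  · subst hzero
    have e2 : K₂ * (b + κ₁) ≤ K₂ * b' := mul_le_mul_of_nonneg_left hbbr hK₂0.le
    have hK₁u : 0 ≤ K₁ * u := mul_nonneg hK₁0.le hur
    have hK₁t : 0 ≤ K₁ * t := mul_nonneg hK₁0.le htr
    rcases c1 with c1 | c1
    · left
      -- choose `t' = t`
      obtain ⟨a1, a2⟩ := reg_z hK₁ hK₂ c1
      have key : K₂ * κ₁ ≤ x + M * τ - K₂ * b := by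
        rcases hκ₁.lt_or_eq with hp | hz
        · have hκ₁' : (1 : ℝ) ≤ κ₁ := by exact_mod_cast hp
          rcases c3 with c3 | c3
          · obtain ⟨a3, _⟩ := reg_z hK₁ hK₂ c3
            linarith
          · exact (shell_left h0 hτ hσ₁ hσσ hK hK₁ hK₂ hKK (by linarith) c1 c3).elim
        · rw [← hz]
          push_cast
          linarith
      obtain ⟨b, rfl⟩ := Int.eq_ofNat_of_zero_le hb
      push_cast at a1 a2 key ⊢
      refine ⟨b, by linarith, ?_⟩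
      have g4 : t ≤ ⌊((x : ℝ) - (-(M * τ) + K₁ * 0) - K₂ * b) / K₁⌋ := by
        rw [Int.le_floor, le_div_iff₀ hK₁0]
        linarith
      have g5 : (t : ℝ) ≤ ⌊((x : ℝ) - (-(M * τ) + K₁ * 0) - K₂ * b) / K₁⌋ := by exact_mod_cast g4
      have g6 := mul_le_mul_of_nonneg_left g5 (show 0 ≤ K₁ - σ₀ by linarith)
      linarith
    · obtain ⟨a1, a2⟩ := shell_z h0 hτ hK₁ hK₂ c1
      have key : K₂ * κ₁ - 1 ≤ x + M * τ - K₂ * b := by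
        rcases c3 with c3 | c3
        · obtain ⟨a3, _⟩ := reg_z hK₁ hK₂ c3
          linarith
        · obtain ⟨a3, _⟩ := shell_z h0 hτ hK₁ hK₂ c3
          linarith
      by_cases hfar : K₂ * (κ₁ + 2) ≤ x + M * τ - K₂ * b
      · left
        obtain ⟨f1, f2⟩ := shell_far h0 hτ hσ₁ hσσ hK hK₁ hK₂ hKK c1 hfar
        obtain ⟨b, rfl⟩ := Int.eq_ofNat_of_zero_le hb
        refine ⟨b + 2, ?_, ?_⟩
        · push_cast at f1 ⊢
          linarith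
        · have e3 : (x : ℝ) - (-(M * τ) + K₁ * ((0 : ℤ) : ℝ)) - K₂ * ((b + 2 : ℕ) : ℝ) =
              x + M * τ - K₂ * ((((b : ℕ) : ℤ) : ℝ) + 2) := by
            push_cast
            ring
          rw [e3]
          push_cast at f2 ⊢
          linarith
      · right
        refine ⟨rfl, t, b, hb, c1, by linarith, by linarith⟩

theorem DW_bounded {τ M : ℝ} {sg : Fin 2 → ℝ} (h0 : 0 < τ) (hτ : τ ≤ 1 / 12)
    (hsg : ∀ i, 0 < sg i) : ∃ B : ℕ, ∀ m ∈ DW τ M sg, |m.1| ≤ B ∧ ∀ j, 0 ≤ m.2 j ∧ m.2 j ≤ B := by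
  obtain ⟨B, hB⟩ := RegS_bounded (L := -((M + 5) * τ)) (R := (M + 5) * (1 - τ))
    (μ := fun i => sg i * τ) (ν := fun i => sg i * (1 - τ))
    (fun i => mul_nonneg (hsg i).le h0.le) (fun i => mul_nonneg (hsg i).le (by linarith))
    (fun i => by have := hsg i; have e : sg i * τ + sg i * (1 - τ) = sg i := by ring
                 rw [e]; exact this)
  refine ⟨B, fun m hm => hB m ?_⟩
  obtain ⟨h1, h2⟩ := hm
  have e1 : ∑ i, sg i * τ * (m.2 i : ℝ) = (∑ i, sg i * (m.2 i : ℝ)) * τ := by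
    rw [sum_mul]
    exact sum_congr rfl fun i _ => by ring
  have e2 : ∑ i, sg i * (1 - τ) * (m.2 i : ℝ) = (∑ i, sg i * (m.2 i : ℝ)) * (1 - τ) := by
    rw [sum_mul]
    exact sum_congr rfl fun i _ => by ring
  refine ⟨h1, ?_, ?_⟩
  · rw [e1]
    rcases h2.cases with ⟨g1, g2⟩ | ⟨g1, g2, g3, g4⟩
    · nlinarith
    · nlinarith
  · rw [e2]
    rcases h2.cases with ⟨g1, g2⟩ | ⟨g1, g2, g3, g4⟩
    · nlinarith
    · nlinarith

theorem EmpS_doubleP {ι : Type} [Fintype ι] {m k s T q n : ℕ} {τ M : ℝ} {sg : Fin 2 → ℝ}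
    (h0 : 0 < τ) (hτ : τ ≤ 1 / 12) {v₁ v₂ : ℤ}
    {K₁ K₂ σ₀ σ₁ η B₀ W : ℝ} {N : ℤ} (hK₁ : σ₀ * τ + v₁ = K₁) (hK₂ : σ₁ * τ + v₂ = K₂)
    (hs₀ : sg 0 = σ₀) (hs₁ : sg 1 = σ₁) (hσ₁ : 6 < σ₁) (hσσ : σ₁ ≤ σ₀) (hK : 2 * σ₀ + 8 ≤ K₁)
    (hKK : K₁ ^ 2 = σ₀ * K₂) (hη : K₂ = N * K₁ + η) (hk : K₁ * K₂ / σ₁ = k)
    (hWle : M ≤ W)
    (hm : K₂ / σ₁ * (W + (σ₀ + σ₁) / 2) + (K₁ - σ₀) * |η| / (2 * σ₁) +
        ((K₂ / K₁ + 2) * (K₁ / σ₁ + 1 + σ₁ / 8 + B₀ ^ 2 / (2 * σ₁)) + (2 * K₁ + σ₀) / σ₁ + 2) +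
        (4 * (K₂ / K₁) + 4) + s ≤ k * (m + 1))
    (hB₀ : 0 ≤ B₀) (hW1 : 0 ≤ W - K₁ * (m - 1))
    (hW2 : 2 * K₁ + σ₀ - B₀ ≤ W - K₁ * (m - 1))
    (hT : max ((M - K₁ * m) * K₂ / σ₁) 0 + 1 + (4 * (K₂ / K₁) + 4) ≤ T)
    (hW3 : M + 5 < K₁ * (m + 1))
    (hcard : Fintype.card ι = k) (hs : s ≤ k) (hq : q ≤ k) (h1 : T + s ≤ s * n) (h2 : q * n ≤ s)
    (h3 : T + 2 * q * n ≤ q * m) :
    EmpS (fun _ : ι => m) (DW τ M sg) := by
  classical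
  have hσ₁0 : 0 < σ₁ := by linarith
  have hσ₀ : 0 < σ₀ := lt_of_lt_of_le hσ₁0 hσσ
  have hσK : σ₀ ≤ K₁ := by linarith
  have hK₁0 : 0 < K₁ := lt_of_lt_of_le hσ₀ hσK
  have hK₂0 : 0 < K₂ := by
    by_contra hcon
    have : σ₀ * K₂ ≤ 0 := mul_nonpos_of_nonneg_of_nonpos hσ₀.le (not_lt.1 hcon)
    have : 0 < K₁ ^ 2 := by positivity
    linarith
  have hKK0 : 0 ≤ K₂ / K₁ := div_nonneg hK₂0.le hK₁0.le
  have hsg : ∀ i, 0 < sg i := by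
    intro i
    fin_cases i
    · simp only [Fin.zero_eta]
      rw [hs₀]; exact hσ₀
    · simp only [Fin.mk_one]
      rw [hs₁]; exact hσ₁0
  obtain ⟨B, hB⟩ := DW_bounded (M := M) h0 hτ hsg
  set D : Set (ℤ × (Fin 2 → ℤ)) := DW τ M sg with hD
  set D1 : Set (ℤ × (Fin 2 → ℤ)) := {m | 0 ≤ m.2 0 ∧ 0 ≤ m.2 1 ∧ ∃ t t' : ℤ, t + m.2 0 ≤ t' ∧
      (m.1 - v₁ * t, Function.update m.2 0 t) ∈ D ∧
      (m.1 - v₁ * t', Function.update m.2 0 t') ∈ D} with hD1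
  set D2 : Set (ℤ × (Fin 2 → ℤ)) := {m | 0 ≤ m.2 0 ∧ 0 ≤ m.2 1 ∧ ∃ b b' : ℤ, b + m.2 1 ≤ b' ∧
      (m.1 - v₂ * b, Function.update m.2 1 b) ∈ D1 ∧
      (m.1 - v₂ * b', Function.update m.2 1 b') ∈ D1} with hD2
  have hvB : (0 : ℤ) ≤ |v₁| * (B : ℤ) := mul_nonneg (abs_nonneg _) (by positivity)
  -- bounds for `D1`
  have hB1 : ∀ m ∈ D1, |m.1| ≤ ((B + v₁.natAbs * B : ℕ) : ℤ) ∧ m.2 0 ≤ B ∧ m.2 1 ≤ B := by
    rintro m ⟨h0, h0', t, t', htt, hb, hb'⟩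
    have g1 := hB _ hb
    have g1' := hB _ hb'
    simp only at g1 g1'
    obtain ⟨g2, g3⟩ := g1
    have g4 := g3 0
    have g5 := g3 1
    have g4' := g1'.2 0
    rw [Function.update_self] at g4 g4'
    rw [Function.update_of_ne (by decide)] at g5
    have g6 : |v₁ * t| ≤ |v₁| * B := by
      rw [abs_mul, abs_of_nonneg g4.1]
      exact mul_le_mul_of_nonneg_left g4.2 (abs_nonneg _)
    have e : ((v₁.natAbs : ℕ) : ℤ) = |v₁| := Int.natCast_natAbs v₁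
    refine ⟨?_, by omega, by omega⟩
    have g8 : |m.1| ≤ |m.1 - v₁ * t| + |v₁ * t| := by
      have := abs_add_le (m.1 - v₁ * t) (v₁ * t)
      rwa [sub_add_cancel] at this
    push_cast
    rw [← Int.abs_eq_natAbs] at *
    linarith
  refine EmpS_flatC (D' := D1) 0 v₁ (B := B) (fun m hm => ⟨(hB m hm).1, (hB m hm).2 0⟩) ?_ ?_
  · intro x c k hk T hT hTD
    obtain ⟨t, ht, t', ht', htt⟩ := min_max_diff hk hT
    have g1 := (hB _ (hTD t ht)).2 1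
    simp only at g1
    rw [Function.update_of_ne (by decide)] at g1
    refine ⟨?_, ?_, t, t', ?_, ?_, ?_⟩
    · simpa using hk
    · simp only
      rw [Function.update_of_ne (by decide)]
      exact g1.1
    · simpa using htt
    · simp only [Function.update_idem]
      exact hTD t ht
    · simp only [Function.update_idem]
      exact hTD t' ht'
  refine EmpS_flatC (D' := D2) 1 v₂ (B := B + v₁.natAbs * B) ?_ ?_ ?_
  · intro m hm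
    obtain ⟨g1, g2, g3⟩ := hB1 m hm
    refine ⟨g1, hm.2.1, ?_⟩
    have : (0 : ℤ) ≤ ((v₁.natAbs * B : ℕ) : ℤ) := by positivity
    push_cast at this ⊢
    linarith
  · intro x c k hk T hT hTD
    obtain ⟨t, ht, t', ht', htt⟩ := min_max_diff hk hT
    have g1 := (hTD t ht).1
    simp only at g1
    rw [Function.update_of_ne (by decide)] at g1
    refine ⟨?_, ?_, t, t', ?_, ?_, ?_⟩
    · simp only
      rw [Function.update_of_ne (by decide)]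
      exact g1
    · simpa using hk
    · simpa using htt
    · simp only [Function.update_idem]
      exact hTD t ht
    · simp only [Function.update_idem]
      exact hTD t' ht'
  -- bounds for `D2`
  set B2 : ℕ := (B + v₁.natAbs * B) + v₂.natAbs * B with hB2
  have hbd2 : ∀ m ∈ D2, |m.1| ≤ B2 ∧ ∀ j, 0 ≤ m.2 j ∧ m.2 j ≤ B2 := by
    rintro m ⟨h0, h0', b, b', hbb, hb, hb'⟩
    obtain ⟨g1, g2, g3⟩ := hB1 _ hb
    obtain ⟨g1', g2', g3'⟩ := hB1 _ hb'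
    have g4 := hb.2.1
    simp only at g1 g2 g3 g1' g2' g3' g4
    rw [Function.update_self] at g3 g3' g4
    rw [Function.update_of_ne (by decide)] at g2
    have g6 : |v₂ * b| ≤ |v₂| * B := by
      rw [abs_mul, abs_of_nonneg g4]
      exact mul_le_mul_of_nonneg_left g3 (abs_nonneg _)
    have e : ((v₁.natAbs : ℕ) : ℤ) = |v₁| := Int.natCast_natAbs v₁
    have e' : ((v₂.natAbs : ℕ) : ℤ) = |v₂| := Int.natCast_natAbs v₂
    have g7 : (0 : ℤ) ≤ |v₂| * B := mul_nonneg (abs_nonneg _) (by positivity)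
    have hB2' : (B2 : ℤ) = B + |v₁| * B + |v₂| * B := by
      rw [hB2]
      push_cast
      ring
    have hBle : (B : ℤ) ≤ B2 := by rw [hB2']; linarith
    push_cast at g1
    refine ⟨?_, fun j => ?_⟩
    · have g8 : |m.1| ≤ |m.1 - v₂ * b| + |v₂ * b| := by
        have := abs_add_le (m.1 - v₂ * b) (v₂ * b)
        rwa [sub_add_cancel] at this
      rw [hB2']
      linarith
    · fin_cases j
      · simp only [Fin.zero_eta]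
        exact ⟨h0, by linarith⟩
      · simp only [Fin.mk_one]
        exact ⟨h0', by linarith⟩
  -- the rows
  have hrow' : ∀ (κ : Fin 2 → ℕ) (x : ℤ), ((x, fun i => (κ i : ℤ)) : ℤ × (Fin 2 → ℤ)) ∈ D2 →
      (∃ b : ℕ, K₂ * κ 1 ≤ (x : ℝ) - (-(M * τ) + K₁ * κ 0) - K₂ * b ∧
        ((x : ℝ) - (-(M * τ) + K₁ * κ 0) - K₂ * b) -
          (K₁ - σ₀) * ⌊((x : ℝ) - (-(M * τ) + K₁ * κ 0) - K₂ * b) / K₁⌋ ≤
          M - K₁ * κ 0 - σ₁ * b) ∨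
      (κ 0 = 0 ∧ ∃ t b : ℤ, 0 ≤ b ∧ Xs (M - σ₀ * t - σ₁ * b) ((x : ℝ) - v₂ * b - v₁ * t) ∧
        K₂ * κ 1 - 3 ≤ K₁ * t ∧ K₁ * t ≤ K₂ * (κ 1 + 2) + 1) := by
    rintro κ x ⟨_, _, b, b', hbb, hb, hb'⟩
    simp only at hbb hb hb'
    obtain ⟨_, f2, t, t', ht, f3, f4⟩ := hb
    obtain ⟨_, f2', u, u', hu, f3', f4'⟩ := hb'
    simp only [Function.update_self, Function.update_of_ne (by decide : (0 : Fin 2) ≠ 1)] at f2 ht
    simp only [Function.update_self, Function.update_of_ne (by decide : (0 : Fin 2) ≠ 1)] at f2' hu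
    obtain ⟨p1, p2⟩ := f3
    obtain ⟨_, p4⟩ := f4
    obtain ⟨p5, p6⟩ := f3'
    obtain ⟨_, p8⟩ := f4'
    have p1 := p1 0
    have p5 := p5 0
    simp only [Fin.sum_univ_two, Function.update_self, hs₀, hs₁,
      Function.update_of_ne (by decide : (1 : Fin 2) ≠ 0)] at p1 p2 p4 p5 p6 p8
    have res := row_anal (M := M) h0 hτ hσ₁ hσσ hK hK₁ hK₂ hKK (x := x) (Int.natCast_nonneg (κ 0))
      (Int.natCast_nonneg (κ 1)) f2 p1 p5 hbb ht hu p2 p4 p6 p8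
    push_cast at res
    rcases res with res | ⟨res1, res2⟩
    · exact Or.inl res
    · exact Or.inr ⟨by exact_mod_cast res1, res2⟩
  -- the number of elements of the rows
  set NN : (Fin 2 → ℕ) → ℕ := fun κ => ((Icc (-(B2 : ℤ)) B2).filter
    fun x => ((x, fun i => (κ i : ℤ)) : ℤ × (Fin 2 → ℤ)) ∈ D2).card with hNN
  refine EmpS_sort (N := NN) hbd2 ?_ ?_
  · intro κ T hT
    apply card_le_card
    intro t ht
    rw [mem_filter, mem_Icc]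
    have g1 := (hbd2 _ (hT t ht)).1
    simp only at g1
    exact ⟨abs_le.1 g1, hT t ht⟩
  have hmem : ∀ κ : Fin 2 → ℕ, ∀ x ∈ (Icc (-(B2 : ℤ)) B2).filter
      (fun x => ((x, fun i => (κ i : ℤ)) : ℤ × (Fin 2 → ℤ)) ∈ D2),
      ((x, fun i => (κ i : ℤ)) : ℤ × (Fin 2 → ℤ)) ∈ D2 := fun κ x hx => (mem_filter.1 hx).2
  -- the regular elements
  obtain ⟨RP, hRP⟩ : ∃ RP : (Fin 2 → ℕ) → ℤ → Prop, RP = fun (κ : Fin 2 → ℕ) (x : ℤ) =>
      ∃ b : ℕ, K₂ * κ 1 ≤ (x : ℝ) - (-(M * τ) + K₁ * κ 0) - K₂ * b ∧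
        ((x : ℝ) - (-(M * τ) + K₁ * κ 0) - K₂ * b) -
          (K₁ - σ₀) * ⌊((x : ℝ) - (-(M * τ) + K₁ * κ 0) - K₂ * b) / K₁⌋ ≤
          M - K₁ * κ 0 - σ₁ * b := ⟨_, rfl⟩
  have hsplit : ∀ κ : Fin 2 → ℕ, ((NN κ : ℕ) : ℝ) ≤ ((((Icc (-(B2 : ℤ)) B2).filter
      (fun x => ((x, fun i => (κ i : ℤ)) : ℤ × (Fin 2 → ℤ)) ∈ D2)).filter (RP κ)).card : ℝ) +
      (4 * (K₂ / K₁) + 4) := by
    intro κ
    have g1 := card_filter_add_card_filter_not (s := (Icc (-(B2 : ℤ)) B2).filter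
      (fun x => ((x, fun i => (κ i : ℤ)) : ℤ × (Fin 2 → ℤ)) ∈ D2)) (RP κ)
    have g2 := shell_card (M := M) (K₁ := K₁) (K₂ := K₂) (σ₀ := σ₀) (v₁ := v₁) (v₂ := v₂) (k := κ 1) hσ₁
      (by linarith) hK₂0.le (((Icc (-(B2 : ℤ)) B2).filter
      (fun x => ((x, fun i => (κ i : ℤ)) : ℤ × (Fin 2 → ℤ)) ∈ D2)).filter fun x => ¬ RP κ x) (by
        intro x hx
        rw [mem_filter] at hx
        rcases hrow' κ x (hmem κ x hx.1) with h | ⟨_, t, b, _, h⟩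
        · exact absurd (by rw [hRP]; exact h) hx.2
        · exact ⟨t, b, h⟩)
    rw [hNN]
    simp only
    rw [← g1]
    push_cast
    linarith
  have hmemR : ∀ κ : Fin 2 → ℕ, ∀ x ∈ ((Icc (-(B2 : ℤ)) B2).filter
      (fun x => ((x, fun i => (κ i : ℤ)) : ℤ × (Fin 2 → ℤ)) ∈ D2)).filter (RP κ),
      ∃ b : ℕ, K₂ * κ 1 ≤ (x : ℝ) - (-(M * τ) + K₁ * κ 0) - K₂ * b ∧
        ((x : ℝ) - (-(M * τ) + K₁ * κ 0) - K₂ * b) -
          (K₁ - σ₀) * ⌊((x : ℝ) - (-(M * τ) + K₁ * κ 0) - K₂ * b) / K₁⌋ ≤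
          M - K₁ * κ 0 - σ₁ * b := by
    intro κ x hx
    have := (mem_filter.1 hx).2
    rw [hRP] at this
    exact this
  refine EmpS_two hcard hs hq h1 h2 h3 ?_ ?_ ?_
  · -- rows below the level `m`
    intro κ hκ
    have hκr : (κ 0 : ℝ) + κ 1 ≤ m - 1 := by
      have : ((κ 0 + κ 1 + 1 : ℕ) : ℝ) ≤ m := by exact_mod_cast hκ
      push_cast at this
      linarith
    set q₀ : ℤ := ⌊K₂ * κ 1 / K₁⌋ with hq₀
    have hq1 := Int.floor_le (K₂ * κ 1 / K₁)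
    have hq2 := Int.lt_floor_add_one (K₂ * κ 1 / K₁)
    rw [← hq₀, le_div_iff₀ hK₁0] at hq1
    rw [← hq₀, div_lt_iff₀ hK₁0] at hq2
    have hq3 : σ₀ * q₀ ≤ K₁ * κ 1 := by
      have g1 : σ₀ * (q₀ * K₁) ≤ σ₀ * (K₂ * κ 1) := mul_le_mul_of_nonneg_left hq1 hσ₀.le
      have g2 : (σ₀ * q₀) * K₁ ≤ (K₁ * κ 1) * K₁ := by
        have : σ₀ * (K₂ * κ 1) = K₁ ^ 2 * κ 1 := by rw [hKK]; ring
        nlinarith
      exact le_of_mul_le_mul_right g2 hK₁0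
    have hYge : W - K₁ * (m - 1) ≤ W - K₁ * κ 0 - σ₀ * q₀ := by
      have : K₁ * (κ 0 + κ 1) ≤ K₁ * (m - 1) := mul_le_mul_of_nonneg_left hκr hK₁0.le
      linarith
    have hup := valid_upper (c := -(M * τ) + K₁ * κ 0 + K₁ * q₀) (Y := W - K₁ * κ 0 - σ₀ * q₀)
      (α := K₂ * κ 1 - K₁ * q₀) (K := K₁) (by linarith) (by linarith) hK₂0 hσ₀ hσK hσ₁0 hKK hη hB₀
      (by linarith) (by linarith) (((Icc (-(B2 : ℤ)) B2).filter
      (fun x => ((x, fun i => (κ i : ℤ)) : ℤ × (Fin 2 → ℤ)) ∈ D2)).filter (RP κ)) (by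
      intro x hx
      obtain ⟨b, g1, g2⟩ := hmemR κ x hx
      set z := (x : ℝ) - (-(M * τ) + K₁ * κ 0) - K₂ * b with hz
      -- move `z` into the window
      set i := ⌊(z - K₂ * κ 1) / K₂⌋.toNat with hi
      have hi0 : 0 ≤ ⌊(z - K₂ * κ 1) / K₂⌋ :=
        Int.floor_nonneg.2 (div_nonneg (by linarith) hK₂0.le)
      have hi1 : ((i : ℕ) : ℤ) = ⌊(z - K₂ * κ 1) / K₂⌋ := Int.toNat_of_nonneg hi0
      have hi2 := Int.floor_le ((z - K₂ * κ 1) / K₂)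
      have hi3 := Int.lt_floor_add_one ((z - K₂ * κ 1) / K₂)
      rw [← hi1] at hi2 hi3
      rw [le_div_iff₀ hK₂0] at hi2
      rw [div_lt_iff₀ hK₂0] at hi3
      push_cast at hi2 hi3
      have g3 := g_steps hK₁0 hσ₀ hσK hσσ hKK (z - K₂ * i) i
      rw [sub_add_cancel] at g3
      have g4 := floor_shift (K := K₁) (z := z - K₂ * i - K₁ * q₀) hK₁0 q₀
      rw [sub_add_cancel] at g4
      have g4' : (⌊(z - K₂ * i) / K₁⌋ : ℝ) = ⌊(z - K₂ * i - K₁ * q₀) / K₁⌋ + q₀ := by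
        exact_mod_cast g4
      have e1 : (x : ℝ) - (-(M * τ) + K₁ * κ 0 + K₁ * q₀ + K₂ * ((b + i : ℕ) : ℝ)) =
          z - K₂ * i - K₁ * q₀ := by
        rw [hz]
        push_cast
        ring
      refine ⟨b + i, ?_, ?_, ?_⟩
      · rw [e1]
        linarith
      · rw [e1]
        linarith
      · rw [e1]
        push_cast
        rw [g4'] at g3
        linarith)
    have e1 : W - K₁ * κ 0 - σ₀ * q₀ - σ₀ * (K₂ * κ 1 - K₁ * q₀) / K₁ =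
        W - K₁ * (κ 0 + κ 1) := by
      have : σ₀ * (K₂ * κ 1 - K₁ * q₀) / K₁ = K₁ * κ 1 - σ₀ * q₀ := by
        rw [mul_sub, ← mul_assoc, ← hKK]
        field_simp
      rw [this]
      ring
    rw [e1] at hup
    have e2 : K₂ / σ₁ * (W - K₁ * (κ 0 + κ 1) + (σ₀ + σ₁) / 2 - K₁) =
        K₂ / σ₁ * (W + (σ₀ + σ₁) / 2) - K₁ * K₂ / σ₁ * (κ 0 + κ 1 + 1) := by
      field_simp
      ring
    rw [e2, hk] at hup
    have h4 : ((NN κ : ℕ) : ℝ) + s ≤ k * (m - (κ 0 + κ 1)) := by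
      have hspl := hsplit κ
      linarith
    have h5 : ((NN κ + s : ℕ) : ℝ) ≤ ((k * (m - (κ 0 + κ 1)) : ℕ) : ℝ) := by
      rw [Nat.cast_mul, Nat.cast_sub hκ.le]
      push_cast
      exact h4
    exact_mod_cast h5
  · -- rows of level `m`
    intro κ hκ
    have hκr : (κ 0 : ℝ) + κ 1 = m := by exact_mod_cast hκ
    have h4 := card_le_of_mem' (S := ((Icc (-(B2 : ℤ)) B2).filter
      (fun x => ((x, fun i => (κ i : ℤ)) : ℤ × (Fin 2 → ℤ)) ∈ D2)).filter (RP κ))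
      (s := -(M * τ) + K₁ * κ 0 + K₂ * κ 1)
      (t := -(M * τ) + K₁ * κ 0 + K₂ * κ 1 + (M - K₁ * m) * K₂ / σ₁) (by
      intro x hx
      obtain ⟨b, g1, g2⟩ := hmemR κ x hx
      set z := (x : ℝ) - (-(M * τ) + K₁ * κ 0) - K₂ * b with hz
      have hb0 : (0 : ℝ) ≤ K₂ * b := by positivity
      refine ⟨by linarith, ?_⟩
      have g3 := saw_ge (z := z) hK₁0 hσK
      have g4 : σ₀ * z / K₁ ≤ M - K₁ * κ 0 - σ₁ * b := g3.trans g2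
      have g5 : K₁ * κ 1 ≤ σ₀ * z / K₁ := by
        rw [le_div_iff₀ hK₁0]
        have : σ₀ * (K₂ * κ 1) ≤ σ₀ * z := mul_le_mul_of_nonneg_left g1 hσ₀.le
        nlinarith
      have g6 : σ₁ * b ≤ M - K₁ * m := by
        rw [← hκr]
        linarith
      -- `K₂ * b ≤ (σ₁ * b) * K₂ / σ₁`
      have g7 : z ≤ (K₁ / σ₀) * (M - K₁ * κ 0 - σ₁ * b) := by
        rw [div_mul_eq_mul_div, le_div_iff₀ hσ₀]
        rw [div_le_iff₀ hK₁0] at g4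
        linarith
      have e3 : K₁ / σ₀ * K₁ = K₂ := by
        rw [div_mul_eq_mul_div, ← sq, hKK]
        field_simp
      have g8 : z + K₂ * b - K₂ * κ 1 ≤ (M - K₁ * m) * K₂ / σ₁ := by
        have e4 : K₂ * κ 1 = K₁ / σ₀ * (K₁ * κ 1) := by
          rw [← mul_assoc, e3]
        have g9 : z - K₂ * κ 1 ≤ K₁ / σ₀ * (M - K₁ * m - σ₁ * b) := by
          rw [e4, ← hκr]
          have : K₁ / σ₀ * (M - K₁ * κ 0 - σ₁ * b) - K₁ / σ₀ * (K₁ * κ 1) =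
              K₁ / σ₀ * (M - K₁ * (κ 0 + κ 1) - σ₁ * b) := by ring
          linarith
        have g10 : K₁ / σ₀ * (M - K₁ * m - σ₁ * b) ≤ K₂ / σ₁ * (M - K₁ * m - σ₁ * b) := by
          apply mul_le_mul_of_nonneg_right _ (by linarith)
          rw [div_le_div_iff₀ hσ₀ hσ₁0]
          have g11 : K₁ * σ₁ ≤ K₁ * K₁ := mul_le_mul_of_nonneg_left (hσσ.trans hσK) hK₁0.le
          nlinarith
        have e5 : K₂ / σ₁ * (M - K₁ * m - σ₁ * b) =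
            (M - K₁ * m) * K₂ / σ₁ - K₂ * b := by
          field_simp
        linarith
      linarith)
    have h5 : ((NN κ : ℕ) : ℝ) ≤ T := by
      have hspl := hsplit κ
      have e6 : -(M * τ) + K₁ * κ 0 + K₂ * κ 1 + (M - K₁ * m) * K₂ / σ₁ -
          (-(M * τ) + K₁ * κ 0 + K₂ * κ 1) = (M - K₁ * m) * K₂ / σ₁ := by ring
      rw [e6] at h4
      linarith
    exact_mod_cast h5
  · -- no rows above the level `m`
    intro κ hκ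
    have hκr : (m : ℝ) + 1 ≤ κ 0 + κ 1 := by
      have : ((m + 1 : ℕ) : ℝ) ≤ ((κ 0 + κ 1 : ℕ) : ℝ) := by exact_mod_cast hκ
      push_cast at this
      linarith
    rw [hNN]
    simp only
    rw [card_eq_zero, eq_empty_iff_forall_notMem]
    intro x hx
    have g7 : K₁ * (m + 1) ≤ K₁ * (κ 0 + κ 1) := mul_le_mul_of_nonneg_left hκr hK₁0.le
    rcases hrow' κ x (hmem κ x hx) with ⟨b, g1, g2⟩ | ⟨hz0, t, b, hb0, ⟨_, _, x3, x4⟩, x5, x6⟩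
    swap
    · -- exceptional elements
      rw [hz0] at g7
      push_cast at g7
      have hb0r : (0 : ℝ) ≤ b := by exact_mod_cast hb0
      have y1 : 0 ≤ σ₁ * b := mul_nonneg hσ₁0.le hb0r
      have y2 : σ₀ * t ≤ M + 3 := by linarith
      have y3 : K₁ * (σ₀ * t) ≤ K₁ * (M + 3) := mul_le_mul_of_nonneg_left y2 hK₁0.le
      have y4 : σ₀ * (K₂ * κ 1 - 3) ≤ σ₀ * (K₁ * t) := mul_le_mul_of_nonneg_left x5 hσ₀.le
      have y5 : σ₀ * (K₂ * κ 1) = K₁ ^ 2 * κ 1 := by rw [hKK]; ring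
      have y6 : K₁ * (K₁ * κ 1) ≤ K₁ * (M + 5) := by linarith
      have y7 := le_of_mul_le_mul_left y6 hK₁0
      linarith
    set z := (x : ℝ) - (-(M * τ) + K₁ * κ 0) - K₂ * b with hz
    have g3 := saw_ge (z := z) hK₁0 hσK
    have g4 : σ₀ * z / K₁ ≤ M - K₁ * κ 0 - σ₁ * b := g3.trans g2
    have g5 : K₁ * κ 1 ≤ σ₀ * z / K₁ := by
      rw [le_div_iff₀ hK₁0]
      have : σ₀ * (K₂ * κ 1) ≤ σ₀ * z := mul_le_mul_of_nonneg_left g1 hσ₀.le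
      nlinarith
    have g6 : (0 : ℝ) ≤ σ₁ * b := by positivity
    linarith

end Pool.Agent.H35.SQ
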