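import Mathlib
import Pool.Agent.H35.SP.Cnt3

set_option autoImplicit false

/-! # The number of elements of the rows of the highest level -/

namespace Pool.Agent.H35.SQ

open Finset Pool.Agent.H35.SP

/-- the number of the integers in an interval of length `v` -/
noncomputable def ff (v : ℝ) : ℝ := if v < 0 then 0 else v + 1

/-- the sum over one index -/
noncomputable def gg (σ₀ v : ℝ) : ℝ := if v < 0 then 0 else (v + σ₀ / 2 + 1) ^ 2 / (2 * σ₀)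

/-- the sum over both indices -/
noncomputable def hh (σ₀ σ₁ v : ℝ) : ℝ :=
  if v < 0 then 0 else (v + σ₀ / 2 + 1 + σ₁ / 2) ^ 3 / (6 * σ₀ * σ₁)

theorem ff_nonneg (v : ℝ) : 0 ≤ ff v := by
  unfold ff
  split_ifs with h
  · exact le_rfl
  · linarith

theorem gg_nonneg {σ₀ : ℝ} (h0 : 0 < σ₀) (v : ℝ) : 0 ≤ gg σ₀ v := by
  unfold gg
  split_ifs with h
  · exact le_rfl
  · positivity

theorem hh_nonneg {σ₀ σ₁ : ℝ} (h0 : 0 < σ₀) (h1 : 0 < σ₁) (v : ℝ) : 0 ≤ hh σ₀ σ₁ v := by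
  unfold hh
  split_ifs with h
  · exact le_rfl
  · have : 0 ≤ v := not_lt.1 h
    positivity

theorem ff_step {σ₀ : ℝ} (h0 : 0 < σ₀) (v : ℝ) : ff v + gg σ₀ (v - σ₀) ≤ gg σ₀ v := by
  unfold ff gg
  by_cases h : v < 0
  · rw [if_pos h, if_pos h, if_pos (by linarith)]
    linarith
  · rw [if_neg h, if_neg h]
    push Not at h
    by_cases h' : v - σ₀ < 0
    · rw [if_pos h', add_zero, le_div_iff₀ (by positivity)]
      nlinarith [sq_nonneg (v + 1 - σ₀ / 2)]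
    · rw [if_neg h', ← sub_nonneg]
      have e : (v + σ₀ / 2 + 1) ^ 2 / (2 * σ₀) -
          (v + 1 + (v - σ₀ + σ₀ / 2 + 1) ^ 2 / (2 * σ₀)) = 0 := by
        field_simp
        ring
      rw [e]

theorem gg_step {σ₀ σ₁ : ℝ} (h0 : 0 < σ₀) (h1 : 0 < σ₁) (v : ℝ) :
    gg σ₀ v + hh σ₀ σ₁ (v - σ₁) ≤ hh σ₀ σ₁ v := by
  unfold gg hh
  by_cases h : v < 0
  · rw [if_pos h, if_pos h, if_pos (by linarith)]
    linarith
  · rw [if_neg h, if_neg h]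
    push Not at h
    obtain ⟨a, ha⟩ : ∃ a, a = v + σ₀ / 2 + 1 := ⟨_, rfl⟩
    have ha0 : 0 ≤ a := by rw [ha]; positivity
    rw [← ha]
    by_cases h' : v - σ₁ < 0
    · rw [if_pos h', add_zero, div_le_div_iff₀ (by positivity) (by positivity)]
      have g1 : 3 * σ₁ * a ^ 2 ≤ (a + σ₁ / 2) ^ 3 := by
        have g2 : (a + σ₁ / 2) ^ 3 - 3 * σ₁ * a ^ 2 = a * (a - 3 / 4 * σ₁) ^ 2 +
            3 / 16 * σ₁ ^ 2 * a + σ₁ ^ 3 / 8 := by ring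
        have : 0 ≤ a * (a - 3 / 4 * σ₁) ^ 2 + 3 / 16 * σ₁ ^ 2 * a + σ₁ ^ 3 / 8 := by positivity
        linarith
      have g3 := mul_le_mul_of_nonneg_right g1 (show 0 ≤ 2 * σ₀ by positivity)
      linarith
    · rw [if_neg h', ← sub_nonneg]
      have e : (a + σ₁ / 2) ^ 3 / (6 * σ₀ * σ₁) - (a ^ 2 / (2 * σ₀) +
          (v - σ₁ + σ₀ / 2 + 1 + σ₁ / 2) ^ 3 / (6 * σ₀ * σ₁)) = σ₁ ^ 2 / (24 * σ₀) := by
        have e' : v - σ₁ + σ₀ / 2 + 1 + σ₁ / 2 = a - σ₁ / 2 := by rw [ha]; ring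
        rw [e']
        field_simp
        ring
      rw [e]
      positivity

theorem sum_ff {σ₀ : ℝ} (h0 : 0 < σ₀) (I : ℕ) : ∀ v : ℝ,
    ∑ i ∈ range I, ff (v - σ₀ * i) ≤ gg σ₀ v := by
  induction I with
  | zero => intro v; simpa using gg_nonneg h0 v
  | succ I ih =>
    intro v
    rw [sum_range_succ']
    have h1 := ih (v - σ₀)
    have h2 := ff_step h0 v
    have e : ∑ i ∈ range I, ff (v - σ₀ * ((i + 1 : ℕ) : ℝ)) =
        ∑ i ∈ range I, ff (v - σ₀ - σ₀ * i) := by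
      apply sum_congr rfl
      intro i _
      congr 1
      push_cast
      ring
    rw [e]
    simp only [Nat.cast_zero, mul_zero, sub_zero]
    linarith

theorem sum_gg {σ₀ σ₁ : ℝ} (h0 : 0 < σ₀) (h1 : 0 < σ₁) (B : ℕ) : ∀ v : ℝ,
    ∑ b ∈ range B, gg σ₀ (v - σ₁ * b) ≤ hh σ₀ σ₁ v := by
  induction B with
  | zero => intro v; simpa using hh_nonneg h0 h1 v
  | succ B ih =>
    intro v
    rw [sum_range_succ']
    have h3 := ih (v - σ₁)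
    have h2 := gg_step h0 h1 v
    have e : ∑ i ∈ range B, gg σ₀ (v - σ₁ * ((i + 1 : ℕ) : ℝ)) =
        ∑ i ∈ range B, gg σ₀ (v - σ₁ - σ₁ * i) := by
      apply sum_congr rfl
      intro i _
      congr 1
      push_cast
      ring
    rw [e]
    simp only [Nat.cast_zero, mul_zero, sub_zero]
    linarith

/-- the number of integers in a doubly flattened row of small width -/
theorem top_count {α K₂ K σ₀ σ₁ Y c : ℝ} (hα0 : 0 ≤ α) (hK : 0 < K) (hσ₀ : 0 < σ₀)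
    (hσ₁ : 0 < σ₁) (S : Finset ℤ) (hS : ∀ x ∈ S, ∃ b : ℕ, Val c K₂ α K σ₀ σ₁ Y x b) :
    (S.card : ℝ) ≤ (max Y 0 + σ₀ / 2 + 1 + σ₁ / 2) ^ 3 / (6 * σ₀ * σ₁) := by
  classical
  have hS' : ∀ x : ℤ, ∃ b i : ℕ, x ∈ S → (c + K₂ * b + K * i ≤ x ∧
      (x : ℝ) ≤ c + K₂ * b + K * i + (Y - σ₁ * b - σ₀ * i)) := by
    intro x
    by_cases hx : x ∈ S
    · obtain ⟨b, g1, g2, g3⟩ := hS x hx
      obtain ⟨z, hz⟩ : ∃ z : ℝ, z = (x : ℝ) - (c + K₂ * b) := ⟨_, rfl⟩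
      rw [← hz] at g1 g2 g3
      have hz0 : 0 ≤ z := hα0.trans g1
      have hi0 : 0 ≤ ⌊z / K⌋ := Int.floor_nonneg.2 (div_nonneg hz0 hK.le)
      refine ⟨b, ⌊z / K⌋.toNat, fun _ => ?_⟩
      have e : ((⌊z / K⌋.toNat : ℕ) : ℝ) = ⌊z / K⌋ := by
        have : ((⌊z / K⌋.toNat : ℕ) : ℤ) = ⌊z / K⌋ := Int.toNat_of_nonneg hi0
        exact_mod_cast this
      rw [e]
      have g4 := Int.floor_le (z / K)
      rw [le_div_iff₀ hK] at g4
      constructor <;> linarith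
    · exact ⟨0, 0, fun h => absurd h hx⟩
  choose b i hbi using hS'
  obtain ⟨B, hB⟩ : ∃ B : ℕ, ∀ x ∈ S, b x < B := by
    refine ⟨S.sup b + 1, fun x hx => Nat.lt_succ_of_le (le_sup (f := b) hx)⟩
  obtain ⟨I, hI⟩ : ∃ I : ℕ, ∀ x ∈ S, i x < I := by
    refine ⟨S.sup i + 1, fun x hx => Nat.lt_succ_of_le (le_sup (f := i) hx)⟩
  -- the intervals
  have hsub : S ⊆ (range B ×ˢ range I).biUnion fun p =>
      Icc ⌈c + K₂ * (p.1 : ℝ) + K * p.2⌉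
        ⌊c + K₂ * (p.1 : ℝ) + K * p.2 + (Y - σ₁ * p.1 - σ₀ * p.2)⌋ := by
    intro x hx
    rw [mem_biUnion]
    refine ⟨(b x, i x), ?_, ?_⟩
    · rw [mem_product, mem_range, mem_range]
      exact ⟨hB x hx, hI x hx⟩
    · rw [mem_Icc]
      obtain ⟨g1, g2⟩ := hbi x hx
      exact ⟨Int.ceil_le.2 g1, Int.le_floor.2 g2⟩
  have h1 := (card_le_card hsub).trans card_biUnion_le
  have h2 : ∀ p : ℕ × ℕ, ((Icc ⌈c + K₂ * (p.1 : ℝ) + K * p.2⌉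
        ⌊c + K₂ * (p.1 : ℝ) + K * p.2 + (Y - σ₁ * p.1 - σ₀ * p.2)⌋).card : ℝ) ≤
      ff (Y - σ₁ * p.1 - σ₀ * p.2) := by
    intro p
    rw [Int.card_Icc]
    unfold ff
    have f1 := Int.le_ceil (c + K₂ * (p.1 : ℝ) + K * p.2)
    have f2 := Int.floor_le (c + K₂ * (p.1 : ℝ) + K * p.2 + (Y - σ₁ * p.1 - σ₀ * p.2))
    obtain ⟨lo, hlo⟩ : ∃ lo, lo = ⌈c + K₂ * (p.1 : ℝ) + K * p.2⌉ := ⟨_, rfl⟩
    obtain ⟨hi, hhi⟩ : ∃ hi,
      hi = ⌊c + K₂ * (p.1 : ℝ) + K * p.2 + (Y - σ₁ * p.1 - σ₀ * p.2)⌋ := ⟨_, rfl⟩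
    rw [← hlo] at f1 ⊢
    rw [← hhi] at f2 ⊢
    split_ifs with hneg
    · have : (hi : ℝ) < lo := by linarith
      have h3 : hi < lo := by exact_mod_cast this
      have h4 : (hi + 1 - lo).toNat = 0 := by omega
      rw [h4]
      norm_num
    · push Not at hneg
      rcases le_or_gt (hi + 1 - lo) 0 with h | h
      · rw [Int.toNat_of_nonpos h]
        push_cast
        linarith
      · have e : (((hi + 1 - lo).toNat : ℕ) : ℤ) = hi + 1 - lo := Int.toNat_of_nonneg h.le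
        have e' : (((hi + 1 - lo).toNat : ℕ) : ℝ) = hi + 1 - lo := by exact_mod_cast e
        rw [e']
        linarith
  have h3 : (S.card : ℝ) ≤ ∑ p ∈ range B ×ˢ range I, ff (Y - σ₁ * (p.1 : ℝ) - σ₀ * p.2) := by
    have h4 : (S.card : ℝ) ≤ ∑ p ∈ range B ×ˢ range I, ((Icc ⌈c + K₂ * (p.1 : ℝ) + K * p.2⌉
        ⌊c + K₂ * (p.1 : ℝ) + K * p.2 + (Y - σ₁ * p.1 - σ₀ * p.2)⌋).card : ℝ) := by
      exact_mod_cast h1
    exact h4.trans (sum_le_sum fun p _ => h2 p)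
  rw [sum_product] at h3
  have h4 : ∑ x ∈ range B, ∑ y ∈ range I, ff (Y - σ₁ * (x : ℝ) - σ₀ * y) ≤
      ∑ x ∈ range B, gg σ₀ (Y - σ₁ * (x : ℝ)) :=
    sum_le_sum fun x _ => sum_ff hσ₀ I _
  have h5 := sum_gg hσ₀ hσ₁ B Y
  refine (h3.trans (h4.trans h5)).trans ?_
  unfold hh
  split_ifs with hneg
  · positivity
  · push Not at hneg
    rw [max_eq_left hneg]

end Pool.Agent.H35.SQ
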