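import Mathlib
import Pool.Agent.H35.SQ.DblP
import Pool.Agent.H35.SQ.Top

set_option autoImplicit false

/-! # Double flattening with exceptional exponents, precise count, any redistribution of the rows -/

namespace Pool.Agent.H35.SQ

open Finset Pool.Agent.TH3.IR Pool.Agent.H35.SP

theorem EmpS_doubleR {ι : Type} {m k s T : ℕ} {τ M : ℝ} {sg : Fin 2 → ℝ}
    (h0 : 0 < τ) (hτ : τ ≤ 1 / 12) {v₁ v₂ : ℤ}
    {K₁ K₂ σ₀ σ₁ η B₀ W : ℝ} {N : ℤ} (hK₁ : σ₀ * τ + v₁ = K₁) (hK₂ : σ₁ * τ + v₂ = K₂)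
    (hs₀ : sg 0 = σ₀) (hs₁ : sg 1 = σ₁) (hσ₁ : 6 < σ₁) (hσσ : σ₁ ≤ σ₀) (hK : 2 * σ₀ + 8 ≤ K₁)
    (hKK : K₁ ^ 2 = σ₀ * K₂) (hη : K₂ = N * K₁ + η) (hk : K₁ * K₂ / σ₁ = k)
    (hWle : M ≤ W)
    (hm : K₂ / σ₁ * (W + (σ₀ + σ₁) / 2) + (K₁ - σ₀) * |η| / (2 * σ₁) +
        ((K₂ / K₁ + 2) * (K₁ / σ₁ + 1 + σ₁ / 8 + B₀ ^ 2 / (2 * σ₁)) + (2 * K₁ + σ₀) / σ₁ + 2) +
        (4 * (K₂ / K₁) + 4) + s ≤ k * (m + 1))
    (hB₀ : 0 ≤ B₀) (hW1 : 0 ≤ W - K₁ * (m - 1))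
    (hW2 : 2 * K₁ + σ₀ - B₀ ≤ W - K₁ * (m - 1))
    (hT : (max (M - K₁ * m + σ₀) 0 + σ₀ / 2 + 1 + σ₁ / 2) ^ 3 / (6 * σ₀ * σ₁) +
      (4 * (K₂ / K₁) + 4) ≤ T)
    (hW3 : M + 5 < K₁ * (m + 1))
    (hfin : ∀ N : (Fin 2 → ℕ) → ℕ, (∀ κ, κ 0 + κ 1 < m → N κ + s ≤ k * (m - (κ 0 + κ 1))) →
      (∀ κ, κ 0 + κ 1 = m → N κ ≤ T) → (∀ κ, m < κ 0 + κ 1 → N κ = 0) →
        EmpS (fun _ : ι => m) (Srt N)) :
    EmpS (fun _ : ι => m) (DW τ M sg) := by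
  classical
  have hσ₁0 : 0 < σ₁ := by linarith
  have hσ₀ : 0 < σ₀ := lt_of_lt_of_le hσ₁0 hσσ
  have hσK : σ₀ ≤ K₁ := by linarith
  have hK₁0 : 0 < K₁ := lt_of_lt_of_le hσ₀ hσK
  have hK₂0 : 0 < K₂ := by
    by_contra hcon
    have : σ₀ * K₂ ≤ 0 := mul_nonpos_of_nonneg_of_nonpos hσ₀.le (not_lt.1 hcon)
    have : 0 < K₁ ^ 2 := by positivity
    linarith
  have hKK0 : 0 ≤ K₂ / K₁ := div_nonneg hK₂0.le hK₁0.le
  have hsg : ∀ i, 0 < sg i := by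
    intro i
    fin_cases i
    · simp only [Fin.zero_eta]
      rw [hs₀]; exact hσ₀
    · simp only [Fin.mk_one]
      rw [hs₁]; exact hσ₁0
  obtain ⟨B, hB⟩ := DW_bounded (M := M) h0 hτ hsg
  set D : Set (ℤ × (Fin 2 → ℤ)) := DW τ M sg with hD
  set D1 : Set (ℤ × (Fin 2 → ℤ)) := {m | 0 ≤ m.2 0 ∧ 0 ≤ m.2 1 ∧ ∃ t t' : ℤ, t + m.2 0 ≤ t' ∧
      (m.1 - v₁ * t, Function.update m.2 0 t) ∈ D ∧
      (m.1 - v₁ * t', Function.update m.2 0 t') ∈ D} with hD1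
  set D2 : Set (ℤ × (Fin 2 → ℤ)) := {m | 0 ≤ m.2 0 ∧ 0 ≤ m.2 1 ∧ ∃ b b' : ℤ, b + m.2 1 ≤ b' ∧
      (m.1 - v₂ * b, Function.update m.2 1 b) ∈ D1 ∧
      (m.1 - v₂ * b', Function.update m.2 1 b') ∈ D1} with hD2
  have hvB : (0 : ℤ) ≤ |v₁| * (B : ℤ) := mul_nonneg (abs_nonneg _) (by positivity)
  -- bounds for `D1`
  have hB1 : ∀ m ∈ D1, |m.1| ≤ ((B + v₁.natAbs * B : ℕ) : ℤ) ∧ m.2 0 ≤ B ∧ m.2 1 ≤ B := by
    rintro m ⟨h0, h0', t, t', htt, hb, hb'⟩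
    have g1 := hB _ hb
    have g1' := hB _ hb'
    simp only at g1 g1'
    obtain ⟨g2, g3⟩ := g1
    have g4 := g3 0
    have g5 := g3 1
    have g4' := g1'.2 0
    rw [Function.update_self] at g4 g4'
    rw [Function.update_of_ne (by decide)] at g5
    have g6 : |v₁ * t| ≤ |v₁| * B := by
      rw [abs_mul, abs_of_nonneg g4.1]
      exact mul_le_mul_of_nonneg_left g4.2 (abs_nonneg _)
    have e : ((v₁.natAbs : ℕ) : ℤ) = |v₁| := Int.natCast_natAbs v₁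
    refine ⟨?_, by omega, by omega⟩
    have g8 : |m.1| ≤ |m.1 - v₁ * t| + |v₁ * t| := by
      have := abs_add_le (m.1 - v₁ * t) (v₁ * t)
      rwa [sub_add_cancel] at this
    push_cast
    rw [← Int.abs_eq_natAbs] at *
    linarith
  refine EmpS_flatC (D' := D1) 0 v₁ (B := B) (fun m hm => ⟨(hB m hm).1, (hB m hm).2 0⟩) ?_ ?_
  · intro x c k hk T hT hTD
    obtain ⟨t, ht, t', ht', htt⟩ := min_max_diff hk hT
    have g1 := (hB _ (hTD t ht)).2 1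
    simp only at g1
    rw [Function.update_of_ne (by decide)] at g1
    refine ⟨?_, ?_, t, t', ?_, ?_, ?_⟩
    · simpa using hk
    · simp only
      rw [Function.update_of_ne (by decide)]
      exact g1.1
    · simpa using htt
    · simp only [Function.update_idem]
      exact hTD t ht
    · simp only [Function.update_idem]
      exact hTD t' ht'
  refine EmpS_flatC (D' := D2) 1 v₂ (B := B + v₁.natAbs * B) ?_ ?_ ?_
  · intro m hm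
    obtain ⟨g1, g2, g3⟩ := hB1 m hm
    refine ⟨g1, hm.2.1, ?_⟩
    have : (0 : ℤ) ≤ ((v₁.natAbs * B : ℕ) : ℤ) := by positivity
    push_cast at this ⊢
    linarith
  · intro x c k hk T hT hTD
    obtain ⟨t, ht, t', ht', htt⟩ := min_max_diff hk hT
    have g1 := (hTD t ht).1
    simp only at g1
    rw [Function.update_of_ne (by decide)] at g1
    refine ⟨?_, ?_, t, t', ?_, ?_, ?_⟩
    · simp only
      rw [Function.update_of_ne (by decide)]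
      exact g1
    · simpa using hk
    · simpa using htt
    · simp only [Function.update_idem]
      exact hTD t ht
    · simp only [Function.update_idem]
      exact hTD t' ht'
  -- bounds for `D2`
  set B2 : ℕ := (B + v₁.natAbs * B) + v₂.natAbs * B with hB2
  have hbd2 : ∀ m ∈ D2, |m.1| ≤ B2 ∧ ∀ j, 0 ≤ m.2 j ∧ m.2 j ≤ B2 := by
    rintro m ⟨h0, h0', b, b', hbb, hb, hb'⟩
    obtain ⟨g1, g2, g3⟩ := hB1 _ hb
    obtain ⟨g1', g2', g3'⟩ := hB1 _ hb'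
    have g4 := hb.2.1
    simp only at g1 g2 g3 g1' g2' g3' g4
    rw [Function.update_self] at g3 g3' g4
    rw [Function.update_of_ne (by decide)] at g2
    have g6 : |v₂ * b| ≤ |v₂| * B := by
      rw [abs_mul, abs_of_nonneg g4]
      exact mul_le_mul_of_nonneg_left g3 (abs_nonneg _)
    have e : ((v₁.natAbs : ℕ) : ℤ) = |v₁| := Int.natCast_natAbs v₁
    have e' : ((v₂.natAbs : ℕ) : ℤ) = |v₂| := Int.natCast_natAbs v₂
    have g7 : (0 : ℤ) ≤ |v₂| * B := mul_nonneg (abs_nonneg _) (by positivity)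
    have hB2' : (B2 : ℤ) = B + |v₁| * B + |v₂| * B := by
      rw [hB2]
      push_cast
      ring
    have hBle : (B : ℤ) ≤ B2 := by rw [hB2']; linarith
    push_cast at g1
    refine ⟨?_, fun j => ?_⟩
    · have g8 : |m.1| ≤ |m.1 - v₂ * b| + |v₂ * b| := by
        have := abs_add_le (m.1 - v₂ * b) (v₂ * b)
        rwa [sub_add_cancel] at this
      rw [hB2']
      linarith
    · fin_cases j
      · simp only [Fin.zero_eta]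
        exact ⟨h0, by linarith⟩
      · simp only [Fin.mk_one]
        exact ⟨h0', by linarith⟩
  -- the rows
  have hrow' : ∀ (κ : Fin 2 → ℕ) (x : ℤ), ((x, fun i => (κ i : ℤ)) : ℤ × (Fin 2 → ℤ)) ∈ D2 →
      (∃ b : ℕ, K₂ * κ 1 ≤ (x : ℝ) - (-(M * τ) + K₁ * κ 0) - K₂ * b ∧
        ((x : ℝ) - (-(M * τ) + K₁ * κ 0) - K₂ * b) -
          (K₁ - σ₀) * ⌊((x : ℝ) - (-(M * τ) + K₁ * κ 0) - K₂ * b) / K₁⌋ ≤
          M - K₁ * κ 0 - σ₁ * b) ∨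
      (κ 0 = 0 ∧ ∃ t b : ℤ, 0 ≤ b ∧ Xs (M - σ₀ * t - σ₁ * b) ((x : ℝ) - v₂ * b - v₁ * t) ∧
        K₂ * κ 1 - 3 ≤ K₁ * t ∧ K₁ * t ≤ K₂ * (κ 1 + 2) + 1) := by
    rintro κ x ⟨_, _, b, b', hbb, hb, hb'⟩
    simp only at hbb hb hb'
    obtain ⟨_, f2, t, t', ht, f3, f4⟩ := hb
    obtain ⟨_, f2', u, u', hu, f3', f4'⟩ := hb'
    simp only [Function.update_self, Function.update_of_ne (by decide : (0 : Fin 2) ≠ 1)] at f2 ht
    simp only [Function.update_self, Function.update_of_ne (by decide : (0 : Fin 2) ≠ 1)] at f2' hu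
    obtain ⟨p1, p2⟩ := f3
    obtain ⟨_, p4⟩ := f4
    obtain ⟨p5, p6⟩ := f3'
    obtain ⟨_, p8⟩ := f4'
    have p1 := p1 0
    have p5 := p5 0
    simp only [Fin.sum_univ_two, Function.update_self, hs₀, hs₁,
      Function.update_of_ne (by decide : (1 : Fin 2) ≠ 0)] at p1 p2 p4 p5 p6 p8
    have res := row_anal (M := M) h0 hτ hσ₁ hσσ hK hK₁ hK₂ hKK (x := x) (Int.natCast_nonneg (κ 0))
      (Int.natCast_nonneg (κ 1)) f2 p1 p5 hbb ht hu p2 p4 p6 p8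
    push_cast at res
    rcases res with res | ⟨res1, res2⟩
    · exact Or.inl res
    · exact Or.inr ⟨by exact_mod_cast res1, res2⟩
  -- the number of elements of the rows
  set NN : (Fin 2 → ℕ) → ℕ := fun κ => ((Icc (-(B2 : ℤ)) B2).filter
    fun x => ((x, fun i => (κ i : ℤ)) : ℤ × (Fin 2 → ℤ)) ∈ D2).card with hNN
  refine EmpS_sort (N := NN) hbd2 ?_ ?_
  · intro κ T hT
    apply card_le_card
    intro t ht
    rw [mem_filter, mem_Icc]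
    have g1 := (hbd2 _ (hT t ht)).1
    simp only at g1
    exact ⟨abs_le.1 g1, hT t ht⟩
  have hmem : ∀ κ : Fin 2 → ℕ, ∀ x ∈ (Icc (-(B2 : ℤ)) B2).filter
      (fun x => ((x, fun i => (κ i : ℤ)) : ℤ × (Fin 2 → ℤ)) ∈ D2),
      ((x, fun i => (κ i : ℤ)) : ℤ × (Fin 2 → ℤ)) ∈ D2 := fun κ x hx => (mem_filter.1 hx).2
  -- the regular elements
  obtain ⟨RP, hRP⟩ : ∃ RP : (Fin 2 → ℕ) → ℤ → Prop, RP = fun (κ : Fin 2 → ℕ) (x : ℤ) =>
      ∃ b : ℕ, K₂ * κ 1 ≤ (x : ℝ) - (-(M * τ) + K₁ * κ 0) - K₂ * b ∧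
        ((x : ℝ) - (-(M * τ) + K₁ * κ 0) - K₂ * b) -
          (K₁ - σ₀) * ⌊((x : ℝ) - (-(M * τ) + K₁ * κ 0) - K₂ * b) / K₁⌋ ≤
          M - K₁ * κ 0 - σ₁ * b := ⟨_, rfl⟩
  have hsplit : ∀ κ : Fin 2 → ℕ, ((NN κ : ℕ) : ℝ) ≤ ((((Icc (-(B2 : ℤ)) B2).filter
      (fun x => ((x, fun i => (κ i : ℤ)) : ℤ × (Fin 2 → ℤ)) ∈ D2)).filter (RP κ)).card : ℝ) +
      (4 * (K₂ / K₁) + 4) := by
    intro κ
    have g1 := card_filter_add_card_filter_not (s := (Icc (-(B2 : ℤ)) B2).filter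
      (fun x => ((x, fun i => (κ i : ℤ)) : ℤ × (Fin 2 → ℤ)) ∈ D2)) (RP κ)
    have g2 := shell_card (M := M) (K₁ := K₁) (K₂ := K₂) (σ₀ := σ₀) (v₁ := v₁) (v₂ := v₂) (k := κ 1) hσ₁
      (by linarith) hK₂0.le (((Icc (-(B2 : ℤ)) B2).filter
      (fun x => ((x, fun i => (κ i : ℤ)) : ℤ × (Fin 2 → ℤ)) ∈ D2)).filter fun x => ¬ RP κ x) (by
        intro x hx
        rw [mem_filter] at hx
        rcases hrow' κ x (hmem κ x hx.1) with h | ⟨_, t, b, _, h⟩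
        · exact absurd (by rw [hRP]; exact h) hx.2
        · exact ⟨t, b, h⟩)
    rw [hNN]
    simp only
    rw [← g1]
    push_cast
    linarith
  have hmemR : ∀ κ : Fin 2 → ℕ, ∀ x ∈ ((Icc (-(B2 : ℤ)) B2).filter
      (fun x => ((x, fun i => (κ i : ℤ)) : ℤ × (Fin 2 → ℤ)) ∈ D2)).filter (RP κ),
      ∃ b : ℕ, K₂ * κ 1 ≤ (x : ℝ) - (-(M * τ) + K₁ * κ 0) - K₂ * b ∧
        ((x : ℝ) - (-(M * τ) + K₁ * κ 0) - K₂ * b) -
          (K₁ - σ₀) * ⌊((x : ℝ) - (-(M * τ) + K₁ * κ 0) - K₂ * b) / K₁⌋ ≤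
          M - K₁ * κ 0 - σ₁ * b := by
    intro κ x hx
    have := (mem_filter.1 hx).2
    rw [hRP] at this
    exact this
  -- moving to the window
  have hval : ∀ (κ : Fin 2 → ℕ) (q₀ : ℤ) (Y : ℝ), M - K₁ * κ 0 - σ₀ * q₀ ≤ Y →
      ∀ x ∈ ((Icc (-(B2 : ℤ)) B2).filter
        (fun x => ((x, fun i => (κ i : ℤ)) : ℤ × (Fin 2 → ℤ)) ∈ D2)).filter (RP κ),
      ∃ b : ℕ, Val (-(M * τ) + K₁ * κ 0 + K₁ * q₀) K₂ (K₂ * κ 1 - K₁ * q₀) K₁ σ₀ σ₁ Y x b := by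
    intro κ q₀ Y hY x hx
    obtain ⟨b, g1, g2⟩ := hmemR κ x hx
    set z := (x : ℝ) - (-(M * τ) + K₁ * κ 0) - K₂ * b with hz
    -- move `z` into the window
    set i := ⌊(z - K₂ * κ 1) / K₂⌋.toNat with hi
    have hi0 : 0 ≤ ⌊(z - K₂ * κ 1) / K₂⌋ :=
      Int.floor_nonneg.2 (div_nonneg (by linarith) hK₂0.le)
    have hi1 : ((i : ℕ) : ℤ) = ⌊(z - K₂ * κ 1) / K₂⌋ := Int.toNat_of_nonneg hi0
    have hi2 := Int.floor_le ((z - K₂ * κ 1) / K₂)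
    have hi3 := Int.lt_floor_add_one ((z - K₂ * κ 1) / K₂)
    rw [← hi1] at hi2 hi3
    rw [le_div_iff₀ hK₂0] at hi2
    rw [div_lt_iff₀ hK₂0] at hi3
    push_cast at hi2 hi3
    have g3 := g_steps hK₁0 hσ₀ hσK hσσ hKK (z - K₂ * i) i
    rw [sub_add_cancel] at g3
    have g4 := floor_shift (K := K₁) (z := z - K₂ * i - K₁ * q₀) hK₁0 q₀
    rw [sub_add_cancel] at g4
    have g4' : (⌊(z - K₂ * i) / K₁⌋ : ℝ) = ⌊(z - K₂ * i - K₁ * q₀) / K₁⌋ + q₀ := by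
      exact_mod_cast g4
    have e1 : (x : ℝ) - (-(M * τ) + K₁ * κ 0 + K₁ * q₀ + K₂ * ((b + i : ℕ) : ℝ)) =
        z - K₂ * i - K₁ * q₀ := by
      rw [hz]
      push_cast
      ring
    refine ⟨b + i, ?_, ?_, ?_⟩
    · rw [e1]
      linarith
    · rw [e1]
      linarith
    · rw [e1]
      push_cast
      rw [g4'] at g3
      linarith
  refine hfin NN ?_ ?_ ?_
  · -- rows below the level `m`
    intro κ hκ
    have hκr : (κ 0 : ℝ) + κ 1 ≤ m - 1 := by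
      have : ((κ 0 + κ 1 + 1 : ℕ) : ℝ) ≤ m := by exact_mod_cast hκ
      push_cast at this
      linarith
    set q₀ : ℤ := ⌊K₂ * κ 1 / K₁⌋ with hq₀
    have hq1 := Int.floor_le (K₂ * κ 1 / K₁)
    have hq2 := Int.lt_floor_add_one (K₂ * κ 1 / K₁)
    rw [← hq₀, le_div_iff₀ hK₁0] at hq1
    rw [← hq₀, div_lt_iff₀ hK₁0] at hq2
    have hq3 : σ₀ * q₀ ≤ K₁ * κ 1 := by
      have g1 : σ₀ * (q₀ * K₁) ≤ σ₀ * (K₂ * κ 1) := mul_le_mul_of_nonneg_left hq1 hσ₀.le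
      have g2 : (σ₀ * q₀) * K₁ ≤ (K₁ * κ 1) * K₁ := by
        have : σ₀ * (K₂ * κ 1) = K₁ ^ 2 * κ 1 := by rw [hKK]; ring
        nlinarith
      exact le_of_mul_le_mul_right g2 hK₁0
    have hYge : W - K₁ * (m - 1) ≤ W - K₁ * κ 0 - σ₀ * q₀ := by
      have : K₁ * (κ 0 + κ 1) ≤ K₁ * (m - 1) := mul_le_mul_of_nonneg_left hκr hK₁0.le
      linarith
    have hup := valid_upper (c := -(M * τ) + K₁ * κ 0 + K₁ * q₀) (Y := W - K₁ * κ 0 - σ₀ * q₀)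
      (α := K₂ * κ 1 - K₁ * q₀) (K := K₁) (by linarith) (by linarith) hK₂0 hσ₀ hσK hσ₁0 hKK hη hB₀
      (by linarith) (by linarith) (((Icc (-(B2 : ℤ)) B2).filter
      (fun x => ((x, fun i => (κ i : ℤ)) : ℤ × (Fin 2 → ℤ)) ∈ D2)).filter (RP κ))
      (hval κ q₀ _ (by linarith))
    have e1 : W - K₁ * κ 0 - σ₀ * q₀ - σ₀ * (K₂ * κ 1 - K₁ * q₀) / K₁ =
        W - K₁ * (κ 0 + κ 1) := by
      have : σ₀ * (K₂ * κ 1 - K₁ * q₀) / K₁ = K₁ * κ 1 - σ₀ * q₀ := by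
        rw [mul_sub, ← mul_assoc, ← hKK]
        field_simp
      rw [this]
      ring
    rw [e1] at hup
    have e2 : K₂ / σ₁ * (W - K₁ * (κ 0 + κ 1) + (σ₀ + σ₁) / 2 - K₁) =
        K₂ / σ₁ * (W + (σ₀ + σ₁) / 2) - K₁ * K₂ / σ₁ * (κ 0 + κ 1 + 1) := by
      field_simp
      ring
    rw [e2, hk] at hup
    have h4 : ((NN κ : ℕ) : ℝ) + s ≤ k * (m - (κ 0 + κ 1)) := by
      have hspl := hsplit κ
      linarith
    have h5 : ((NN κ + s : ℕ) : ℝ) ≤ ((k * (m - (κ 0 + κ 1)) : ℕ) : ℝ) := by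
      rw [Nat.cast_mul, Nat.cast_sub hκ.le]
      push_cast
      exact h4
    exact_mod_cast h5
  · -- rows of level `m`
    intro κ hκ
    have hκr : (κ 0 : ℝ) + κ 1 = m := by exact_mod_cast hκ
    set q₀ : ℤ := ⌊K₂ * κ 1 / K₁⌋ with hq₀
    have hq1 := Int.floor_le (K₂ * κ 1 / K₁)
    have hq2 := Int.lt_floor_add_one (K₂ * κ 1 / K₁)
    rw [← hq₀, le_div_iff₀ hK₁0] at hq1
    rw [← hq₀, div_lt_iff₀ hK₁0] at hq2
    have hq3 : K₁ * κ 1 ≤ σ₀ * q₀ + σ₀ := by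
      have g1 : σ₀ * (K₂ * κ 1) ≤ σ₀ * ((q₀ + 1) * K₁) := mul_le_mul_of_nonneg_left hq2.le hσ₀.le
      have g2 : (K₁ * κ 1) * K₁ ≤ (σ₀ * q₀ + σ₀) * K₁ := by
        have : σ₀ * (K₂ * κ 1) = K₁ ^ 2 * κ 1 := by rw [hKK]; ring
        nlinarith
      exact le_of_mul_le_mul_right g2 hK₁0
    have hYle : M - K₁ * κ 0 - σ₀ * q₀ ≤ M - K₁ * m + σ₀ := by
      have e : K₁ * m = K₁ * κ 0 + K₁ * κ 1 := by rw [← hκr]; ring
      linarith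
    have h4 := top_count (K₂ := K₂) (α := K₂ * κ 1 - K₁ * q₀) (K := K₁) (by linarith) hK₁0
      hσ₀ hσ₁0 (((Icc (-(B2 : ℤ)) B2).filter
      (fun x => ((x, fun i => (κ i : ℤ)) : ℤ × (Fin 2 → ℤ)) ∈ D2)).filter (RP κ))
      (hval κ q₀ _ le_rfl)
    have h4' : (max (M - K₁ * κ 0 - σ₀ * q₀) 0 + σ₀ / 2 + 1 + σ₁ / 2) ^ 3 / (6 * σ₀ * σ₁) ≤
        (max (M - K₁ * m + σ₀) 0 + σ₀ / 2 + 1 + σ₁ / 2) ^ 3 / (6 * σ₀ * σ₁) := by
      apply div_le_div_of_nonneg_right _ (by positivity)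
      apply pow_le_pow_left₀ (by positivity)
      have := max_le_max_right 0 hYle
      linarith
    have h5 : ((NN κ : ℕ) : ℝ) ≤ T := by
      have hspl := hsplit κ
      linarith
    exact_mod_cast h5
  · -- no rows above the level `m`
    intro κ hκ
    have hκr : (m : ℝ) + 1 ≤ κ 0 + κ 1 := by
      have : ((m + 1 : ℕ) : ℝ) ≤ ((κ 0 + κ 1 : ℕ) : ℝ) := by exact_mod_cast hκ
      push_cast at this
      linarith
    rw [hNN]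
    simp only
    rw [card_eq_zero, eq_empty_iff_forall_notMem]
    intro x hx
    have g7 : K₁ * (m + 1) ≤ K₁ * (κ 0 + κ 1) := mul_le_mul_of_nonneg_left hκr hK₁0.le
    rcases hrow' κ x (hmem κ x hx) with ⟨b, g1, g2⟩ | ⟨hz0, t, b, hb0, ⟨_, _, x3, x4⟩, x5, x6⟩
    swap
    · -- exceptional elements
      rw [hz0] at g7
      push_cast at g7
      have hb0r : (0 : ℝ) ≤ b := by exact_mod_cast hb0
      have y1 : 0 ≤ σ₁ * b := mul_nonneg hσ₁0.le hb0r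
      have y2 : σ₀ * t ≤ M + 3 := by linarith
      have y3 : K₁ * (σ₀ * t) ≤ K₁ * (M + 3) := mul_le_mul_of_nonneg_left y2 hK₁0.le
      have y4 : σ₀ * (K₂ * κ 1 - 3) ≤ σ₀ * (K₁ * t) := mul_le_mul_of_nonneg_left x5 hσ₀.le
      have y5 : σ₀ * (K₂ * κ 1) = K₁ ^ 2 * κ 1 := by rw [hKK]; ring
      have y6 : K₁ * (K₁ * κ 1) ≤ K₁ * (M + 5) := by linarith
      have y7 := le_of_mul_le_mul_left y6 hK₁0
      linarith
    set z := (x : ℝ) - (-(M * τ) + K₁ * κ 0) - K₂ * b with hz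
    have g3 := saw_ge (z := z) hK₁0 hσK
    have g4 : σ₀ * z / K₁ ≤ M - K₁ * κ 0 - σ₁ * b := g3.trans g2
    have g5 : K₁ * κ 1 ≤ σ₀ * z / K₁ := by
      rw [le_div_iff₀ hK₁0]
      have : σ₀ * (K₂ * κ 1) ≤ σ₀ * z := mul_le_mul_of_nonneg_left g1 hσ₀.le
      nlinarith
    have g6 : (0 : ℝ) ≤ σ₁ * b := by positivity
    linarith

end Pool.Agent.H35.SQ
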