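import Mathlib
import Pool.Agent.H35.SQ.DblR
import Pool.Agent.H35.SQ.ParP
import Pool.Graph.R_seed8.TH3.IR.Asm0

set_option autoImplicit false

/-! # Emptiness in space with a precise count of the highest level -/

namespace Pool.Agent.H35.SQ

open Finset Pool.Agent.TH3.IR Pool.Agent.H35.SP

/-- the final inequality -/
theorem num_emp6 {ρ l M η s E : ℝ} (hρ : 215 ≤ ρ) (hl1 : 1 ≤ l) (hl2 : l ≤ 1 + 4 / ρ)
    (hη : |η| ≤ 6 * l * ρ / 35) (hs : s + (43175 / 100000) * ρ ^ 2 + 37 * ρ ≤ E * ρ ^ 2) :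
    2 * ρ ^ 2 / (12 * l) *
      ((6 * l * (ρ * (M + 1) - 2 - E) - 3 * l + 4 / 3) + (18 * l ^ 2 + 12 * l) / 2) +
      (6 * l * ρ - 18 * l ^ 2) * |η| / (2 * (12 * l)) +
        ((2 * ρ ^ 2 / (6 * l * ρ) + 2) * (6 * l * ρ / (12 * l) + 1 + 12 * l / 8 +
          (18 * l ^ 2 + 24 * l) ^ 2 / (2 * (12 * l))) +
          (2 * (6 * l * ρ) + 18 * l ^ 2) / (12 * l) + 2) +
        (4 * (2 * ρ ^ 2 / (6 * l * ρ)) + 4) + s ≤ ρ ^ 3 * (M + 1) := by
  have hρ0 : 0 < ρ := by linarith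
  have hl0 : 0 < l := by linarith
  have hr : (l - 1) * ρ ≤ 4 := by
    have : l - 1 ≤ 4 / ρ := by linarith
    rw [le_div_iff₀ hρ0] at this
    exact this
  have hl3 : l ≤ 102 / 100 := by nlinarith
  have e1 : 2 * ρ ^ 2 / (12 * l) *
      ((6 * l * (ρ * (M + 1) - 2 - E) - 3 * l + 4 / 3) + (18 * l ^ 2 + 12 * l) / 2) =
      ρ ^ 3 * (M + 1) + ρ ^ 2 * (- 2 - E - 1 / 2 + 3 / 2 * l + 1) +
        2 / 9 * (ρ ^ 2 / l) := by
    field_simp
    ring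
  have e2 : (6 * l * ρ - 18 * l ^ 2) * |η| / (2 * (12 * l)) = (ρ - 3 * l) * |η| / 4 := by
    field_simp
    ring
  obtain ⟨c, hc⟩ : ∃ c, c = (18 * l ^ 2 + 24 * l) ^ 2 / (2 * (12 * l)) := ⟨_, rfl⟩
  have hc0 : 0 ≤ c := by
    rw [hc]
    positivity
  have hc1 : c ≤ 77 := by
    rw [hc, div_le_iff₀ (by positivity)]
    have h1 : 18 * l ^ 2 + 24 * l ≤ 4236 / 100 * l := by nlinarith
    have h2 : 0 ≤ 18 * l ^ 2 + 24 * l := by positivity
    have h3 : (18 * l ^ 2 + 24 * l) ^ 2 ≤ (4236 / 100 * l) ^ 2 := by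
      apply pow_le_pow_left₀ h2 h1
    nlinarith
  rw [← hc]
  have e3 : (2 * ρ ^ 2 / (6 * l * ρ) + 2) * (6 * l * ρ / (12 * l) + 1 + 12 * l / 8 + c) +
          (2 * (6 * l * ρ) + 18 * l ^ 2) / (12 * l) + 2 =
      1 / 6 * (ρ ^ 2 / l) + ρ / (3 * l) * (1 + c) + 5 / 2 * ρ + 4 + 9 / 2 * l + 2 * c := by
    field_simp
    ring
  have e4 : 4 * (2 * ρ ^ 2 / (6 * l * ρ)) + 4 = ρ / (3 * l) * 4 + 4 := by
    field_simp
    ring
  rw [e1, e2, e3, e4]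
  have h2 : (ρ - 3 * l) * |η| / 4 ≤ 3 / 70 * l * ρ ^ 2 := by
    have h3 : (ρ - 3 * l) * |η| ≤ ρ * |η| :=
      mul_le_mul_of_nonneg_right (by linarith) (abs_nonneg _)
    have h4 : ρ * |η| ≤ ρ * (6 * l * ρ / 35) := mul_le_mul_of_nonneg_left hη hρ0.le
    nlinarith
  have h3 : ρ / (3 * l) ≤ ρ / 3 := by
    apply div_le_div_of_nonneg_left hρ0.le (by norm_num)
    linarith
  have h3' : ρ / (3 * l) * (5 + c) ≤ ρ / 3 * 82 := by
    apply mul_le_mul h3 (by linarith) (by linarith) (by positivity)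
  have h4 : ρ ^ 2 / l ≤ ρ ^ 2 := div_le_self (by positivity) hl1
  have h5 : ρ ^ 2 * (l - 1) ≤ 4 * ρ := by nlinarith
  have h7 : ρ ^ 2 * (- 2 - E - 1 / 2 + 3 / 2 * l + 1) =
      - (E * ρ ^ 2) + 3 / 2 * (ρ ^ 2 * (l - 1)) := by ring
  rw [h7]
  have h8 : 3 / 70 * l * ρ ^ 2 = 3 / 70 * ρ ^ 2 + 3 / 70 * (ρ ^ 2 * (l - 1)) := by ring
  rw [h8] at h2
  -- `2/9 + 1/6 + 3/70 ≤ 43175/100000`
  have h10 : 215 * ρ ≤ ρ ^ 2 := by nlinarith
  nlinarith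

theorem EmpS_six {ι : Type} (d m k s T : ℕ) {ρ E : ℝ} (hρ : 215 ≤ ρ)
    (hk : ρ ^ 3 = k) (hE : E ≤ 3 / 2)
    (hd : d ≤ ρ * (m + 1) - 2 - E)
    (hs : s + (43175 / 100000) * ρ ^ 2 + 37 * ρ ≤ E * ρ ^ 2)
    (hx0 : 0 ≤ d - ρ * m)
    (hT : (d - ρ * m + 11 / 2) ^ 3 / 6 + 2 * ρ + 4 ≤ T)
    (hfin : ∀ N : (Fin 2 → ℕ) → ℕ, (∀ κ, κ 0 + κ 1 < m → N κ + s ≤ k * (m - (κ 0 + κ 1))) →
      (∀ κ, κ 0 + κ 1 = m → N κ ≤ T) → (∀ κ, m < κ 0 + κ 1 → N κ = 0) →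
        EmpS (fun _ : ι => m) (Srt N)) :
    EmpS (fun _ : ι => m) (RegS (0 : ℝ) d (fun _ : Fin 2 => 0) (fun _ => 1)) := by
  have hρ0 : 0 < ρ := by linarith
  have hE0 : 0 ≤ E := by
    by_contra hcon
    push Not at hcon
    have h1 : E * ρ ^ 2 ≤ 0 := mul_nonpos_of_nonpos_of_nonneg hcon.le (by positivity)
    have h2 : (0 : ℝ) ≤ s := Nat.cast_nonneg s
    have h3 : 0 < (43175 / 100000) * ρ ^ 2 := by positivity
    linarith
  obtain ⟨N, v₁, v₂, l, τ', hl1, hl2, hτ0, hτ1, hp2, hp1, hη⟩ :=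
    exists_parP (ρ := ρ) (by linarith)
  have hl0 : 0 < l := by linarith
  have hl3 : l ≤ 102 / 100 := by
    have : 4 / ρ ≤ 2 / 100 := by
      rw [div_le_div_iff₀ hρ0 (by norm_num)]
      linarith
    linarith
  -- the first step
  obtain ⟨τ, hτ⟩ : ∃ τ : ℝ, τ = 3 * l - 8 / 3 := ⟨_, rfl⟩
  have h0 : 0 < τ := by rw [hτ]; linarith
  have h1 : τ < 1 := by rw [hτ]; linarith
  refine EmpS_theta d 0 h0 h1 ?_
  set L : ℝ := -((1 + τ) * d) with hL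
  set R : ℝ := (2 - τ) * d with hR
  set μ : Fin 2 → ℝ := Function.update (fun _ => 1 + τ) 0 (3 * (1 + τ)) with hμ
  set ν : Fin 2 → ℝ := Function.update (fun _ => 2 - τ) 0 (3 * (2 - τ)) with hν
  have m0 : μ 0 = 3 * (1 + τ) := by rw [hμ, Function.update_self]
  have m1 : μ 1 = 1 + τ := by rw [hμ, Function.update_of_ne (by decide)]
  have n0 : ν 0 = 3 * (2 - τ) := by rw [hν, Function.update_self]
  have n1 : ν 1 = 2 - τ := by rw [hν, Function.update_of_ne (by decide)]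
  clear_value μ ν
  have hτ2 : 0 < 2 - τ := by linarith
  refine EmpS_flat ?_ ?_ 0 ?_ ?_ 5 ?_ ?_
  · intro i
    fin_cases i
    · simp only [Fin.zero_eta]; rw [m0]; positivity
    · simp only [Fin.mk_one]; rw [m1]; positivity
  · intro i
    fin_cases i
    · simp only [Fin.zero_eta]; rw [n0]; positivity
    · simp only [Fin.mk_one]; rw [n1]; positivity
  · rw [m0, n0]; linarith
  · intro i
    fin_cases i
    · simp only [Fin.zero_eta]; rw [m0, n0]; linarith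
    · simp only [Fin.mk_one]; rw [m1, n1]; linarith
  · rw [n0, hτ]
    push_cast
    linarith
  have e1 : μ 0 + ((5 : ℤ) : ℝ) = 9 * l := by rw [m0, hτ]; push_cast; ring
  have e2 : ((5 : ℤ) : ℝ) - ν 0 = 9 * (l - 1) := by rw [n0, hτ]; push_cast; ring
  have e3 : μ 0 + ν 0 = 9 := by rw [m0, n0]; ring
  rw [e1, e2, e3]
  set μ2 : Fin 2 → ℝ := Function.update μ 0 (9 * l) with hμ2
  set ν2 : Fin 2 → ℝ := Function.update (fun i => (ν i * (9 * l) + μ i * (9 * (l - 1))) / 9) 0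
    (9 * l * (9 * (l - 1)) / 9) with hν2
  set R2 : ℝ := (R * (9 * l) - L * (9 * (l - 1))) / 9 with hR2
  have m20 : μ2 0 = 9 * l := by rw [hμ2, Function.update_self]
  have m21 : μ2 1 = 3 * l - 5 / 3 := by
    rw [hμ2, Function.update_of_ne (by decide), m1, hτ]
    ring
  have n20 : ν2 0 = 9 * l * (l - 1) := by rw [hν2, Function.update_self]; ring
  have n21 : ν2 1 = 5 / 3 := by
    rw [hν2, Function.update_of_ne (by decide), n1, m1, hτ]; ring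
  have hW2 : R2 - L = 3 * l * d := by
    rw [hR2, hR, hL]
    ring
  clear_value μ2 ν2 R2
  have hl10 : 0 ≤ l - 1 := by linarith
  have s0 : μ2 0 + ν2 0 = 9 * l ^ 2 := by rw [m20, n20]; ring
  have s1 : μ2 1 + ν2 1 = 3 * l := by rw [m21, n21]; ring
  refine EmpS_nodalP ?_ ?_ ?_ 1 ?_ ?_ ?_ ?_ hτ0 (by linarith) hτ1 ?_
  · intro i
    fin_cases i
    · simp only [Fin.zero_eta]; rw [m20]; positivity
    · simp only [Fin.mk_one]; rw [m21]; linarith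
  · intro i
    fin_cases i
    · simp only [Fin.zero_eta]; rw [n20]; positivity
    · simp only [Fin.mk_one]; rw [n21]; norm_num
  · intro i
    fin_cases i
    · simp only [Fin.zero_eta]; rw [s0]; positivity
    · simp only [Fin.mk_one]; rw [s1]; positivity
  · rw [s1]; linarith
  · rw [s1]; linarith
  · rw [m21]
    exact ⟨1, by push_cast; linarith, by push_cast; linarith⟩
  · rw [n21]
    exact ⟨1, by push_cast; linarith, by push_cast; linarith⟩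
  rw [s1, hW2]
  have sg0 : Function.update (fun i => 2 * (μ2 i + ν2 i)) 1 (4 * (3 * l)) 0 = 18 * l ^ 2 := by
    rw [Function.update_of_ne (by decide), s0]; ring
  have sg1 : Function.update (fun i => 2 * (μ2 i + ν2 i)) 1 (4 * (3 * l)) 1 = 12 * l := by
    rw [Function.update_self]; ring
  have hMW : 2 * (3 * l * d) - 3 * l + 4 / 3 ≤
      6 * l * (ρ * (m + 1) - 2 - E) - 3 * l + 4 / 3 := by
    have : 6 * l * (d : ℝ) ≤ 6 * l * (ρ * (m + 1) - 2 - E) :=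
      mul_le_mul_of_nonneg_left hd (by positivity)
    linarith
  have hlE : l * E ≤ l * (3 / 2) := mul_le_mul_of_nonneg_left hE hl0.le
  refine EmpS_doubleR (m := m) (k := k) (s := s) (T := T) (v₁ := v₁) (v₂ := v₂)
    (K₁ := 6 * l * ρ) (K₂ := 2 * ρ ^ 2) (σ₀ := 18 * l ^ 2) (σ₁ := 12 * l) (N := N)
    (η := 2 * ρ ^ 2 - N * (6 * l * ρ)) (B₀ := 18 * l ^ 2 + 24 * l)
    (W := 6 * l * (ρ * (m + 1) - 2 - E) - 3 * l + 4 / 3)
    hτ0 hτ1 hp1 hp2 sg0 sg1 ?_ ?_ ?_ ?_ ?_ ?_ hMW ?_ ?_ ?_ ?_ ?_ ?_ hfin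
  · linarith
  · nlinarith
  · nlinarith
  · ring
  · ring
  · rw [← hk]
    field_simp
    ring
  · rw [← hk]
    exact num_emp6 hρ hl1 hl2 hη hs
  · positivity
  · have : 6 * l * (ρ * (m + 1) - 2 - E) - 3 * l + 4 / 3 - 6 * l * ρ * (m - 1) =
        l * (12 * ρ - 15) - 6 * (l * E) + 4 / 3 := by
      ring
    rw [this]
    have : 0 ≤ l * (12 * ρ - 24) := mul_nonneg hl0.le (by linarith)
    linarith
  · have : 6 * l * (ρ * (m + 1) - 2 - E) - 3 * l + 4 / 3 - 6 * l * ρ * (m - 1) =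
        2 * (6 * l * ρ) - 15 * l - 6 * (l * E) + 4 / 3 := by
      ring
    rw [this]
    linarith
  · obtain ⟨x, hx⟩ : ∃ x : ℝ, x = d - ρ * m := ⟨_, rfl⟩
    rw [← hx] at hx0 hT
    have e : 2 * (3 * l * d) - 3 * l + 4 / 3 - 6 * l * ρ * m + 18 * l ^ 2 =
        6 * l * x - 3 * l + 4 / 3 + 18 * l ^ 2 := by rw [hx]; ring
    rw [e]
    have e' : 4 * (2 * ρ ^ 2 / (6 * l * ρ)) = 4 / 3 * (ρ / l) := by
      field_simp
      ring
    rw [e']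
    have h2 : ρ / l ≤ ρ := div_le_self hρ0.le hl1
    have hlx : 0 ≤ l * x := mul_nonneg hl0.le hx0
    have h3 : 0 ≤ 6 * l * x - 3 * l + 4 / 3 + 18 * l ^ 2 := by nlinarith
    rw [max_eq_left h3]
    have h4 : 6 * l * x - 3 * l + 4 / 3 + 18 * l ^ 2 + 18 * l ^ 2 / 2 + 1 + 12 * l / 2 ≤
        6 * l * (x + 11 / 2) := by nlinarith
    have h5 : (6 * l * x - 3 * l + 4 / 3 + 18 * l ^ 2 + 18 * l ^ 2 / 2 + 1 + 12 * l / 2) ^ 3 ≤
        (6 * l * (x + 11 / 2)) ^ 3 := pow_le_pow_left₀ (by positivity) h4 3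
    have h6 : (6 * l * x - 3 * l + 4 / 3 + 18 * l ^ 2 + 18 * l ^ 2 / 2 + 1 + 12 * l / 2) ^ 3 /
        (6 * (18 * l ^ 2) * (12 * l)) ≤ (x + 11 / 2) ^ 3 / 6 := by
      rw [div_le_div_iff₀ (by positivity) (by norm_num)]
      calc _ ≤ (6 * l * (x + 11 / 2)) ^ 3 * 6 := mul_le_mul_of_nonneg_right h5 (by norm_num)
        _ = (x + 11 / 2) ^ 3 * (6 * (18 * l ^ 2) * (12 * l)) := by ring
    linarith
  · have h2 : 6 * l * (d : ℝ) ≤ 6 * l * (ρ * (m + 1) - 2 - E) :=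
      mul_le_mul_of_nonneg_left hd (by positivity)
    have h3 : 0 ≤ l * E := by positivity
    nlinarith

end Pool.Agent.H35.SQ
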