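import Mathlib

set_option autoImplicit false

/-! # Equidistribution of `α m + β` modulo one, lower bound -/

namespace Pool.Agent.H35.SQ

open Finset

/-- a block of `q` consecutive numbers -/
theorem block {α β a b : ℝ} {p : ℤ} {q : ℕ} (hq : 0 < q) (hpq : IsCoprime p (q : ℤ))
    (hα : |α - p / q| < 1 / (q : ℝ) ^ 2) (ha : 0 ≤ a) (hb : b ≤ 1) (s : ℕ) :
    (b - a) * q - 4 ≤ (((Ico s (s + q)).filter fun m : ℕ =>
      a ≤ Int.fract (α * m + β) ∧ Int.fract (α * m + β) ≤ b).card : ℝ) := by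
  obtain ⟨u, w, huw⟩ := hpq
  have hq0 : (0 : ℝ) < q := by exact_mod_cast hq
  have hqz : (0 : ℤ) < q := by exact_mod_cast hq
  obtain ⟨γ, hγ⟩ : ∃ γ, γ = (α - p / q) * s + β := ⟨_, rfl⟩
  obtain ⟨g, hg⟩ : ∃ g : ℤ, g = ⌊q * γ⌋ := ⟨_, rfl⟩
  have hg1 : (g : ℝ) ≤ q * γ := by rw [hg]; exact Int.floor_le _
  have hg2 : q * γ < g + 1 := by rw [hg]; exact Int.lt_floor_add_one _
  -- the good residues
  obtain ⟨lo, hlo⟩ : ∃ lo : ℤ, lo = ⌈a * q + 1⌉ := ⟨_, rfl⟩
  obtain ⟨hi, hhi⟩ : ∃ hi : ℤ, hi = ⌊b * q - 2⌋ := ⟨_, rfl⟩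
  have hcard : (b - a) * q - 4 ≤ ((Icc lo hi).card : ℝ) := by
    rw [Int.card_Icc]
    have h1 : (hi + 1 - lo : ℤ) ≤ ((hi + 1 - lo).toNat : ℤ) := Int.self_le_toNat _
    have h2 : ((hi + 1 - lo : ℤ) : ℝ) ≤ ((hi + 1 - lo).toNat : ℝ) := by exact_mod_cast h1
    have h3 : b * q - 2 < hi + 1 := by rw [hhi]; exact Int.lt_floor_add_one _
    have h4 : (lo : ℝ) < a * q + 1 + 1 := by rw [hlo]; exact Int.ceil_lt_add_one _
    push_cast at h2
    linarith
  refine hcard.trans ?_
  have hle : (Icc lo hi).card ≤ ((Ico s (s + q)).filter fun m : ℕ =>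
      a ≤ Int.fract (α * m + β) ∧ Int.fract (α * m + β) ≤ b).card := by
    -- the map
    obtain ⟨f, hf⟩ : ∃ f : ℤ → ℕ, ∀ j, f j = s + ((u * (j - g) - s) % q).toNat := ⟨_, fun _ => rfl⟩
    have hf1 : ∀ j : ℤ, ((f j : ℕ) : ℤ) = s + (u * (j - g) - s) % q := by
      intro j
      rw [hf]
      push_cast
      rw [Int.toNat_of_nonneg (Int.emod_nonneg _ (by omega))]
    have hf2 : ∀ j : ℤ, ∃ z : ℤ, p * ((f j : ℕ) : ℤ) = j - g + q * z := by
      intro j
      have h1 := Int.emod_add_mul_ediv (u * (j - g) - s) q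
      refine ⟨-(w * (j - g)) - p * ((u * (j - g) - s) / q), ?_⟩
      rw [hf1]
      have h2 : (u * (j - g) - s) % q = u * (j - g) - s - q * ((u * (j - g) - s) / q) := by
        linarith
      rw [h2]
      linear_combination (j - g) * huw
    have hf3 : ∀ j : ℤ, s ≤ f j ∧ f j < s + q := by
      intro j
      have h1 := Int.emod_nonneg (u * (j - g) - s) (show (q : ℤ) ≠ 0 by omega)
      have h2 := Int.emod_lt_of_pos (u * (j - g) - s) hqz
      have h3 := hf1 j
      omega
    apply card_le_card_of_injOn f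
    · intro j hj
      rw [mem_coe, mem_Icc] at hj
      rw [mem_coe, mem_filter, mem_Ico]
      refine ⟨hf3 j, ?_⟩
      obtain ⟨z, hz⟩ := hf2 j
      have hzr : (p : ℝ) * (f j : ℕ) = j - g + q * z := by exact_mod_cast hz
      obtain ⟨m, hm⟩ : ∃ m : ℕ, m = f j := ⟨_, rfl⟩
      have hm1 := (hf3 j).1
      have hm2 := (hf3 j).2
      rw [← hm] at hzr hm1 hm2 ⊢
      have hm1r : (s : ℝ) ≤ m := by exact_mod_cast hm1
      have hm2r : (m : ℝ) < s + q := by exact_mod_cast hm2
      -- the error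
      obtain ⟨E, hE⟩ : ∃ E, E = q * ((α - p / q) * (m - s)) := ⟨_, rfl⟩
      have hEabs : |E| < 1 := by
        rw [hE, abs_mul, abs_mul, abs_of_pos hq0]
        have h1 : |(m : ℝ) - s| ≤ q := by
          rw [abs_of_nonneg (by linarith)]
          linarith
        calc (q : ℝ) * (|α - p / q| * |(m : ℝ) - s|) ≤ q * (|α - p / q| * q) := by
              gcongr
          _ < q * (1 / (q : ℝ) ^ 2 * q) := by
              gcongr
          _ = 1 := by field_simp
      have hE' := abs_lt.1 hEabs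
      have key : α * m + β = z + (j + (q * γ - g) + E) / q := by
        have e1 : α * m + β = (p * m) / q + ((α - p / q) * (m - s)) + γ := by
          rw [hγ]
          ring
        rw [e1, hzr, hE]
        field_simp
        ring
      have hlo' : a * q + 1 ≤ j := by
        have h1 : a * q + 1 ≤ lo := by rw [hlo]; exact Int.le_ceil _
        have h2 : (lo : ℝ) ≤ j := by exact_mod_cast hj.1
        linarith
      have hhi' : (j : ℝ) ≤ b * q - 2 := by
        have h1 : (hi : ℝ) ≤ b * q - 2 := by rw [hhi]; exact Int.floor_le _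
        have h2 : (j : ℝ) ≤ hi := by exact_mod_cast hj.2
        linarith
      have hx1 : a ≤ (j + (q * γ - g) + E) / q := by
        rw [le_div_iff₀ hq0]
        linarith
      have hx2 : (j + (q * γ - g) + E) / q < b := by
        rw [div_lt_iff₀ hq0]
        linarith
      have hfr : Int.fract (α * m + β) = (j + (q * γ - g) + E) / q := by
        rw [Int.fract_eq_iff]
        refine ⟨by linarith, by linarith, z, ?_⟩
        rw [key]
        ring
      rw [hfr]
      exact ⟨hx1, hx2.le⟩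
    · intro j hj j' hj' hjj
      rw [mem_coe, mem_Icc] at hj hj'
      obtain ⟨z, hz⟩ := hf2 j
      obtain ⟨z', hz'⟩ := hf2 j'
      rw [hjj] at hz
      have h1 : j - j' = q * (z' - z) := by linarith
      have hlo0 : 1 ≤ lo := by
        have h2 : (1 : ℝ) ≤ lo := by
          have h3 : a * q + 1 ≤ lo := by rw [hlo]; exact Int.le_ceil _
          have : 0 ≤ a * q := by positivity
          linarith
        exact_mod_cast h2
      have hhi0 : hi ≤ q - 2 := by
        have h2 : (hi : ℝ) ≤ q - 2 := by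
          have h3 : (hi : ℝ) ≤ b * q - 2 := by rw [hhi]; exact Int.floor_le _
          have : b * q ≤ 1 * q := mul_le_mul_of_nonneg_right hb hq0.le
          linarith
        have h4 : (hi : ℝ) + 2 ≤ q := by linarith
        have h5 : hi + 2 ≤ q := by exact_mod_cast h4
        omega
      have h2 : z' - z = 0 := by
        by_contra hne
        rcases lt_or_gt_of_ne hne with h | h
        · have : (q : ℤ) * (z' - z) ≤ q * (-1) := mul_le_mul_of_nonneg_left (by omega) hqz.le
          omega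
        · have : (q : ℤ) * 1 ≤ q * (z' - z) := mul_le_mul_of_nonneg_left (by omega) hqz.le
          omega
      rw [h2, mul_zero] at h1
      linarith
  exact_mod_cast hle

/-- equidistribution of the multiples of an irrational number -/
theorem equi {α β a b δ : ℝ} (hα : Irrational α) (ha : 0 ≤ a) (hb : b ≤ 1) (hab : a ≤ b)
    (hδ : 0 < δ) : ∃ N₀ : ℕ, ∀ N : ℕ, N₀ ≤ N → (b - a - δ) * N ≤
      (((range N).filter fun m : ℕ =>
        a ≤ Int.fract (α * m + β) ∧ Int.fract (α * m + β) ≤ b).card : ℝ) := by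
  -- a good approximation
  obtain ⟨r, hr, hden⟩ : ∃ r : ℚ, |α - r| < 1 / (r.den : ℝ) ^ 2 ∧ 8 / δ ≤ r.den := by
    have hinf := Real.infinite_rat_abs_sub_lt_one_div_den_sq_of_irrational hα
    by_contra hcon
    push Not at hcon
    apply hinf
    -- finitely many
    obtain ⟨D, hD⟩ : ∃ D : ℕ, 8 / δ ≤ D := exists_nat_ge _
    obtain ⟨A, hA⟩ : ∃ A : ℕ, |α| + 1 ≤ A := exists_nat_ge _
    have hfin : Set.Finite ((fun x : ℤ × ℕ => (x.1 : ℚ) / x.2) ''
        ((Set.Icc (-((A * D : ℕ) : ℤ)) ((A * D : ℕ) : ℤ)) ×ˢ (Set.Iic D))) :=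
      Set.Finite.image _ ((Set.finite_Icc _ _).prod (Set.finite_Iic _))
    refine hfin.subset ?_
    intro r hr
    rw [Set.mem_ofPred_eq] at hr
    have h1 := hcon r hr
    have h2 : r.den ≤ D := by
      have : (r.den : ℝ) < D := lt_of_lt_of_le h1 hD
      exact_mod_cast this.le
    refine ⟨(r.num, r.den), ⟨?_, h2⟩, Rat.num_div_den r⟩
    rw [Set.mem_Icc, ← abs_le]
    have h3 : (1 : ℝ) ≤ r.den := by exact_mod_cast r.den_pos
    have h4 : |(r : ℝ)| ≤ A := by
      have h5 : 1 / (r.den : ℝ) ^ 2 ≤ 1 := by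
        rw [div_le_one (by positivity)]
        nlinarith
      have h6 : |(r : ℝ)| ≤ |α| + |α - r| := by
        have := abs_sub_abs_le_abs_sub (r : ℝ) α
        rw [abs_sub_comm] at this
        linarith
      linarith
    have h5 : (r : ℝ) = r.num / r.den := by
      exact_mod_cast (Rat.num_div_den r).symm
    rw [h5, abs_div, Nat.abs_cast, div_le_iff₀ (by linarith)] at h4
    have h6 : (A : ℝ) * r.den ≤ A * D :=
      mul_le_mul_of_nonneg_left (by exact_mod_cast h2) (by positivity)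
    have h7 : |(r.num : ℝ)| ≤ ((A * D : ℕ) : ℝ) := by
      push_cast
      linarith
    exact_mod_cast h7
  obtain ⟨q, hq⟩ : ∃ q : ℕ, q = r.den := ⟨_, rfl⟩
  have hq0 : 0 < q := by rw [hq]; exact r.den_pos
  have hq0r : (0 : ℝ) < q := by exact_mod_cast hq0
  have hcop : IsCoprime r.num (q : ℤ) := by
    rw [hq, Int.isCoprime_iff_gcd_eq_one]
    exact r.reduced
  have happ : |α - r.num / q| < 1 / (q : ℝ) ^ 2 := by
    have h5 : (r : ℝ) = r.num / r.den := by
      exact_mod_cast (Rat.num_div_den r).symm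
    rw [hq, ← h5]
    exact hr
  rw [← hq] at hden
  -- many blocks
  have hblocks : ∀ t : ℕ, t * ((b - a) * q - 4) ≤ (((range (t * q)).filter fun m : ℕ =>
      a ≤ Int.fract (α * m + β) ∧ Int.fract (α * m + β) ≤ b).card : ℝ) := by
    intro t
    induction t with
    | zero => simp
    | succ t ih =>
      have h1 := block (β := β) hq0 hcop happ ha hb (t * q)
      have h2 : range ((t + 1) * q) = range (t * q) ∪ Ico (t * q) (t * q + q) := by
        ext x
        rw [mem_union, mem_range, mem_range, mem_Ico, add_mul, one_mul]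
        omega
      have h3 : Disjoint (range (t * q)) (Ico (t * q) (t * q + q)) := by
        rw [disjoint_left]
        intro x hx hx'
        rw [mem_range] at hx
        rw [mem_Ico] at hx'
        omega
      rw [h2, filter_union, card_union_of_disjoint (disjoint_filter_filter h3)]
      push_cast
      linarith
  obtain ⟨N₀, hN₀⟩ : ∃ N₀ : ℕ, 2 * q / δ ≤ N₀ := exists_nat_ge _
  refine ⟨N₀, fun N hN => ?_⟩
  have hNr : (N₀ : ℝ) ≤ N := by exact_mod_cast hN
  have h1 := hblocks (N / q)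
  have h2 : (((range (N / q * q)).filter fun m : ℕ =>
      a ≤ Int.fract (α * m + β) ∧ Int.fract (α * m + β) ≤ b).card : ℝ) ≤
      (((range N).filter fun m : ℕ =>
        a ≤ Int.fract (α * m + β) ∧ Int.fract (α * m + β) ≤ b).card : ℝ) := by
    have : range (N / q * q) ⊆ range N := range_subset_range.2 (Nat.div_mul_le_self N q)
    exact_mod_cast card_le_card (filter_subset_filter _ this)
  have h3 : (N : ℝ) - q < (N / q : ℕ) * q := by
    have h4 := Nat.lt_mul_div_succ N hq0
    have h5 : (N : ℝ) < q * ((N / q : ℕ) + 1) := by exact_mod_cast h4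
    linarith
  have h4 : ((N / q : ℕ) : ℝ) * q ≤ N := by exact_mod_cast Nat.div_mul_le_self N q
  rw [div_le_iff₀ hδ] at hN₀ hden
  have hba : b - a ≤ 1 := by linarith
  have h5 : ((N / q : ℕ) : ℝ) * 8 ≤ N * δ := by
    have h6 : ((N / q : ℕ) : ℝ) * 8 ≤ ((N / q : ℕ) : ℝ) * (q * δ) :=
      mul_le_mul_of_nonneg_left hden (by positivity)
    have h7 : ((N / q : ℕ) : ℝ) * q * δ ≤ N * δ := mul_le_mul_of_nonneg_right h4 hδ.le
    linarith
  have h6 : (b - a) * (N - q) ≤ (b - a) * ((N / q : ℕ) * q) :=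
    mul_le_mul_of_nonneg_left h3.le (by linarith)
  have h7 : (b - a) * q ≤ 1 * q := mul_le_mul_of_nonneg_right hba hq0r.le
  have h8 : 2 * (q : ℝ) ≤ N * δ := by
    have := mul_le_mul_of_nonneg_right hNr hδ.le
    linarith
  linarith

end Pool.Agent.H35.SQ
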