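import Mathlib

set_option autoImplicit false

/-! # Natural parameters for the three spreadings -/

namespace Pool.Agent.H35.SQ

theorem pow_le_div {a a₀ : ℝ} (h0 : 0 < a₀) (ha : a₀ ≤ a) (i j : ℕ) :
    a ^ i ≤ a ^ (i + j) / a₀ ^ j := by
  have ha0 : 0 < a := by linarith
  rw [le_div_iff₀ (by positivity), pow_add]
  exact mul_le_mul_of_nonneg_left (pow_le_pow_left₀ h0.le ha j) (by positivity)

/-- the parameters -/
theorem nat_par3 {a a₀ σ τ θ c c' η κ₁ r₁ κ₂ : ℝ} {m : ℕ} (h0 : 0 < a₀) (ha : a₀ ≤ a)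
    (hσ : 0 < σ) (hτ : 0 < τ) (hθ : 0 ≤ θ) (hθ1 : θ ≤ 1) (hc : 0 < c) (hη : 0 < η) (hκ₁ : 0 < κ₁)
    (hr₁ : 0 < r₁) (hκ₂ : 0 < κ₂)
    (hA : c + 1 / a₀ ≤ c')
    (hB : τ + σ / a₀ ^ 2 + 1 / a₀ ^ 6 + c / a₀ ^ 5 ≤ η * c)
    (hC : κ₁ * c' + θ / a₀ ^ 4 + c' / a₀ ^ 3 ≤ θ * σ)
    (hD : η + (1 + 2 * θ) * σ / a₀ + κ₁ / a₀ ^ 2 ≤ r₁ * κ₁)
    (hF : κ₂ * r₁ + (1 - θ) / a₀ ^ 4 + r₁ / a₀ ^ 2 ≤ (1 - θ) * σ)
    (hG : (τ + 1 / a₀ ^ 6 + (1 + 2 * θ) * σ / a₀ ^ 2) * a ^ 3 ≤ κ₁ * m)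
    (hH : (η + 2 * σ / a₀) * a ^ 3 ≤ κ₂ * m)
    (hI : η ≤ τ * a₀) :
    ∃ s T w h q r q' : ℕ, (s : ℝ) ≤ σ * a ^ 4 ∧ τ * a ^ 6 ≤ T ∧ (h : ℝ) ≤ τ * a ^ 6 ∧ 0 < h ∧ T + s ≤ h * w ∧ h ≤ T ∧
      q * w ≤ s ∧ T + s + 2 * (q * w) ≤ q * m ∧ h + s + 2 * (q * w) ≤ q * r ∧
      q' * r + q * w ≤ s ∧ h + s + q' * r ≤ q' * m + q * w := by
  have ha0 : 0 < a := by linarith
  have hc' : 0 < c' := by
    have : 0 < 1 / a₀ := by positivity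
    linarith
  obtain ⟨s, hs⟩ : ∃ s : ℕ, s = ⌊σ * a ^ 4⌋₊ := ⟨_, rfl⟩
  obtain ⟨T, hT⟩ : ∃ T : ℕ, T = ⌈τ * a ^ 6⌉₊ := ⟨_, rfl⟩
  obtain ⟨w, hw⟩ : ∃ w : ℕ, w = ⌈c * a⌉₊ := ⟨_, rfl⟩
  have s1 : (s : ℝ) ≤ σ * a ^ 4 := by rw [hs]; exact Nat.floor_le (by positivity)
  have s2 : σ * a ^ 4 < s + 1 := by rw [hs]; exact Nat.lt_floor_add_one _
  have T1 : τ * a ^ 6 ≤ T := by rw [hT]; exact Nat.le_ceil _
  have T2 : (T : ℝ) < τ * a ^ 6 + 1 := by rw [hT]; exact Nat.ceil_lt_add_one (by positivity)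
  have w1 : c * a ≤ w := by rw [hw]; exact Nat.le_ceil _
  have w2 : (w : ℝ) < c * a + 1 := by rw [hw]; exact Nat.ceil_lt_add_one (by positivity)
  have hT0 : (0 : ℝ) < T := lt_of_lt_of_le (by positivity) T1
  have hw0 : (0 : ℝ) < w := lt_of_lt_of_le (by positivity) w1
  have hs0 : (0 : ℝ) ≤ s := Nat.cast_nonneg s
  have w3 : (w : ℝ) ≤ c' * a := by
    have g1 := pow_le_div h0 ha 0 1
    simp only [pow_zero, zero_add, pow_one] at g1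
    have g2 : c * a + a / a₀ ≤ c' * a := by
      have : (c + 1 / a₀) * a ≤ c' * a := mul_le_mul_of_nonneg_right hA ha0.le
      have e : (c + 1 / a₀) * a = c * a + a / a₀ := by ring
      linarith
    linarith
  -- `h`
  obtain ⟨h, hh⟩ : ∃ h : ℕ, h = ⌈((T : ℝ) + s) / w⌉₊ := ⟨_, rfl⟩
  have h1 : ((T : ℝ) + s) / w ≤ h := by rw [hh]; exact Nat.le_ceil _
  have h2 : (h : ℝ) < ((T : ℝ) + s) / w + 1 := by
    rw [hh]; exact Nat.ceil_lt_add_one (by positivity)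
  have hh0 : (0 : ℝ) < h := lt_of_lt_of_le (by positivity) h1
  rw [div_le_iff₀ hw0] at h1
  have h3 : (h : ℝ) ≤ η * a ^ 5 := by
    have g1 : ((T : ℝ) + s) / w ≤ (τ * a ^ 6 + 1 + σ * a ^ 4) / (c * a) :=
      div_le_div₀ (by positivity) (by linarith) (by positivity) w1
    have g2 : (τ * a ^ 6 + 1 + σ * a ^ 4) / (c * a) + 1 ≤ η * a ^ 5 := by
      rw [div_add_one (by positivity), div_le_iff₀ (by positivity)]
      have p1 := pow_le_div h0 ha 4 2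
      have p2 := pow_le_div h0 ha 0 6
      have p3 := pow_le_div h0 ha 1 5
      simp only [pow_zero, zero_add, pow_one, Nat.reduceAdd] at p1 p2 p3
      have g3 : (τ + σ / a₀ ^ 2 + 1 / a₀ ^ 6 + c / a₀ ^ 5) * a ^ 6 ≤ η * c * a ^ 6 :=
        mul_le_mul_of_nonneg_right hB (by positivity)
      have e : (τ + σ / a₀ ^ 2 + 1 / a₀ ^ 6 + c / a₀ ^ 5) * a ^ 6 =
          τ * a ^ 6 + σ * (a ^ 6 / a₀ ^ 2) + a ^ 6 / a₀ ^ 6 + c * (a ^ 6 / a₀ ^ 5) := by ring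
      have q1 : σ * a ^ 4 ≤ σ * (a ^ 6 / a₀ ^ 2) := mul_le_mul_of_nonneg_left p1 hσ.le
      have q3 : c * a ≤ c * (a ^ 6 / a₀ ^ 5) := mul_le_mul_of_nonneg_left p3 hc.le
      have e2 : η * a ^ 5 * (c * a) = η * c * a ^ 6 := by ring
      linarith
    linarith
  -- `q`
  obtain ⟨q, hq⟩ : ∃ q : ℕ, q = ⌊θ * s / w⌋₊ := ⟨_, rfl⟩
  have q1 : (q : ℝ) ≤ θ * s / w := by rw [hq]; exact Nat.floor_le (by positivity)
  have q2 : θ * s / w < q + 1 := by rw [hq]; exact Nat.lt_floor_add_one _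
  have q1' : (q : ℝ) * w ≤ θ * s := by rwa [le_div_iff₀ hw0] at q1
  have q3 : κ₁ * a ^ 3 ≤ q := by
    have g1 : θ * (σ * a ^ 4 - 1) / (c' * a) ≤ θ * s / w := by
      rcases le_or_gt (σ * a ^ 4 - 1) 0 with g | g
      · have : θ * (σ * a ^ 4 - 1) / (c' * a) ≤ 0 :=
          div_nonpos_of_nonpos_of_nonneg (mul_nonpos_of_nonneg_of_nonpos hθ g) (by positivity)
        have g3 : 0 ≤ θ * s / w := by positivity
        linarith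
      · apply div_le_div₀ (by positivity) _ hw0 w3
        apply mul_le_mul_of_nonneg_left _ hθ
        linarith
    have g2 : κ₁ * a ^ 3 + 1 ≤ θ * (σ * a ^ 4 - 1) / (c' * a) := by
      rw [le_div_iff₀ (by positivity)]
      have p1 := pow_le_div h0 ha 0 4
      have p2 := pow_le_div h0 ha 1 3
      simp only [pow_zero, zero_add, pow_one, Nat.reduceAdd] at p1 p2
      have g3 : (κ₁ * c' + θ / a₀ ^ 4 + c' / a₀ ^ 3) * a ^ 4 ≤ θ * σ * a ^ 4 :=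
        mul_le_mul_of_nonneg_right hC (by positivity)
      have e : (κ₁ * c' + θ / a₀ ^ 4 + c' / a₀ ^ 3) * a ^ 4 =
          κ₁ * c' * a ^ 4 + θ * (a ^ 4 / a₀ ^ 4) + c' * (a ^ 4 / a₀ ^ 3) := by ring
      have r1 : θ * 1 ≤ θ * (a ^ 4 / a₀ ^ 4) := mul_le_mul_of_nonneg_left p1 hθ
      have r2 : c' * a ≤ c' * (a ^ 4 / a₀ ^ 3) := mul_le_mul_of_nonneg_left p2 hc'.le
      have e2 : (κ₁ * a ^ 3 + 1) * (c' * a) = κ₁ * c' * a ^ 4 + c' * a := by ring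
      have e3 : θ * (σ * a ^ 4 - 1) = θ * σ * a ^ 4 - θ := by ring
      linarith
    linarith
  have hq0 : (0 : ℝ) < q := lt_of_lt_of_le (by positivity) q3
  -- `r`
  obtain ⟨r, hr⟩ : ∃ r : ℕ, r = ⌈((h : ℝ) + s + 2 * (q * w)) / q⌉₊ := ⟨_, rfl⟩
  have r2 : ((h : ℝ) + s + 2 * (q * w)) / q ≤ r := by rw [hr]; exact Nat.le_ceil _
  have r3 : (r : ℝ) < ((h : ℝ) + s + 2 * (q * w)) / q + 1 := by
    rw [hr]; exact Nat.ceil_lt_add_one (by positivity)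
  have hr0 : (0 : ℝ) < r := lt_of_lt_of_le (by positivity) r2
  rw [div_le_iff₀ hq0] at r2
  have hθs : θ * s ≤ θ * (σ * a ^ 4) := mul_le_mul_of_nonneg_left s1 hθ
  have r4 : (r : ℝ) ≤ r₁ * a ^ 2 := by
    have g1 : ((h : ℝ) + s + 2 * (q * w)) / q ≤
        (η * a ^ 5 + (1 + 2 * θ) * σ * a ^ 4) / (κ₁ * a ^ 3) := by
      apply div_le_div₀ (by positivity) _ (by positivity) q3
      have : (1 + 2 * θ) * σ * a ^ 4 = σ * a ^ 4 + 2 * (θ * (σ * a ^ 4)) := by ring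
      linarith
    have g2 : (η * a ^ 5 + (1 + 2 * θ) * σ * a ^ 4) / (κ₁ * a ^ 3) + 1 ≤ r₁ * a ^ 2 := by
      rw [div_add_one (by positivity), div_le_iff₀ (by positivity)]
      have p1 := pow_le_div h0 ha 4 1
      have p2 := pow_le_div h0 ha 3 2
      simp only [pow_one, Nat.reduceAdd] at p1 p2
      have g3 : (η + (1 + 2 * θ) * σ / a₀ + κ₁ / a₀ ^ 2) * a ^ 5 ≤ r₁ * κ₁ * a ^ 5 :=
        mul_le_mul_of_nonneg_right hD (by positivity)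
      have e : (η + (1 + 2 * θ) * σ / a₀ + κ₁ / a₀ ^ 2) * a ^ 5 =
          η * a ^ 5 + (1 + 2 * θ) * σ * (a ^ 5 / a₀) + κ₁ * (a ^ 5 / a₀ ^ 2) := by ring
      have t1 : (1 + 2 * θ) * σ * a ^ 4 ≤ (1 + 2 * θ) * σ * (a ^ 5 / a₀) :=
        mul_le_mul_of_nonneg_left p1 (by positivity)
      have t2 : κ₁ * a ^ 3 ≤ κ₁ * (a ^ 5 / a₀ ^ 2) := mul_le_mul_of_nonneg_left p2 hκ₁.le
      have e2 : r₁ * a ^ 2 * (κ₁ * a ^ 3) = r₁ * κ₁ * a ^ 5 := by ring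
      linarith
    linarith
  -- `q'`
  have hsq : 0 ≤ (s : ℝ) - q * w := by
    have : θ * s ≤ 1 * s := mul_le_mul_of_nonneg_right hθ1 hs0
    linarith
  obtain ⟨q', hq'⟩ : ∃ q' : ℕ, q' = ⌊((s : ℝ) - q * w) / r⌋₊ := ⟨_, rfl⟩
  have t1 : (q' : ℝ) ≤ ((s : ℝ) - q * w) / r := by rw [hq']; exact Nat.floor_le (by positivity)
  have t2 : ((s : ℝ) - q * w) / r < q' + 1 := by rw [hq']; exact Nat.lt_floor_add_one _
  have t1' : (q' : ℝ) * r ≤ (s : ℝ) - q * w := by rwa [le_div_iff₀ hr0] at t1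
  have t3 : κ₂ * a ^ 2 ≤ q' := by
    have hθ' : 0 ≤ 1 - θ := by linarith
    have g1 : (1 - θ) * (σ * a ^ 4 - 1) / (r₁ * a ^ 2) ≤ ((s : ℝ) - q * w) / r := by
      rcases le_or_gt (σ * a ^ 4 - 1) 0 with g | g
      · have : (1 - θ) * (σ * a ^ 4 - 1) / (r₁ * a ^ 2) ≤ 0 :=
          div_nonpos_of_nonpos_of_nonneg (mul_nonpos_of_nonneg_of_nonpos hθ' g) (by positivity)
        have g3 : 0 ≤ ((s : ℝ) - q * w) / r := by positivity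
        linarith
      · apply div_le_div₀ (by positivity) _ hr0 r4
        have : (1 - θ) * (σ * a ^ 4 - 1) ≤ (1 - θ) * s := by
          apply mul_le_mul_of_nonneg_left _ hθ'
          linarith
        have e : (1 - θ) * (s : ℝ) = s - θ * s := by ring
        linarith
    have g2 : κ₂ * a ^ 2 + 1 ≤ (1 - θ) * (σ * a ^ 4 - 1) / (r₁ * a ^ 2) := by
      rw [le_div_iff₀ (by positivity)]
      have p1 := pow_le_div h0 ha 0 4
      have p2 := pow_le_div h0 ha 2 2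
      simp only [pow_zero, zero_add, Nat.reduceAdd] at p1 p2
      have g3 : (κ₂ * r₁ + (1 - θ) / a₀ ^ 4 + r₁ / a₀ ^ 2) * a ^ 4 ≤ (1 - θ) * σ * a ^ 4 :=
        mul_le_mul_of_nonneg_right hF (by positivity)
      have e : (κ₂ * r₁ + (1 - θ) / a₀ ^ 4 + r₁ / a₀ ^ 2) * a ^ 4 =
          κ₂ * r₁ * a ^ 4 + (1 - θ) * (a ^ 4 / a₀ ^ 4) + r₁ * (a ^ 4 / a₀ ^ 2) := by ring
      have u1 : (1 - θ) * 1 ≤ (1 - θ) * (a ^ 4 / a₀ ^ 4) := mul_le_mul_of_nonneg_left p1 hθ'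
      have u2 : r₁ * a ^ 2 ≤ r₁ * (a ^ 4 / a₀ ^ 2) := mul_le_mul_of_nonneg_left p2 hr₁.le
      have e2 : (κ₂ * a ^ 2 + 1) * (r₁ * a ^ 2) = κ₂ * r₁ * a ^ 4 + r₁ * a ^ 2 := by ring
      have e3 : (1 - θ) * (σ * a ^ 4 - 1) = (1 - θ) * σ * a ^ 4 - (1 - θ) := by ring
      linarith
    linarith
  have h5 : (h : ℝ) ≤ τ * a ^ 6 := by
    refine h3.trans ?_
    have g1 : η * a ^ 5 ≤ τ * a₀ * a ^ 5 := mul_le_mul_of_nonneg_right hI (by positivity)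
    have g2 : τ * a ^ 5 * a₀ ≤ τ * a ^ 5 * a := mul_le_mul_of_nonneg_left ha (by positivity)
    have e1 : τ * a₀ * a ^ 5 = τ * a ^ 5 * a₀ := by ring
    have e2 : τ * a ^ 5 * a = τ * a ^ 6 := by ring
    linarith
  refine ⟨s, T, w, h, q, r, q', s1, T1, h5, by exact_mod_cast hh0, by exact_mod_cast h1, ?_, ?_, ?_,
    by rw [mul_comm (r : ℝ)] at r2; exact_mod_cast r2, ?_, ?_⟩
  · -- `h ≤ T`
    have : (h : ℝ) ≤ T := h5.trans T1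
    exact_mod_cast this
  · have : (q : ℝ) * w ≤ s := by linarith
    exact_mod_cast this
  · have : (T : ℝ) + s + 2 * (q * w) ≤ q * m := by
      have g1 : κ₁ * a ^ 3 * m ≤ q * m := mul_le_mul_of_nonneg_right q3 (Nat.cast_nonneg m)
      have g2 : (τ + 1 / a₀ ^ 6 + (1 + 2 * θ) * σ / a₀ ^ 2) * a ^ 3 * a ^ 3 ≤ κ₁ * m * a ^ 3 :=
        mul_le_mul_of_nonneg_right hG (by positivity)
      have p1 := pow_le_div h0 ha 4 2
      have p2 := pow_le_div h0 ha 0 6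
      simp only [pow_zero, zero_add, Nat.reduceAdd] at p1 p2
      have e : (τ + 1 / a₀ ^ 6 + (1 + 2 * θ) * σ / a₀ ^ 2) * a ^ 3 * a ^ 3 =
          τ * a ^ 6 + a ^ 6 / a₀ ^ 6 + (1 + 2 * θ) * σ * (a ^ 6 / a₀ ^ 2) := by ring
      have u1 : (1 + 2 * θ) * σ * a ^ 4 ≤ (1 + 2 * θ) * σ * (a ^ 6 / a₀ ^ 2) :=
        mul_le_mul_of_nonneg_left p1 (by positivity)
      have e2 : (1 + 2 * θ) * σ * a ^ 4 = σ * a ^ 4 + 2 * (θ * (σ * a ^ 4)) := by ring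
      have e3 : κ₁ * m * a ^ 3 = κ₁ * a ^ 3 * m := by ring
      linarith
    exact_mod_cast this
  · have : (q' : ℝ) * r + q * w ≤ s := by linarith
    exact_mod_cast this
  · have : (h : ℝ) + s + q' * r ≤ q' * m + q * w := by
      have g1 : κ₂ * a ^ 2 * m ≤ q' * m := mul_le_mul_of_nonneg_right t3 (Nat.cast_nonneg m)
      have g2 : (η + 2 * σ / a₀) * a ^ 3 * a ^ 2 ≤ κ₂ * m * a ^ 2 :=
        mul_le_mul_of_nonneg_right hH (by positivity)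
      have p1 := pow_le_div h0 ha 4 1
      simp only [pow_one, Nat.reduceAdd] at p1
      have e : (η + 2 * σ / a₀) * a ^ 3 * a ^ 2 = η * a ^ 5 + 2 * σ * (a ^ 5 / a₀) := by ring
      have u1 : 2 * σ * a ^ 4 ≤ 2 * σ * (a ^ 5 / a₀) := mul_le_mul_of_nonneg_left p1 (by positivity)
      have e3 : κ₂ * m * a ^ 2 = κ₂ * a ^ 2 * m := by ring
      have hqw : 0 ≤ (q : ℝ) * w := by positivity
      linarith
    exact_mod_cast this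

end Pool.Agent.H35.SQ
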