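import Mathlib
import Pool.Agent.H35.SP.Rows
import Pool.Agent.H35.SP.Spr

set_option autoImplicit false

/-! # Three spreadings of the rows -/

namespace Pool.Agent.H35.SQ

open Finset Pool.Agent.TH3.IR Pool.Agent.H35.SP

/-- one line of a spreading -/
theorem spread_line {k v q r : ℕ} (hk : k = v + q) {N N' : ℕ → ℕ} {e e' : ℕ → ℤ}
    (h1 : ∀ t, t ≤ r → 0 < N t → (N t : ℤ) ≤ k * (r - t) + e t) (h2 : ∀ t, r < t → N t = 0)
    (h3 : ∀ t, t ≤ r → (k : ℤ) * (r - t) + e' t ≤ N' t)
    (h : ∀ i ≤ r, ∀ S : Finset ℕ, (∀ t ∈ S, t ≤ r ∧ e' i - q * i < e t - q * t) → S.card ≤ i)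
    (i : ℕ) (A : Finset ℤ) (hA : ∀ a ∈ A, ∃ S : Finset ℕ, i < S.card ∧
      ∀ t ∈ S, ((v * t : ℤ) ≤ a ∧ a < v * t + N t)) : A.card ≤ N' i := by
  have hpos : ∀ a : ℤ, ∀ t : ℕ, ((v * t : ℤ) ≤ a ∧ a < v * t + N t) → 0 < N t ∧ t ≤ r := by
    rintro a t ⟨g1, g2⟩
    have h4 : (0 : ℤ) < N t := by linarith
    have h5 : 0 < N t := by exact_mod_cast h4
    refine ⟨h5, ?_⟩
    by_contra hcon
    rw [h2 t (not_le.1 hcon)] at h5
    exact lt_irrefl _ h5
  apply card_le_Ico (l := v * i) (u := v * i + N' i)
  · intro a ha
    obtain ⟨S, hS, hSt⟩ := hA a ha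
    constructor
    · obtain ⟨t, ht, hti⟩ := exists_ge_of_card hS
      have g1 := (hSt t ht).1
      have g2 : (v : ℤ) * i ≤ v * t :=
        mul_le_mul_of_nonneg_left (by exact_mod_cast hti) (by positivity)
      linarith
    · by_contra hge
      push Not at hge
      rcases le_or_gt i r with hi | hi
      · have := h i hi S (by
          intro t ht
          obtain ⟨g1, g2⟩ := hpos a t (hSt t ht)
          refine ⟨g2, ?_⟩
          have g3 := h1 t g2 g1
          have g4 := h3 i hi
          have g5 := (hSt t ht).2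
          have e1 : (k : ℤ) = v + q := by exact_mod_cast hk
          rw [e1] at g3 g4
          have e2 : ((v : ℤ) + q) * (r - t) = (v + q) * r - v * t - q * t := by ring
          have e3 : ((v : ℤ) + q) * (r - i) = (v + q) * r - v * i - q * i := by ring
          rw [e2] at g3
          rw [e3] at g4
          linarith)
        omega
      · have : S.card ≤ r + 1 := by
          apply card_le_of_lt
          intro t ht
          have := (hpos a t (hSt t ht)).2
          omega
        omega
  · linarith

/-- the rows with prescribed excess -/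
def Rw (k m : ℕ) (e : (Fin 2 → ℕ) → ℤ) (κ : Fin 2 → ℕ) : ℕ :=
  if κ 0 + κ 1 ≤ m then ((k : ℤ) * ((m : ℤ) - (κ 0 + κ 1)) + e κ).toNat else 0

theorem Rw_of_le {k m : ℕ} {e : (Fin 2 → ℕ) → ℤ} {κ : Fin 2 → ℕ} (h : κ 0 + κ 1 ≤ m) :
    (k : ℤ) * ((m : ℤ) - (κ 0 + κ 1)) + e κ ≤ Rw k m e κ := by
  unfold Rw
  rw [if_pos h]
  exact Int.self_le_toNat _

theorem Rw_pos {k m : ℕ} {e : (Fin 2 → ℕ) → ℤ} {κ : Fin 2 → ℕ} (h : 0 < Rw k m e κ) :
    (Rw k m e κ : ℤ) = (k : ℤ) * ((m : ℤ) - (κ 0 + κ 1)) + e κ ∧ κ 0 + κ 1 ≤ m := by
  unfold Rw at h ⊢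
  split_ifs at h ⊢ with h1
  · refine ⟨?_, h1⟩
    rw [Int.toNat_of_nonneg]
    by_contra hcon
    rw [Int.toNat_of_nonpos (by linarith)] at h
    exact lt_irrefl _ h
  · exact absurd h (lt_irrefl _)

theorem Rw_zero {k m : ℕ} {e : (Fin 2 → ℕ) → ℤ} {κ : Fin 2 → ℕ} (h : m < κ 0 + κ 1) :
    Rw k m e κ = 0 := by
  unfold Rw
  rw [if_neg (by omega)]

theorem Rw_le {k m B : ℕ} {e : (Fin 2 → ℕ) → ℤ} {κ : Fin 2 → ℕ} (h : e κ ≤ B) :
    Rw k m e κ ≤ k * m + B := by
  unfold Rw
  split_ifs with h1
  · rw [Int.toNat_le]
    have h2 : (k : ℤ) * ((m : ℤ) - (κ 0 + κ 1)) ≤ k * m := by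
      apply mul_le_mul_of_nonneg_left _ (by positivity)
      have : (0 : ℤ) ≤ (κ 0 : ℤ) + κ 1 := by positivity
      linarith
    push_cast
    linarith
  · exact Nat.zero_le _

/-- a spreading in the direction `j` -/
theorem EmpS_spread_line {ι : Type} {w : ι → ℕ} {k m q B : ℕ} (hq : q ≤ k)
    {N : (Fin 2 → ℕ) → ℕ} {e e' : (Fin 2 → ℕ) → ℤ} (j : Fin 2) (hNB : ∀ κ, N κ ≤ B)
    (hmB : m ≤ B) (hN0 : ∀ κ, m < κ 0 + κ 1 → N κ = 0)
    (hN : ∀ κ, κ 0 + κ 1 ≤ m → 0 < N κ → (N κ : ℤ) ≤ k * ((m : ℤ) - (κ 0 + κ 1)) + e κ)
    (h : ∀ κ : Fin 2 → ℕ, κ 0 + κ 1 ≤ m → ∀ S : Finset ℕ, (∀ t ∈ S,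
      (Function.update κ j t) 0 + (Function.update κ j t) 1 ≤ m ∧
        e' κ - q * κ j < e (Function.update κ j t) - q * t) → S.card ≤ κ j)
    (h' : EmpS w (Srt (Rw k m e'))) : EmpS w (Srt N) := by
  refine EmpS_spread (N' := Rw k m e') (B := B) hNB ?_ j (k - q) ?_ h'
  · intro κ i hi
    apply hN0
    have : κ i ≤ κ 0 + κ 1 := by
      fin_cases i
      · simp only [Fin.zero_eta]; omega
      · simp only [Fin.mk_one]; omega
    omega
  · intro κ A hA
    -- the other coordinate
    obtain ⟨c, hc⟩ : ∃ c : ℕ, ∀ t, (Function.update κ j t) 0 + (Function.update κ j t) 1 = t + c := by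
      fin_cases j
      · refine ⟨κ 1, fun t => ?_⟩
        simp only [Fin.zero_eta, Function.update_self,
          Function.update_of_ne (by decide : (1 : Fin 2) ≠ 0)]
      · refine ⟨κ 0, fun t => ?_⟩
        simp only [Fin.mk_one, Function.update_self,
          Function.update_of_ne (by decide : (0 : Fin 2) ≠ 1)]
        omega
    have hcκ : κ 0 + κ 1 = κ j + c := by
      have := hc (κ j)
      rwa [Function.update_eq_self] at this
    rcases lt_or_ge m c with hm | hm
    · -- nothing
      have : A = ∅ := by
        rw [eq_empty_iff_forall_notMem]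
        intro a ha
        obtain ⟨S, hS, hSt⟩ := hA a ha
        obtain ⟨t, ht, _⟩ := exists_ge_of_card hS
        obtain ⟨g1, g2⟩ := hSt t ht
        rw [hN0 _ (by rw [hc]; omega)] at g2
        push_cast at g2
        linarith
      rw [this, card_empty]
      exact Nat.zero_le _
    · have hupd : ∀ t, Function.update (Function.update κ j t) j (κ j) = κ := by
        intro t
        rw [Function.update_idem, Function.update_eq_self]
      have hcast : ∀ t : ℕ, (((Function.update κ j t) 0 : ℕ) : ℤ) + ((Function.update κ j t) 1 : ℕ) =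
          t + c := by
        intro t
        exact_mod_cast hc t
      have := spread_line (k := k) (v := k - q) (q := q) (r := m - c) (by omega)
        (N := fun t => N (Function.update κ j t)) (N' := fun t => Rw k m e' (Function.update κ j t))
        (e := fun t => e (Function.update κ j t)) (e' := fun t => e' (Function.update κ j t))
        (by
          intro t ht htN
          have g1 := hN (Function.update κ j t) (by rw [hc]; omega) htN
          rw [hcast] at g1
          have e1 : (((m - c : ℕ) : ℤ) - t) = (m : ℤ) - (t + c) := by omega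
          rw [e1]
          exact g1)
        (by
          intro t ht
          exact hN0 _ (by rw [hc]; omega))
        (by
          intro t ht
          have g1 := Rw_of_le (k := k) (m := m) (e := e') (κ := Function.update κ j t)
            (by rw [hc]; omega)
          rw [hcast] at g1
          have e1 : (((m - c : ℕ) : ℤ) - t) = (m : ℤ) - (t + c) := by omega
          rw [e1]
          exact g1)
        (by
          intro i hi S hS
          have g1 := h (Function.update κ j i) (by rw [hc]; omega) S (by
            intro t ht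
            obtain ⟨g2, g3⟩ := hS t ht
            rw [Function.update_idem, Function.update_self]
            exact ⟨by rw [hc]; omega, g3⟩)
          rwa [Function.update_self] at g1)
        (κ j) A (by
          intro a ha
          obtain ⟨S, hS, hSt⟩ := hA a ha
          exact ⟨S, hS, fun t ht => hSt t ht⟩)
      simp only [Function.update_eq_self] at this
      exact this

/-- the numbers which are at least `a` and less than `b` -/
theorem card_le_two {S : Finset ℕ} {a b c n : ℕ} (h : ∀ t ∈ S, t < a ∨ (b < t ∧ t ≤ c))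
    (hn : a + (c - b) ≤ n) : S.card ≤ n := by
  have h1 : S ⊆ range a ∪ Ioc b c := by
    intro t ht
    rw [mem_union, mem_range, mem_Ioc]
    exact h t ht
  have h2 := (card_le_card h1).trans (card_union_le _ _)
  rw [card_range, Nat.card_Ioc] at h2
  omega

/-- Three spreadings. The rows of the level `m` have at most `T` elements, the others have room for
`s` elements. -/
theorem EmpS_three {ι : Type} [Fintype ι] {k m s T w h q r q' : ℕ} (hk : Fintype.card ι = k)
    (hhk : h ≤ k) (hsk : s ≤ k) (hh0 : 0 < h) (hw : T + s ≤ h * w) (hhT : h ≤ T)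
    (hqw : q * w ≤ s) (h1 : T + s + 2 * (q * w) ≤ q * m) (h2 : h + s + 2 * (q * w) ≤ q * r)
    (h3 : q' * r + q * w ≤ s) (h4 : h + s + q' * r ≤ q' * m + q * w)
    {N : (Fin 2 → ℕ) → ℕ} (hN1 : ∀ κ, κ 0 + κ 1 < m → N κ + s ≤ k * (m - (κ 0 + κ 1)))
    (hN2 : ∀ κ, κ 0 + κ 1 = m → N κ ≤ T) (hN3 : ∀ κ, m < κ 0 + κ 1 → N κ = 0) :
    EmpS (fun _ : ι => m) (Srt N) := by
  have hw0 : 0 < w := by
    rcases Nat.eq_zero_or_pos w with h | h
    · rw [h, mul_zero] at hw
      omega
    · exact h
  have hqk : q ≤ k := by
    have : q * 1 ≤ q * w := Nat.mul_le_mul_left q hw0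
    omega
  have hrm : r < m := by
    have g1 : q' * r < q' * m := by omega
    exact lt_of_mul_lt_mul_left g1 (Nat.zero_le _)
  have hr0 : 0 < r := by
    rcases Nat.eq_zero_or_pos r with h | h
    · rw [h, mul_zero] at h2
      omega
    · exact h
  have hq'k : q' ≤ k := by
    have : q' * 1 ≤ q' * r := Nat.mul_le_mul_left q' hr0
    omega
  set e0 : (Fin 2 → ℕ) → ℤ := fun κ => if κ 0 + κ 1 < m then -(s : ℤ) else T with he0
  set e1 : (Fin 2 → ℕ) → ℤ := fun κ => if κ 0 + κ 1 + w ≤ m then -(s : ℤ) else
    if κ 0 = 0 then (T : ℤ) else h with he1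
  set e2 : (Fin 2 → ℕ) → ℤ := fun κ => if κ 1 < w ∧ m < κ 0 + r then (h : ℤ) else
    -((s : ℤ) - q * w) with he2
  have u00 : ∀ (κ : Fin 2 → ℕ) (t : ℕ), (Function.update κ 0 t) 0 = t := fun κ t =>
    Function.update_self ..
  have u01 : ∀ (κ : Fin 2 → ℕ) (t : ℕ), (Function.update κ 0 t) 1 = κ 1 := fun κ t =>
    Function.update_of_ne (by decide) ..
  have u11 : ∀ (κ : Fin 2 → ℕ) (t : ℕ), (Function.update κ 1 t) 1 = t := fun κ t =>
    Function.update_self ..
  have u10 : ∀ (κ : Fin 2 → ℕ) (t : ℕ), (Function.update κ 1 t) 0 = κ 0 := fun κ t =>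
    Function.update_of_ne (by decide) ..
  -- the casts of the assumptions
  have hwZ : (T : ℤ) + s ≤ h * w := by exact_mod_cast hw
  have h1Z : (T : ℤ) + s + 2 * (q * w) ≤ q * m := by exact_mod_cast h1
  have h2Z : (h : ℤ) + s + 2 * (q * w) ≤ q * r := by exact_mod_cast h2
  have h3Z : (q' : ℤ) * r + q * w ≤ s := by exact_mod_cast h3
  have h4Z : (h : ℤ) + s + q' * r ≤ q' * m + q * w := by exact_mod_cast h4
  have hqwZ : (q : ℤ) * w ≤ s := by exact_mod_cast hqw
  have hhTZ : (h : ℤ) ≤ T := by exact_mod_cast hhT
  have hq0 : (0 : ℤ) ≤ q := Nat.cast_nonneg q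
  have hh0' : (0 : ℤ) ≤ h := Nat.cast_nonneg h
  have hq0' : (0 : ℤ) ≤ q' := Nat.cast_nonneg q'
  have hs0 : (0 : ℤ) ≤ s := Nat.cast_nonneg s
  have hT0 : (0 : ℤ) ≤ T := Nat.cast_nonneg T
  have hqw0 : (0 : ℤ) ≤ q * w := by positivity
  -- the first spreading
  refine EmpS_spread_line (k := k) (m := m) (q := h) (B := k * m + T + m) (e := e0) (e' := e1) hhk 0
    ?_ (by omega) hN3 ?_ ?_ ?_
  · intro κ
    rcases lt_trichotomy (κ 0 + κ 1) m with h | h | h
    · have g1 := hN1 κ h
      have g2 : k * (m - (κ 0 + κ 1)) ≤ k * m := Nat.mul_le_mul_left k (Nat.sub_le _ _)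
      omega
    · have g1 := hN2 κ h
      omega
    · rw [hN3 κ h]
      exact Nat.zero_le _
  · intro κ hκ _
    rw [he0]
    simp only
    split_ifs with g
    · have g1 := hN1 κ g
      have g2 : ((N κ + s : ℕ) : ℤ) ≤ ((k * (m - (κ 0 + κ 1)) : ℕ) : ℤ) := by exact_mod_cast g1
      rw [Nat.cast_mul, Nat.cast_sub hκ] at g2
      push_cast at g2
      linarith
    · have g1 : κ 0 + κ 1 = m := by omega
      have g2 := hN2 κ g1
      have g3 : (m : ℤ) = κ 0 + κ 1 := by exact_mod_cast g1.symm
      have g4 : (N κ : ℤ) ≤ T := by exact_mod_cast g2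
      rw [g3, sub_self, mul_zero, zero_add]
      exact g4
  · intro κ hκ S hS
    rw [he0, he1] at hS
    simp only [u00, u01] at hS
    rcases le_or_gt (κ 0 + κ 1 + w) m with g | g
    · apply card_le_of_lt
      intro t ht
      obtain ⟨g1, g2⟩ := hS t ht
      rw [if_pos g] at g2
      split_ifs at g2 with g3
      · have g4 : (h : ℤ) * t < h * κ 0 := by linarith
        have g5 : (t : ℤ) < κ 0 := lt_of_mul_lt_mul_left g4 hh0'
        exact_mod_cast g5
      · exfalso
        have g4 : (h : ℤ) * (κ 0 + w) ≤ h * t := by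
          apply mul_le_mul_of_nonneg_left _ hh0'
          have : κ 0 + w ≤ t := by omega
          exact_mod_cast this
        have g5 : (h : ℤ) * (κ 0 + w) = h * κ 0 + h * w := by ring
        linarith
    · rcases Nat.eq_zero_or_pos (κ 0) with h0 | h0
      · have : S = ∅ := by
          rw [eq_empty_iff_forall_notMem]
          intro t ht
          obtain ⟨g1, g2⟩ := hS t ht
          rw [if_neg (by omega), if_pos h0, h0] at g2
          have g3 : (0 : ℤ) ≤ h * t := by positivity
          split_ifs at g2 with g4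
          · push_cast at g2
            linarith
          · push_cast at g2
            linarith
        rw [this, card_empty]
        exact Nat.zero_le _
      · apply card_le_two (a := κ 0 - 1) (b := m - κ 1 - 1) (c := m - κ 1)
        · intro t ht
          obtain ⟨g1, g2⟩ := hS t ht
          rw [if_neg (by omega), if_neg (by omega)] at g2
          split_ifs at g2 with g4
          · left
            have g5 : (h : ℤ) * t < h * ((κ 0 : ℤ) - 1) := by
              have : (h : ℤ) * ((κ 0 : ℤ) - 1) = h * κ 0 - h := by ring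
              linarith
            have g6 : (t : ℤ) < (κ 0 : ℤ) - 1 := lt_of_mul_lt_mul_left g5 hh0'
            omega
          · rcases Nat.eq_zero_or_pos (m - κ 1) with g5 | g5
            · exfalso
              omega
            · right
              omega
        · omega
  -- the second spreading
  refine EmpS_spread_line (k := k) (m := m) (q := q) (B := k * m + T + m) (e := e1) (e' := e2) hqk 1
    ?_ (by omega) (fun κ hκ => Rw_zero hκ) (fun κ _ hκ => (Rw_pos hκ).1.le) ?_ ?_
  · intro κ
    refine (Rw_le (B := T) ?_).trans (by omega)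
    rw [he1]
    simp only
    split_ifs <;> linarith
  · intro κ hκ S hS
    rw [he1, he2] at hS
    simp only [u10, u11] at hS
    by_cases hc : κ 1 < w ∧ m < κ 0 + r
    · apply card_le_of_lt
      intro t ht
      obtain ⟨g1, g2⟩ := hS t ht
      rw [if_pos hc] at g2
      have g3 : (q : ℤ) * t < q * κ 1 := by
        split_ifs at g2 with g4 g5
        · linarith
        · exfalso
          omega
        · linarith
      have g4 : (t : ℤ) < κ 1 := lt_of_mul_lt_mul_left g3 hq0
      exact_mod_cast g4
    · -- the elements below the band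
      have hlow : ∀ t ∈ S, κ 0 + t + w ≤ m → t + w < κ 1 := by
        intro t ht htw
        obtain ⟨g1, g2⟩ := hS t ht
        rw [if_neg hc, if_pos htw] at g2
        have g3 : (q : ℤ) * (t + w) < q * κ 1 := by
          have : (q : ℤ) * (t + w) = q * t + q * w := by ring
          linarith
        have g4 : ((t : ℤ) + w) < κ 1 := lt_of_mul_lt_mul_left g3 hq0
        exact_mod_cast g4
      rcases le_or_gt w (κ 1) with g | g
      · apply card_le_two (a := κ 1 - w) (b := m - κ 0 - w) (c := m - κ 0)
        · intro t ht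
          rcases le_or_gt (κ 0 + t + w) m with g1 | g1
          · left
            have := hlow t ht g1
            omega
          · right
            have := (hS t ht).1
            omega
        · omega
      · have g' : κ 0 + r ≤ m := by
          by_contra hcon
          exact hc ⟨g, by omega⟩
        have : S = ∅ := by
          rw [eq_empty_iff_forall_notMem]
          intro t ht
          rcases le_or_gt (κ 0 + t + w) m with g1 | g1
          · have := hlow t ht g1
            omega
          · obtain ⟨g2, g3⟩ := hS t ht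
            rw [if_neg hc, if_neg (by omega)] at g3
            have g4 : (q : ℤ) * κ 1 ≤ q * w :=
              mul_le_mul_of_nonneg_left (by exact_mod_cast g.le) hq0
            split_ifs at g3 with g5
            · have g6 : (q : ℤ) * m ≤ q * (t + w) := by
                apply mul_le_mul_of_nonneg_left _ hq0
                have : m ≤ t + w := by omega
                exact_mod_cast this
              have g7 : (q : ℤ) * (t + w) = q * t + q * w := by ring
              linarith
            · have g6 : (q : ℤ) * r ≤ q * (t + w) := by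
                apply mul_le_mul_of_nonneg_left _ hq0
                have : r ≤ t + w := by omega
                exact_mod_cast this
              have g7 : (q : ℤ) * (t + w) = q * t + q * w := by ring
              linarith
        rw [this, card_empty]
        exact Nat.zero_le _
  -- the third spreading
  refine EmpS_spread_line (k := k) (m := m) (q := q') (B := k * m + T + m) (e := e2)
    (e' := fun _ => 0) hq'k 0
    ?_ (by omega) (fun κ hκ => Rw_zero hκ) (fun κ _ hκ => (Rw_pos hκ).1.le) ?_ ?_
  · intro κ
    refine (Rw_le (B := T) ?_).trans (by omega)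
    rw [he2]
    simp only
    split_ifs <;> linarith
  · intro κ hκ S hS
    rw [he2] at hS
    simp only [u00, u01] at hS
    have hlow : ∀ t ∈ S, ¬ (κ 1 < w ∧ m < t + r) → t + r < κ 0 := by
      intro t ht htw
      obtain ⟨g1, g2⟩ := hS t ht
      rw [if_neg htw] at g2
      have g3 : (q' : ℤ) * (t + r) < q' * κ 0 := by
        have : (q' : ℤ) * (t + r) = q' * t + q' * r := by ring
        linarith
      have g4 : ((t : ℤ) + r) < κ 0 := lt_of_mul_lt_mul_left g3 hq0'
      exact_mod_cast g4
    rcases le_or_gt r (κ 0) with g | g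
    · apply card_le_two (a := κ 0 - r) (b := m - r) (c := m)
      · intro t ht
        by_cases hc : κ 1 < w ∧ m < t + r
        · right
          have := (hS t ht).1
          omega
        · left
          have := hlow t ht hc
          omega
      · omega
    · have : S = ∅ := by
        rw [eq_empty_iff_forall_notMem]
        intro t ht
        by_cases hc : κ 1 < w ∧ m < t + r
        · obtain ⟨g1, g2⟩ := hS t ht
          rw [if_pos hc] at g2
          have g4 : (q' : ℤ) * κ 0 ≤ q' * r :=
            mul_le_mul_of_nonneg_left (by exact_mod_cast g.le) hq0'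
          have g6 : (q' : ℤ) * m ≤ q' * (t + r) := by
            apply mul_le_mul_of_nonneg_left _ hq0'
            exact_mod_cast hc.2.le
          have g7 : (q' : ℤ) * (t + r) = q' * t + q' * r := by ring
          linarith
        · have := hlow t ht hc
          omega
      rw [this, card_empty]
      exact Nat.zero_le _
  · refine EmpS_rows (fun m hm i => hm.1 i) ?_
    intro κ B hB
    rw [sum_const, card_univ, hk, smul_eq_mul, Fin.sum_univ_two]
    apply card_le_Ico (l := 0) (u := ((k * (m - (κ 0 + κ 1)) : ℕ) : ℤ))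
    · intro a ha
      obtain ⟨g0, g1, g2⟩ := hB a ha
      simp only [Int.toNat_natCast] at g1 g2
      refine ⟨g1, ?_⟩
      unfold Rw at g2
      split_ifs at g2 with g3
      · rw [add_zero, Int.toNat_of_nonneg (by
          apply mul_nonneg (Nat.cast_nonneg k)
          have : ((κ 0 : ℤ) + κ 1) ≤ m := by exact_mod_cast g3
          linarith)] at g2
        rw [Nat.cast_mul, Nat.cast_sub g3]
        push_cast
        exact g2
      · exfalso
        push_cast at g2
        linarith
    · rw [sub_zero]

end Pool.Agent.H35.SQ
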