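import Mathlib
import Pool.Agent.H35.SP.Fin3
import Pool.Agent.H35.SQ.Ind5
import Pool.Agent.H35.SQ.Emp6
import Pool.Agent.H35.SQ.Spr3
import Pool.Agent.H35.SQ.NPar3
import Pool.Agent.H35.SQ.Equi

set_option autoImplicit false

/-! # General points of space -/

namespace Pool.Agent.H35.SQ

open Finset MvPolynomial Pool.Agent.TH3.IR Pool.Agent.H35.SP

/-- the cube root -/
theorem cbrt_pow (k : ℕ) : ((k : ℝ) ^ ((1 : ℝ) / 3)) ^ 3 = k := by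
  have h := Real.rpow_inv_natCast_pow (Nat.cast_nonneg k : (0 : ℝ) ≤ k) (n := 3) (by norm_num)
  rw [one_div]
  exact_mod_cast h

theorem cbrt_ge {k : ℕ} {a : ℝ} (h : a ^ 3 ≤ k) : a ≤ (k : ℝ) ^ ((1 : ℝ) / 3) := by
  by_contra hcon
  push Not at hcon
  have h0 : 0 ≤ (k : ℝ) ^ ((1 : ℝ) / 3) := by positivity
  have h1 := pow_lt_pow_left₀ hcon h0 (show 3 ≠ 0 by norm_num)
  rw [cbrt_pow] at h1
  linarith

theorem cbrt_sq (k : ℕ) : (k : ℝ) ^ ((2 : ℝ) / 3) = ((k : ℝ) ^ ((1 : ℝ) / 3)) ^ 2 := by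
  rw [← Real.rpow_natCast, ← Real.rpow_mul (Nat.cast_nonneg k)]
  norm_num

theorem cbrt_irrational {k : ℕ} (h : ¬ ∃ t : ℕ, t ^ 3 = k) :
    Irrational ((k : ℝ) ^ ((1 : ℝ) / 3)) := by
  refine irrational_nrt_of_notint_nrt 3 k (by exact_mod_cast cbrt_pow k) ?_ (by norm_num)
  rintro ⟨y, hy⟩
  apply h
  have h0 : 0 ≤ (k : ℝ) ^ ((1 : ℝ) / 3) := by positivity
  rw [hy] at h0
  have h1 : 0 ≤ y := by exact_mod_cast h0
  refine ⟨y.toNat, ?_⟩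
  have h2 := cbrt_pow k
  rw [hy] at h2
  have h3 : y ^ 3 = (k : ℤ) := by exact_mod_cast h2
  have h4 : ((y.toNat ^ 3 : ℕ) : ℤ) = k := by
    push_cast
    rw [Int.toNat_of_nonneg h1]
    exact h3
  exact_mod_cast h4

/-- no forms in one degree -/
theorem exists_empty {k m s T w h q r q' : ℕ} {ρ E : ℝ} (hρk : ρ = (k : ℝ) ^ ((1 : ℝ) / 3))
    (hρ : 215 ≤ ρ) (hE : E ≤ 3 / 2)
    (hs : s + (43175 / 100000) * ρ ^ 2 + 37 * ρ ≤ E * ρ ^ 2)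
    (hT : (ρ + 7 / 2 - E) ^ 3 / 6 + 2 * ρ + 4 ≤ T)
    (hhk : h ≤ k) (hh0 : 0 < h) (hw : T + s ≤ h * w) (hhT : h ≤ T)
    (hqw : q * w ≤ s) (h1 : T + s + 2 * (q * w) ≤ q * m) (h2 : h + s + 2 * (q * w) ≤ q * r)
    (h3 : q' * r + q * w ≤ s) (h4 : h + s + q' * r ≤ q' * m + q * w)
    (d : ℕ) (hd : d ≤ ρ * (m + 1) - 2 - E) :
    ∃ F : MvPolynomial (Fin k × Fin 3) ℂ, F ≠ 0 ∧ ∀ P : Fin k → Fin 3 → ℂ,
      MvPolynomial.eval (fun ij : Fin k × Fin 3 => P ij.1 ij.2) F ≠ 0 →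
        NoF (fun _ : Fin k => m) P d := by
  have hρ0 : 0 < ρ := by linarith
  have hρ3 : ρ ^ 3 = k := by rw [hρk]; exact cbrt_pow k
  by_cases hlt : (d : ℝ) < ρ * m
  · have hk : 3 ^ 3 ≤ k := by
      have h1 : (215 : ℝ) ^ 3 ≤ ρ ^ 3 := pow_le_pow_left₀ (by norm_num) hρ 3
      rw [hρ3] at h1
      have h2 : ((3 ^ 3 : ℕ) : ℝ) ≤ k := by
        norm_num at h1 ⊢
        linarith
      exact_mod_cast h2
    refine main_empty_w 3 k (by norm_num) hk (fun _ => m) d ?_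
    rw [Finset.sum_const, Finset.card_univ, Fintype.card_fin, nsmul_eq_mul]
    have e : (k : ℝ) ^ ((((3 : ℕ) : ℝ) - 1) / ((3 : ℕ) : ℝ)) = ρ ^ 2 := by
      rw [hρk, ← cbrt_sq]
      norm_num
    rw [e, ← hρ3]
    have : ρ ^ 2 * d < ρ ^ 2 * (ρ * m) := mul_lt_mul_of_pos_left hlt (by positivity)
    nlinarith
  · push Not at hlt
    have hsk : s ≤ k := by
      have h1 : (s : ℝ) ≤ k := by
        rw [← hρ3]
        have h2 : E * ρ ^ 2 ≤ 3 / 2 * ρ ^ 2 := mul_le_mul_of_nonneg_right hE (by positivity)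
        have h3 : 215 * ρ ^ 2 ≤ ρ * ρ ^ 2 := mul_le_mul_of_nonneg_right hρ (by positivity)
        have h4 : 0 ≤ ρ ^ 2 := by positivity
        nlinarith
      exact_mod_cast h1
    refine empty_of_EmpS (EmpS_six d m k s T hρ hρ3 hE hd hs (by linarith) ?_
      (fun N g1 g2 g3 => EmpS_three (Fintype.card_fin k) hhk hsk hh0 hw hhT hqw h1 h2 h3 h4 g1 g2 g3))
    refine le_trans ?_ hT
    have h1 : (d : ℝ) - ρ * m + 11 / 2 ≤ ρ + 7 / 2 - E := by linarith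
    have h2 : ((d : ℝ) - ρ * m + 11 / 2) ^ 3 ≤ (ρ + 7 / 2 - E) ^ 3 :=
      pow_le_pow_left₀ (by linarith) h1 3
    linarith

/-- no forms, one open set for all degrees -/
theorem exists_empty_all {k m s T w h q r q' : ℕ} {ρ E : ℝ} (hρk : ρ = (k : ℝ) ^ ((1 : ℝ) / 3))
    (hρ : 215 ≤ ρ) (hE : E ≤ 3 / 2)
    (hs : s + (43175 / 100000) * ρ ^ 2 + 37 * ρ ≤ E * ρ ^ 2)
    (hT : (ρ + 7 / 2 - E) ^ 3 / 6 + 2 * ρ + 4 ≤ T)
    (hhk : h ≤ k) (hh0 : 0 < h) (hw : T + s ≤ h * w) (hhT : h ≤ T)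
    (hqw : q * w ≤ s) (h1 : T + s + 2 * (q * w) ≤ q * m) (h2 : h + s + 2 * (q * w) ≤ q * r)
    (h3 : q' * r + q * w ≤ s) (h4 : h + s + q' * r ≤ q' * m + q * w) :
    ∃ F : MvPolynomial (Fin k × Fin 3) ℂ, F ≠ 0 ∧ ∀ P : Fin k → Fin 3 → ℂ,
      MvPolynomial.eval (fun ij : Fin k × Fin 3 => P ij.1 ij.2) F ≠ 0 →
        ∀ w : Fin k → ℕ, (∀ i, m ≤ w i) → ∀ d : ℕ, (d : ℝ) ≤ ρ * (m + 1) - 2 - E →
          NoF w P d := by
  have hE0 : 0 ≤ E := by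
    by_contra hcon
    push Not at hcon
    have hρ0 : 0 < ρ := by linarith
    have h1 : E * ρ ^ 2 ≤ 0 := mul_nonpos_of_nonpos_of_nonneg hcon.le (by positivity)
    have h2 : (0 : ℝ) ≤ s := Nat.cast_nonneg s
    have h3 : 0 < (43175 / 100000) * ρ ^ 2 := by positivity
    linarith
  obtain ⟨F, hF, h2⟩ := exists_common (ι := Fin k × Fin 3) (Finset.range ⌈ρ * (m + 1)⌉₊)
    (fun d P => (d : ℝ) ≤ ρ * (m + 1) - 2 - E →
      NoF (fun _ : Fin k => m) (fun i j => P (i, j)) d) (by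
      intro d _
      by_cases hd : (d : ℝ) ≤ ρ * (m + 1) - 2 - E
      · obtain ⟨F, hF, g3⟩ := exists_empty hρk hρ hE hs hT hhk hh0 hw hhT hqw h1 h2 h3 h4 d hd
        exact ⟨F, hF, fun P hP _ => g3 (fun i j => P (i, j)) hP⟩
      · exact ⟨1, one_ne_zero, fun _ _ h => absurd h hd⟩)
  refine ⟨F, hF, fun P hP w hw d hd => ?_⟩
  have h3 : d ∈ Finset.range ⌈ρ * (m + 1)⌉₊ := by
    rw [Finset.mem_range, Nat.lt_ceil]
    linarith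
  exact (h2 _ hP d h3 hd).mono_w hw

/-- no forms, with real parameters -/
theorem exists_empty_par {k m : ℕ} {ρ E a₀ μ σ τ θ c c' η κ₁ r₁ κ₂ : ℝ}
    (hρk : ρ = (k : ℝ) ^ ((1 : ℝ) / 3)) (hρ : 215 ≤ ρ) (hE : E ≤ 3 / 2) (h0 : 0 < a₀)
    (haρ : a₀ ^ 2 ≤ ρ) (hs : (σ + 43175 / 100000) * ρ ^ 2 + 37 * ρ ≤ E * ρ ^ 2)
    (hT : (ρ + 7 / 2 - E) ^ 3 / 6 + 2 * ρ + 4 ≤ τ * ρ ^ 3)
    (hσ : 0 < σ) (hτ : 0 < τ) (hτ1 : τ ≤ 1 / 2) (hθ : 0 ≤ θ) (hθ1 : θ ≤ 1) (hc : 0 < c) (hη : 0 < η)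
    (hκ₁ : 0 < κ₁) (hr₁ : 0 < r₁) (hκ₂ : 0 < κ₂) (hμ : 0 < μ)
    (hA : c + 1 / a₀ ≤ c')
    (hB : τ + σ / a₀ ^ 2 + 1 / a₀ ^ 6 + c / a₀ ^ 5 ≤ η * c)
    (hC : κ₁ * c' + θ / a₀ ^ 4 + c' / a₀ ^ 3 ≤ θ * σ)
    (hD : η + (1 + 2 * θ) * σ / a₀ + κ₁ / a₀ ^ 2 ≤ r₁ * κ₁)
    (hF : κ₂ * r₁ + (1 - θ) / a₀ ^ 4 + r₁ / a₀ ^ 2 ≤ (1 - θ) * σ)
    (hG : τ + 1 / a₀ ^ 6 + (1 + 2 * θ) * σ / a₀ ^ 2 ≤ κ₁ * μ * a₀)
    (hH : η + 2 * σ / a₀ ≤ κ₂ * μ * a₀)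
    (hI : η ≤ τ * a₀) (hm : μ * ρ ^ 2 ≤ m) :
    ∃ F : MvPolynomial (Fin k × Fin 3) ℂ, F ≠ 0 ∧ ∀ P : Fin k → Fin 3 → ℂ,
      MvPolynomial.eval (fun ij : Fin k × Fin 3 => P ij.1 ij.2) F ≠ 0 →
        ∀ w : Fin k → ℕ, (∀ i, m ≤ w i) → ∀ d : ℕ, (d : ℝ) ≤ ρ * (m + 1) - 2 - E →
          NoF w P d := by
  have hρ0 : 0 < ρ := by linarith
  have hρ3 : ρ ^ 3 = k := by rw [hρk]; exact cbrt_pow k
  obtain ⟨a, ha⟩ : ∃ a : ℝ, a = √ρ := ⟨_, rfl⟩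
  have ha2 : a ^ 2 = ρ := by rw [ha]; exact Real.sq_sqrt hρ0.le
  have haa : a₀ ≤ a := by rw [ha]; exact Real.le_sqrt_of_sq_le haρ
  have ha4 : a ^ 4 = ρ ^ 2 := by rw [← ha2]; ring
  have ha6 : a ^ 6 = ρ ^ 3 := by rw [← ha2]; ring
  have ha0 : 0 < a := by linarith
  have hm' : μ * a₀ * a ^ 3 ≤ m := by
    refine le_trans ?_ hm
    rw [← ha4]
    have : μ * a ^ 3 * a₀ ≤ μ * a ^ 3 * a := mul_le_mul_of_nonneg_left haa (by positivity)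
    have e1 : μ * a₀ * a ^ 3 = μ * a ^ 3 * a₀ := by ring
    have e2 : μ * a ^ 3 * a = μ * a ^ 4 := by ring
    linarith
  obtain ⟨s, T, w, h, q, r, q', e1, e2, e0, e3, e4, e5, e6, e7, e8, e9, e10⟩ :=
    nat_par3 (m := m) h0 haa hσ hτ hθ hθ1 hc hη hκ₁ hr₁ hκ₂ hA hB hC hD hF
      (by
        have g1 : (τ + 1 / a₀ ^ 6 + (1 + 2 * θ) * σ / a₀ ^ 2) * a ^ 3 ≤ κ₁ * μ * a₀ * a ^ 3 :=
          mul_le_mul_of_nonneg_right hG (by positivity)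
        have g2 : κ₁ * (μ * a₀ * a ^ 3) ≤ κ₁ * m := mul_le_mul_of_nonneg_left hm' hκ₁.le
        linarith)
      (by
        have g1 : (η + 2 * σ / a₀) * a ^ 3 ≤ κ₂ * μ * a₀ * a ^ 3 :=
          mul_le_mul_of_nonneg_right hH (by positivity)
        have g2 : κ₂ * (μ * a₀ * a ^ 3) ≤ κ₂ * m := mul_le_mul_of_nonneg_left hm' hκ₂.le
        linarith)
      hI
  rw [ha4] at e1
  rw [ha6] at e2
  rw [ha6] at e0
  have hhk : h ≤ k := by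
    have g1 : (h : ℝ) ≤ k := by
      rw [← hρ3]
      have : τ * ρ ^ 3 ≤ 1 / 2 * ρ ^ 3 := mul_le_mul_of_nonneg_right hτ1 (by positivity)
      have g2 : 0 < ρ ^ 3 := by positivity
      linarith
    exact_mod_cast g1
  exact exists_empty_all hρk hρ hE (by linarith) (hT.trans e2) hhk e3 e4 e5 e6 e7 e8 e9 e10

/-- the three cases of the emptiness result -/
theorem exists_empty_cases {k m : ℕ} {ρ : ℝ} (hρk : ρ = (k : ℝ) ^ ((1 : ℝ) / 3)) (E : ℝ)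
    (h : 215 ≤ ρ ∧ 1 / 20 * ρ ^ 2 ≤ m ∧ E = 3 / 2 ∨
      4641 ≤ ρ ∧ 1 / 15 * ρ ^ 2 ≤ m ∧ E = 566 / 1000 ∨
      10000 ≤ ρ ∧ 3 * ρ ^ 2 ≤ m ∧ E = 446 / 1000) :
    ∃ F : MvPolynomial (Fin k × Fin 3) ℂ, F ≠ 0 ∧ ∀ P : Fin k → Fin 3 → ℂ,
      MvPolynomial.eval (fun ij : Fin k × Fin 3 => P ij.1 ij.2) F ≠ 0 →
        ∀ w : Fin k → ℕ, (∀ i, m ≤ w i) → ∀ d : ℕ, (d : ℝ) ≤ ρ * (m + 1) - 2 - E →
          NoF w P d := by
  rcases h with ⟨h1, h2, rfl⟩ | ⟨h1, h2, rfl⟩ | ⟨h1, h2, rfl⟩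
  · have hρ0 : 0 < ρ := by linarith
    have g1 : 215 * ρ ≤ ρ ^ 2 := by nlinarith
    refine exists_empty_par hρk h1 le_rfl (a₀ := 1466 / 100) (μ := 1 / 20) (σ := 89 / 100)
      (τ := 173 / 1000) (θ := 65 / 100) (c := 8 / 10) (c' := 87 / 100) (η := 2215 / 10000)
      (κ₁ := 664 / 1000) (r₁ := 549 / 1000) (κ₂ := 562 / 1000) (by norm_num) (by norm_num; linarith)
      (by nlinarith) ?_ (by norm_num) (by norm_num) (by norm_num) (by norm_num) (by norm_num)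
      (by norm_num) (by norm_num) (by norm_num) (by norm_num) (by norm_num) (by norm_num)
      (by norm_num) (by norm_num) (by norm_num) (by norm_num) (by norm_num) (by norm_num)
      (by norm_num) (by norm_num) h2
    have g2 : (ρ + 7 / 2 - 3 / 2) ^ 3 ≤ (217 / 215 * ρ) ^ 3 := by
      apply pow_le_pow_left₀ (by linarith)
      linarith
    have g3 : 215 * ρ ^ 2 ≤ ρ * ρ ^ 2 := mul_le_mul_of_nonneg_right h1 (by positivity)
    nlinarith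
  · have hρ0 : 0 < ρ := by linarith
    have g1 : 4641 * ρ ≤ ρ ^ 2 := by nlinarith
    refine exists_empty_par hρk (by linarith) (by norm_num) (a₀ := 6812 / 100) (μ := 1 / 15)
      (σ := 126 / 1000)
      (τ := 167 / 1000) (θ := 65 / 100) (c := 208 / 100) (c' := 2095 / 1000) (η := 804 / 10000)
      (κ₁ := 39 / 1000) (r₁ := 2171 / 1000) (κ₂ := 2 / 100) (by norm_num) (by norm_num; linarith)
      (by nlinarith) ?_ (by norm_num) (by norm_num) (by norm_num) (by norm_num) (by norm_num)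
      (by norm_num) (by norm_num) (by norm_num) (by norm_num) (by norm_num) (by norm_num)
      (by norm_num) (by norm_num) (by norm_num) (by norm_num) (by norm_num) (by norm_num)
      (by norm_num) (by norm_num) h2
    have g2 : (ρ + 7 / 2 - 566 / 1000) ^ 3 ≤ (4644 / 4641 * ρ) ^ 3 := by
      apply pow_le_pow_left₀ (by linarith)
      linarith
    have g3 : 4641 * ρ ^ 2 ≤ ρ * ρ ^ 2 := mul_le_mul_of_nonneg_right h1 (by positivity)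
    nlinarith
  · have hρ0 : 0 < ρ := by linarith
    have g1 : 10000 * ρ ≤ ρ ^ 2 := by nlinarith
    refine exists_empty_par hρk (by linarith) (by norm_num) (a₀ := 100) (μ := 3)
      (σ := 105 / 10000)
      (τ := 167 / 1000) (θ := 1 / 2) (c := 92 / 10) (c' := 921 / 100) (η := 1816 / 100000)
      (κ₁ := 569 / 1000000) (r₁ := 323 / 10) (κ₂ := 625 / 10000000) (by norm_num)
      (by norm_num; linarith)
      (by nlinarith) ?_ (by norm_num) (by norm_num) (by norm_num) (by norm_num) (by norm_num)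
      (by norm_num) (by norm_num) (by norm_num) (by norm_num) (by norm_num) (by norm_num)
      (by norm_num) (by norm_num) (by norm_num) (by norm_num) (by norm_num) (by norm_num)
      (by norm_num) (by norm_num) h2
    have g2 : (ρ + 7 / 2 - 446 / 1000) ^ 3 ≤ (100031 / 100000 * ρ) ^ 3 := by
      apply pow_le_pow_left₀ (by linarith)
      linarith
    have g3 : 10000 * ρ ^ 2 ≤ ρ * ρ ^ 2 := mul_le_mul_of_nonneg_right h1 (by positivity)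
    nlinarith

end Pool.Agent.H35.SQ
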