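import Mathlib
import Pool.Graph.R_seed8.TH3.IR.Proj
import Pool.Graph.R_seed8.TH3.IR.Window
import Pool.Graph.R_pool_sql_team_seeded_c8625f6e.Results.MP_b56c98_ag.ConstantWindow

set_option autoImplicit false

/-! # Small multiplicities (from the library) -/

namespace Pool.Agent.H35.SQ

open MvPolynomial Pool.Agent.H350R3.MG
open scoped LinearAlgebra.Projectivization

theorem cons_ne_zero {n : ℕ} (p : Fin n → ℂ) : (Fin.cons 1 p : Fin (n + 1) → ℂ) ≠ 0 := by
  intro h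
  have := congrFun h 0
  simp at this

/-- from projective to affine coordinates -/
theorem affine_of_generally {n k : ℕ} {Q : (Fin k → ℙ ℂ (Fin (n + 1) → ℂ)) → Prop}
    (h : Generally Q) : ∃ F : MvPolynomial (Fin k × Fin n) ℂ, F ≠ 0 ∧ ∀ P : Fin k → Fin n → ℂ,
      MvPolynomial.eval (fun x : Fin k × Fin n => P x.1 x.2) F ≠ 0 →
        Q fun i => Projectivization.mk ℂ (Fin.cons 1 (P i) : Fin (n + 1) → ℂ) (cons_ne_zero _) := by
  classical
  obtain ⟨U, ⟨S, hS⟩, ⟨P₀, hP₀⟩, hQ⟩ := h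
  obtain ⟨f, hf, hf0⟩ := (hS (fun i => (P₀ i).rep) (fun i => (P₀ i).rep_nonzero)).1
    (by simpa using hP₀)
  have hfne : f ≠ 0 := by
    rintro rfl
    exact hf0 (map_zero _)
  have h1 : f * ∏ i : Fin k, X (i, (0 : Fin (n + 1))) ≠ 0 :=
    mul_ne_zero hfne (Finset.prod_ne_zero_iff.2 fun i _ => X_ne_zero _)
  obtain ⟨w, hw⟩ : ∃ w : Fin k × Fin (n + 1) → ℂ,
      eval w (f * ∏ i : Fin k, X (i, (0 : Fin (n + 1)))) ≠ 0 := by
    by_contra hcon
    push Not at hcon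
    exact h1 (MvPolynomial.funext fun w => by rw [hcon w, map_zero])
  rw [map_mul, map_prod] at hw
  have hw1 : eval w f ≠ 0 := left_ne_zero_of_mul hw
  have hw2 : ∀ i, w (i, 0) ≠ 0 := by
    intro i
    have := Finset.prod_ne_zero_iff.1 (right_ne_zero_of_mul hw) i (Finset.mem_univ i)
    rwa [eval_X] at this
  have hv : ∀ i, (fun j => w (i, j)) ≠ 0 := fun i h0 => hw2 i (congrFun h0 0)
  have hU1 : (fun i => Projectivization.mk ℂ (fun j => w (i, j)) (hv i)) ∈ U :=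
    (hS (fun i j => w (i, j)) hv).2 ⟨f, hf, hw1⟩
  -- the affine point
  obtain ⟨p, hp⟩ : ∃ p : Fin k → Fin n → ℂ, p = fun i j => w (i, j.succ) / w (i, 0) := ⟨_, rfl⟩
  have hmk : (fun i => Projectivization.mk ℂ (Fin.cons 1 (p i) : Fin (n + 1) → ℂ)
      (cons_ne_zero _)) = fun i => Projectivization.mk ℂ (fun j => w (i, j)) (hv i) := by
    funext i
    rw [Projectivization.mk_eq_mk_iff']
    refine ⟨(w (i, 0))⁻¹, ?_⟩
    funext j
    refine Fin.cases ?_ (fun j => ?_) j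
    · simp only [Pi.smul_apply, smul_eq_mul, Fin.cons_zero]
      exact inv_mul_cancel₀ (hw2 i)
    · simp only [Pi.smul_apply, smul_eq_mul, Fin.cons_succ, hp]
      rw [div_eq_inv_mul]
  rw [← hmk] at hU1
  obtain ⟨g, hg, hg0⟩ := (hS (fun i => (Fin.cons 1 (p i) : Fin (n + 1) → ℂ))
    (fun i => cons_ne_zero _)).1 hU1
  -- the polynomial
  have hev : ∀ (g : MvPolynomial (Fin k × Fin (n + 1)) ℂ) (P : Fin k → Fin n → ℂ),
      eval (fun x : Fin k × Fin n => P x.1 x.2)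
      (aeval (fun x : Fin k × Fin (n + 1) =>
        (Fin.cons 1 (fun j => X (x.1, j)) : Fin (n + 1) → MvPolynomial (Fin k × Fin n) ℂ) x.2) g) =
      eval (fun x : Fin k × Fin (n + 1) => (Fin.cons 1 (P x.1) : Fin (n + 1) → ℂ) x.2) g := by
    clear hg0 hg
    intro g P
    induction g using MvPolynomial.induction_on with
    | C a => simp [algebraMap_eq]
    | add p q hp hq => rw [map_add, map_add, hp, hq, map_add]
    | mul_X p i hp =>
      rw [map_mul, map_mul, hp, aeval_X, map_mul, eval_X]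
      congr 1
      obtain ⟨i, j⟩ := i
      refine Fin.cases ?_ (fun j => ?_) j
      · simp only [Fin.cons_zero, map_one]
      · simp only [Fin.cons_succ, eval_X]
  refine ⟨aeval (fun x : Fin k × Fin (n + 1) =>
      (Fin.cons 1 (fun j => X (x.1, j)) : Fin (n + 1) → MvPolynomial (Fin k × Fin n) ℂ) x.2) g,
      fun h0 => ?_, fun P hP => ?_⟩
  · have := hev g p
    rw [h0, map_zero] at this
    exact hg0 this.symm
  · rw [hev] at hP
    exact hQ _ ((hS _ fun i => cons_ne_zero _).2 ⟨g, hg, hP⟩)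

/-- For `k ≥ 10 ^ 7` general points of the same small multiplicity `m`, all degrees but at most one
are fine (from the library). -/
theorem small_mult {k m : ℕ} {ρ : ℝ} (hρ : 215 ≤ ρ) (hk : ρ ^ 3 = k) (hm : 1 ≤ m)
    (hmρ : (m : ℝ) ≤ ρ ^ 2 / 15) : ∃ d₀ : ℕ, ∀ d : ℕ, d ≠ d₀ →
      ∃ F : MvPolynomial (Fin k × Fin 3) ℂ, F ≠ 0 ∧ ∀ P : Fin k → Fin 3 → ℂ,
        MvPolynomial.eval (fun x : Fin k × Fin 3 => P x.1 x.2) F ≠ 0 →
          (Module.finrank ℂ
            ↥(MvPolynomial.homogeneousSubmodule (Fin (3 + 1)) ℂ d ⊓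
              Submodule.restrictScalars ℂ
                (⨅ i : Fin k, (Ideal.span (Set.range fun j : Fin 3 =>
                  (X j.succ - C (P i j) * X 0 : MvPolynomial (Fin (3 + 1)) ℂ))) ^ m)) : ℤ) =
            max 0 ((Nat.choose (d + 3) 3 : ℤ) - ∑ _i : Fin k, (Nat.choose (m + 3 - 1) 3 : ℤ)) := by
  have h19 : 19 ≤ k := by
    have : (19 : ℝ) ≤ k := by
      rw [← hk]
      nlinarith [mul_le_mul hρ hρ (by norm_num) (by linarith : (0 : ℝ) ≤ ρ)]
    exact_mod_cast this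
  have hcond : (2 * Pool.Agent.Results.MP_b56c98_ag.ConstantWindow.const 3) ^ 3 * (m + 3 - 1) ^ 3 <
      3 * (3 * (k - Pool.Agent.Results.MP_b56c98_ag.ConstantWindow.const 3)) ^ (3 - 1) := by
    have hc : Pool.Agent.Results.MP_b56c98_ag.ConstantWindow.const 3 = 19 := by
      simp [Pool.Agent.Results.MP_b56c98_ag.ConstantWindow.const]
    rw [hc]
    have h1 : ((2 * 19) ^ 3 * ((m : ℝ) + 2) ^ 3) < 3 * (3 * (k - 19)) ^ 2 := by
      rw [← hk]
      have h2 : 38 * ((m : ℝ) + 2) ≤ 38 * (ρ ^ 2 / 15 + 2) := by linarith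
      have h3 : (38 * ((m : ℝ) + 2)) ^ 3 ≤ (38 * (ρ ^ 2 / 15 + 2)) ^ 3 :=
        pow_le_pow_left₀ (by positivity) h2 3
      have h4 : 38 * (ρ ^ 2 / 15 + 2) ≤ 26 / 10 * ρ ^ 2 := by nlinarith
      have h5 : (38 * (ρ ^ 2 / 15 + 2)) ^ 3 ≤ (26 / 10 * ρ ^ 2) ^ 3 :=
        pow_le_pow_left₀ (by positivity) h4 3
      have h6 : (19 : ℝ) ≤ ρ ^ 3 / 10 := by
        nlinarith [mul_le_mul hρ hρ (by norm_num) (by linarith : (0 : ℝ) ≤ ρ)]
      have h7 : (ρ ^ 3 * (9 / 10)) ^ 2 ≤ (ρ ^ 3 - 19) ^ 2 :=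
        pow_le_pow_left₀ (by positivity) (by linarith) 2
      have h8 : 0 < ρ ^ 6 := by positivity
      nlinarith
    have h2 : (((2 * 19) ^ 3 * (m + 3 - 1) ^ 3 : ℕ) : ℝ) < ((3 * (3 * (k - 19)) ^ (3 - 1) : ℕ) : ℝ) := by
      have e1 : m + 3 - 1 = m + 2 := by omega
      rw [e1]
      push_cast [Nat.cast_sub h19]
      norm_num at h1
      exact h1
    exact_mod_cast h2
  obtain ⟨d₀, hd₀⟩ := (Pool.Agent.Results.MP_b56c98_ag.ConstantWindow.result 3
    (by norm_num)).2.2.1 k m hm hcond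
  refine ⟨d₀, fun d hd => ?_⟩
  obtain ⟨F, hF, h1⟩ := affine_of_generally (hd₀ d hd)
  refine ⟨F, hF, fun P hP => ?_⟩
  have h2 := h1 P hP
  unfold Pool.Agent.Results.MP_b56c98_ag.ConstantWindow.hilbert
    Pool.Agent.Results.MP_b56c98_ag.ConstantWindow.fatIdeal at h2
  have h3 : (⨅ i : Fin k, primeIdeal (Projectivization.mk ℂ
      (Fin.cons 1 (P i) : Fin (3 + 1) → ℂ) (cons_ne_zero _)) ^ m) =
      ⨅ i : Fin k, (Ideal.span (Set.range fun j : Fin 3 =>
        (X j.succ - C (P i j) * X 0 : MvPolynomial (Fin (3 + 1)) ℂ))) ^ m := by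
    congr 1
    funext i
    rw [Pool.Agent.TH3.IR.primeIdeal_cons]
  rw [h3, Pool.Agent.TH3.IR.finrank_forms (by norm_num)] at h2
  rw [Finset.sum_const, Finset.card_univ, Fintype.card_fin, nsmul_eq_mul]
  unfold Pool.Agent.Results.MP_b56c98_ag.ConstantWindow.forms
    Pool.Agent.Results.MP_b56c98_ag.ConstantWindow.conditions at h2
  rw [show 3 + d = d + 3 by omega, show 3 + m - 1 = m + 3 - 1 by omega] at h2
  rcases le_total (((d + 3).choose 3 : ℕ) : ℤ) (k * (((m + 3 - 1).choose 3 : ℕ) : ℤ)) with h4 | h4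
  · rw [min_eq_left h4] at h2
    rw [max_eq_left (by linarith)]
    linarith
  · rw [min_eq_right h4] at h2
    rw [max_eq_right (by linarith)]
    linarith

end Pool.Agent.H35.SQ
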